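import Pool.Agent.MP_755159_pr.Second

/-! The second moment computation for a fixed 2-factor. -/

set_option linter.unusedSectionVars false

namespace Pool.Agent.MP_755159_pr

open Finset

variable {V : Type} [Fintype V] [DecidableEq V] {R T k : ℕ}

theorem touched_total {pos : V → Fin 4} {n : ℕ} (hn : ∀ q, cnt pos univ q = n) {s : Equiv.Perm V}
    (hs : ∀ v, pos (s v) = pos v + 1) {sp : Fin R → V} {K : ℕ} (hK : K = R + 2 * R * (T + 1) + k)
    (hnK : 10 * K < n) {b b' : Bits R T} {τ τ' : Cut R T k → Fin 4} {t₁ : Cut R T k → V}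
    {p₁ p : End R T k → End R T k} (h₁ : Val pos s sp b τ t₁ p₁)
    (hd : ∀ i, b i ≠ b' i) {ι : Type}
    (S : Finset ι) (t : ι → Cut R T k → V) (hinj : Set.InjOn t S)
    (h : ∀ i ∈ S, Val pos s sp b' τ' (t i) p)
    (hx : ∀ i ∈ S, ∃ x ∈ XX b', loc s (t i) x ∈ univ.image (loc s t₁)) :
    (∑ i ∈ S, (Ext pos (fun m => Rl s t₁ (PP b p₁) m ∧ Rl s (t i) (PP b' p) m)).card) *
      (n - 10 * K) ^ (R + 1) ≤ 2 * K * (2 * K * (Ext pos (Rl s t₁ (PP b p₁))).card) := by
  classical
  have hex : ∀ i, ∃ d, b i d ≠ b' i d ∧ ∀ l < d, b i l = b' i l := by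
    intro i
    obtain ⟨d, hd, hmin⟩ := exists_min_image (univ.filter (fun l => b i l ≠ b' i l)) id
      (by obtain ⟨l, hl⟩ := Function.ne_iff.mp (hd i); exact ⟨l, by simpa using hl⟩)
    refine ⟨d, by simpa using hd, fun l hl => ?_⟩
    by_contra hc
    exact absurd (hmin l (by simpa using hc)) (not_le.mpr hl)
  choose d hd1 hd2 using hex
  obtain ⟨A, hA⟩ : ∃ A, A = univ.image (loc s t₁) := ⟨_, rfl⟩
  have hAc : A.card ≤ 2 * K := by
    rw [hA, ← card_End hK]; exact card_image_le
  obtain ⟨C, hC⟩ : ∃ C : End R T k → ι → Prop, C = fun u i => u ∈ ZZ b' d ∧ fl u ∈ ZZ b' d ∧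
    (∀ x, loc s (t i) (xo b' x (d x)) ∉ A) ∧ loc s (t i) u ∈ A ∧ loc s (t i) (fl u) ∉ A := ⟨_, rfl⟩
  have h1 : ∑ i ∈ S, (Ext pos (fun m => Rl s t₁ (PP b p₁) m ∧ Rl s (t i) (PP b' p) m)).card ≤
      ∑ u, ∑ i ∈ S.filter (C u),
        (Ext pos (fun m => Rl s t₁ (PP b p₁) m ∧ Rl s (t i) (PP b' p) m)).card := by
    simp only [sum_filter]
    rw [sum_comm]
    apply sum_le_sum
    intro i hi
    rcases (Ext pos (fun m => Rl s t₁ (PP b p₁) m ∧ Rl s (t i) (PP b' p) m)).eq_empty_or_nonempty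
      with h0 | ⟨m, hm⟩
    · simp [h0]
    · obtain ⟨-, a, c⟩ := mem_Ext.mp hm
      obtain ⟨z, u, u1, u2, u3, u4⟩ := touched_exists hs h₁ (h i hi) hd1 hd2 a c (hx i hi)
      refine le_trans ?_ (single_le_sum (f := fun u => if C u i then _ else 0)
        (fun _ _ => Nat.zero_le _) (mem_univ u))
      rw [if_pos]
      rw [hC, hA]
      exact ⟨u1, u2, z, u3, u4⟩
  refine (Nat.mul_le_mul_right _ h1).trans ?_
  rw [sum_mul]
  refine (sum_le_sum (g := fun _ => 2 * K * (Ext pos (Rl s t₁ (PP b p₁))).card) ?_).trans ?_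
  · intro u _
    rcases (S.filter (C u)).eq_empty_or_nonempty with h0 | ⟨i₀, hi₀⟩
    · simp [h0]
    · have hC' : ∀ i ∈ S.filter (C u), u ∈ ZZ b' d ∧ fl u ∈ ZZ b' d ∧
          (∀ x, loc s (t i) (xo b' x (d x)) ∉ A) ∧ loc s (t i) u ∈ A ∧ loc s (t i) (fl u) ∉ A := by
        intro i hi
        have := (mem_filter.mp hi).2
        rwa [hC] at this
      exact touched_sum hn hs hK hnK (hA ▸ Rl_Loc pos s t₁ _) hAc d (hC' i₀ hi₀).1 (hC' i₀ hi₀).2.1
        _ t (hinj.mono (filter_subset _ _)) (fun i hi => h i (mem_filter.mp hi).1)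
        (fun i hi => (hC' i hi).2.2.1) (fun i hi => (hC' i hi).2.2.2.1)
        (fun i hi => (hC' i hi).2.2.2.2)
  · rw [sum_const, card_univ, card_End hK, smul_eq_mul]

/-- good completions of a placement of the chains -/
noncomputable def Good (pos : V → Fin 4) (s : Equiv.Perm V) (sp : Fin R → V) (b : Bits R T)
    (τ : Cut R T k → Fin 4) (r₀ : Fin R) (g₀ : Fin k) (γ : Chn R × Fin (T + 1) → V) :
    Finset (Σ _ : Fin k → V, End R T k → End R T k) :=
  (GoodB pos s sp b τ r₀ g₀ γ).sigma (fun β => GoodP pos s b τ (tl sp γ β))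

lemma Good_val {pos : V → Fin 4} {s : Equiv.Perm V} {sp : Fin R → V} (hsp0 : ∀ r, pos (sp r) = 0)
    {b : Bits R T} {τ : Cut R T k → Fin 4} {E : ℕ} {r₀ : Fin R} {g₀ : Fin k}
    (hτ : Typed b τ E r₀ g₀) {L : ℕ} {γ : Chn R × Fin (T + 1) → V} (hγ : γ ∈ Nice pos s sp τ L)
    {c : Σ _ : Fin k → V, End R T k → End R T k} (hc : c ∈ Good pos s sp b τ r₀ g₀ γ) :
    Val pos s sp b τ (tl sp γ c.1) c.2 := by
  rw [Good, mem_sigma, mem_GoodB, mem_GoodP] at hc
  refine ⟨fun _ => rfl, ?_, hc.1.2.1, hc.2.1, hτ.chn, hc.2.2.1⟩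
  rintro (r | x | g)
  · exact (hsp0 r).trans (hτ.sp r).symm
  · exact (mem_Nice.mp hγ).1 x
  · exact hc.1.1 g

theorem plant_bound {pos : V → Fin 4} {n : ℕ} (hn : ∀ q, cnt pos univ q = n) {s : Equiv.Perm V}
    (hs : ∀ v, pos (s v) = pos v + 1) {sp : Fin R → V} (hsp0 : ∀ r, pos (sp r) = 0)
    {K : ℕ} (hK : K = R + 2 * R * (T + 1) + k)
    (hnK : 10 * K < n) {Q : (V → V) → Prop} {A : Finset V} (hQ : Loc pos A Q)
    (hA : A.card ≤ 2 * K) {b : Bits R T} {τ : Cut R T k → Fin 4} {E : ℕ} {r₀ : Fin R} {g₀ : Fin k}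
    (hτ : Typed b τ E r₀ g₀) (L : ℕ) {β δ : ℝ} (hβ0 : 0 ≤ β) (hδ0 : 0 ≤ δ)
    (hβ : ∀ γ ∈ Nice pos s sp τ L, (n : ℝ) ^ (2 * E) * (E.factorial * E.factorial) ≤
      β * (Good pos s sp b τ r₀ g₀ γ).card)
    (hδ : ∀ p (S : Finset (Σ _ : Chn R × Fin (T + 1) → V, Σ _ : Fin k → V,
      End R T k → End R T k)), Set.InjOn (fun i : Σ _ : Chn R × Fin (T + 1) → V,
        Σ _ : Fin k → V, End R T k → End R T k => tl sp i.1 i.2.1) S →
      (∀ i ∈ S, Val pos s sp b τ (tl sp i.1 i.2.1) p) →
      (∀ i ∈ S, ∃ x ∈ XX b, loc s (tl sp i.1 i.2.1) x ∈ A) →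
      ((∑ i ∈ S, (Ext pos (fun m => Q m ∧ Rl s (tl sp i.1 i.2.1) (PP b p) m)).card : ℕ) : ℝ) ≤
        δ * (Ext pos Q).card) :
    ∑ i ∈ (Nice pos s sp τ L).sigma (Good pos s sp b τ r₀ g₀),
      (n : ℝ) ^ (2 * E) / (Good pos s sp b τ r₀ g₀ i.1).card *
        (Ext pos (fun m => Q m ∧ Rl s (tl sp i.1 i.2.1) (PP b i.2.2) m)).card ≤
      (((n : ℝ) / (n - 10 * K)) ^ (2 * E) + β * δ) * (Ext pos Q).card := by
  classical
  have hpos : (0 : ℝ) < n - 10 * K := by
    have : ((10 * K : ℕ) : ℝ) < n := by exact_mod_cast hnK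
    push_cast at this
    linarith
  have hcast : ((n - 10 * K : ℕ) : ℝ) = n - 10 * K := by
    rw [Nat.cast_sub hnK.le]; push_cast; ring
  rw [← sum_filter_add_sum_filter_not _ (fun i => ∀ x ∈ XX b, loc s (tl sp i.1 i.2.1) x ∉ A),
    add_mul]
  apply add_le_add
  · obtain ⟨F, hF⟩ : ∃ F : (Chn R × Fin (T + 1) → V) → Finset (V → V), F = fun γ =>
      Ext pos (fun m => Q m ∧ ∃ β : Fin k → V, ∀ e, e ∉ XX b →
        m (loc s (tl sp γ β) e) = loc s (tl sp γ β) (ch b e)) := ⟨_, rfl⟩
    have h1 : ∑ γ ∈ Nice pos s sp τ L, (F γ).card ≤ 1 * (Ext pos Q).card := by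
      apply sum_card_le_mul
      · intro γ _ m hm
        rw [hF, mem_Ext] at hm
        exact mem_Ext.mpr ⟨hm.1, hm.2.1⟩
      · intro m _
        rw [card_le_one]
        intro γ hγ γ' hγ'
        rw [mem_filter, hF, mem_Ext] at hγ hγ'
        obtain ⟨β, h⟩ := hγ.2.2.2
        obtain ⟨β', h'⟩ := hγ'.2.2.2
        exact unique_gamma h h'
    calc _ ≤ ∑ i ∈ (Nice pos s sp τ L).sigma (Good pos s sp b τ r₀ g₀),
          (n : ℝ) ^ (2 * E) / (Good pos s sp b τ r₀ g₀ i.1).card *
            ((F i.1).card / (n - 10 * K) ^ (2 * E)) := by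
          rw [sum_filter]
          apply sum_le_sum
          intro i hi
          split_ifs with hc
          · apply mul_le_mul_of_nonneg_left _ (by positivity)
            rw [le_div_iff₀ (by positivity), ← hcast]
            rw [mem_sigma] at hi
            have := (untouched hn hs hK hQ hA (Good_val hsp0 hτ hi.1 hi.2) hτ.count hc).trans
              (Ext_congr (Q := fun m => Q m ∧ ∃ β : Fin k → V, ∀ e, e ∉ XX b →
                m (loc s (tl sp i.1 β) e) = loc s (tl sp i.1 β) (ch b e))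
                (fun m _ h => ⟨h.1, _, h.2⟩))
            rw [hF]
            exact_mod_cast this
          · positivity
      _ ≤ ∑ γ ∈ Nice pos s sp τ L, ((n : ℝ) / (n - 10 * K)) ^ (2 * E) * (F γ).card := by
          rw [sum_sigma]
          apply sum_le_sum
          intro γ _
          simp only [sum_const, nsmul_eq_mul]
          rcases Nat.eq_zero_or_pos (Good pos s sp b τ r₀ g₀ γ).card with h0 | h0
          · rw [h0]; simp only [Nat.cast_zero, zero_mul]; positivity
          · have : (0 : ℝ) < (Good pos s sp b τ r₀ g₀ γ).card := by exact_mod_cast h0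
            rw [div_pow]
            apply le_of_eq
            field_simp
      _ ≤ _ := by
          rw [← mul_sum]
          apply mul_le_mul_of_nonneg_left _ (by positivity)
          rw [one_mul] at h1
          exact_mod_cast h1
  · obtain ⟨S, hS⟩ : ∃ S, S = ((Nice pos s sp τ L).sigma (Good pos s sp b τ r₀ g₀)).filter
      (fun i => ¬ ∀ x ∈ XX b, loc s (tl sp i.1 i.2.1) x ∉ A) := ⟨_, rfl⟩
    rw [← hS]
    have hfac : (0 : ℝ) < E.factorial * E.factorial := by positivity
    have hval : ∀ i ∈ S, Val pos s sp b τ (tl sp i.1 i.2.1) i.2.2 := by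
      intro i hi
      rw [hS, mem_filter, mem_sigma] at hi
      exact Good_val hsp0 hτ hi.1.1 hi.1.2
    calc _ ≤ ∑ i ∈ S, β / (E.factorial * E.factorial) *
          (Ext pos (fun m => Q m ∧ Rl s (tl sp i.1 i.2.1) (PP b i.2.2) m)).card := by
          apply sum_le_sum
          intro i hi
          apply mul_le_mul_of_nonneg_right _ (by positivity)
          rw [hS, mem_filter, mem_sigma] at hi
          have : (0 : ℝ) < (Good pos s sp b τ r₀ g₀ i.1).card := by
            exact_mod_cast card_pos.mpr ⟨_, hi.1.2⟩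
          rw [div_le_div_iff₀ this hfac]
          exact hβ _ hi.1.1
      _ = β / (E.factorial * E.factorial) * ∑ p ∈ TP (tyE τ) (XX b),
          ∑ i ∈ S.filter (fun i => i.2.2 = p),
          ((Ext pos (fun m => Q m ∧ Rl s (tl sp i.1 i.2.1) (PP b i.2.2) m)).card : ℝ) := by
          rw [← mul_sum]
          congr 1
          symm
          convert sum_fiberwise_of_maps_to (s := S) (t := TP (tyE τ) (XX b)) (g := fun i => i.2.2)
            (fun i hi => mem_TP.mpr (hval i hi).tp) _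
      _ ≤ β / (E.factorial * E.factorial) * ∑ _p ∈ TP (tyE τ) (XX b), δ * (Ext pos Q).card := by
          apply mul_le_mul_of_nonneg_left _ (by positivity)
          apply sum_le_sum
          intro p _
          refine le_trans (le_of_eq ?_) (hδ p (S.filter (fun i => i.2.2 = p)) ?_ ?_ ?_)
          · push_cast
            apply sum_congr rfl
            intro i hi
            rw [(mem_filter.mp hi).2]
          · rintro ⟨γ, β, p₁⟩ hi ⟨γ', β', p₂⟩ hi' e
            simp only [coe_filter, Set.mem_ofPred_eq] at hi hi'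
            have e1 : γ = γ' := funext fun x => congrFun e (Sum.inr (Sum.inl x))
            have e2 : β = β' := funext fun x => congrFun e (Sum.inr (Sum.inr x))
            rw [e1, e2, hi.2, hi'.2]
          · intro i hi
            rw [mem_filter] at hi
            exact hi.2 ▸ hval i hi.1
          · intro i hi
            rw [mem_filter, hS, mem_filter] at hi
            have := hi.1.2
            push Not at this
            exact this
      _ ≤ _ := by
          rw [sum_const, nsmul_eq_mul]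
          have := card_TP_le (tyE τ) _ (XX b) rfl
          rw [hτ.count, hτ.count] at this
          have h2 : ((TP (tyE τ) (XX b)).card : ℝ) ≤ E.factorial * E.factorial := by
            exact_mod_cast this
          calc _ ≤ β / (E.factorial * E.factorial) *
              ((E.factorial * E.factorial) * (δ * (Ext pos Q).card)) := by gcongr
            _ = _ := by field_simp

lemma card_agree (b : Bits R T) :
    (univ.filter (fun b' : Bits R T => ¬ ∀ i, b i ≠ b' i)).card * 2 ^ (T + 1) ≤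
      2 * R * Fintype.card (Bits R T) := by
  have h1 : univ.filter (fun b' : Bits R T => ¬ ∀ i, b i ≠ b' i) ⊆
      univ.biUnion (fun i => univ.filter (fun b' : Bits R T => b' i = b i)) := by
    intro b' hb'
    simp only [mem_filter, mem_univ, true_and, not_forall, not_not] at hb'
    obtain ⟨i, hi⟩ := hb'
    simp only [mem_biUnion, mem_filter, mem_univ, true_and]
    exact ⟨i, hi.symm⟩
  refine (Nat.mul_le_mul_right _ ((card_le_card h1).trans card_biUnion_le)).trans ?_
  rw [sum_mul]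
  refine (sum_le_sum (g := fun _ => Fintype.card (Bits R T)) ?_).trans ?_
  · intro i _
    have := resample_pi (fun _ : Chn R => (univ : Finset (Fin (T + 1) → Bool))) i
      (univ.filter (fun b' : Bits R T => b' i = b i)) (by simp) 1 ?_
    · simpa using this
    · intro f _
      rw [card_le_one]
      intro x hx y hy
      simp only [mem_filter, mem_univ, true_and, Function.update_self] at hx hy
      rw [hx, hy]
  · simp [mul_comm]

theorem main_det {pos : V → Fin 4} {n : ℕ} (hn : ∀ q, cnt pos univ q = n) {s : Equiv.Perm V}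
    (hs : ∀ v, pos (s v) = pos v + 1)
    {sp : Fin R → V} (hsp0 : ∀ r, pos (sp r) = 0) (hspi : Function.Injective sp)
    (hsp : ∀ W : Finset V, W.Nonempty → (∀ v ∈ W, s v ∈ W) → ∃ r, sp r ∈ W)
    (T k E : ℕ) (hT : Even (T + 1)) (hE : R + k = 2 * E) (hR : 4 ≤ R) (hRE : R < E)
    {L n₁ n₂ I K : ℕ} (hI : I = 2 * R * (T + 1)) (hK : K = R + I + k) (hL : 2 ≤ L)
    (hN₁ : 4 * n₁ ≤ L) (hN₂ : 4 * n₂ ≤ L) (hn1 : 0 < n₁) (hnK : 10 * K < n)
    (c1 : 4 * k * (4 * n₂ + 5 * K) ≤ n) (c2 : 4 * I * n ≤ k * n₁) (c3 : 5 * K < n₂)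
    {β : ℝ} (hβ : 2 * (n : ℝ) ^ (R + 1) * E ^ 3 ≤ β * (n₂ - 5 * K)) :
    (1 - (I * ((R + I) * (2 * L + 1)) : ℝ) / n) * (TP pos univ).card ≤
      (((n : ℝ) / (n - 10 * K)) ^ (2 * E) + β * (2 * K * (2 * K) / (n - 10 * K) ^ (R + 1)) +
        β * (2 * R / 2 ^ (T + 1))) * (Ext pos (fun m => (Gr s m).IsHamiltonian)).card := by
  classical
  have hn0 : 0 < n := by omega
  have hK' : K = R + 2 * R * (T + 1) + k := by rw [hK, hI]
  obtain ⟨r₀⟩ : Nonempty (Fin R) := ⟨⟨0, by omega⟩⟩
  obtain ⟨g₀, hg₀⟩ : ∃ g₀ : Fin k, g₀.val = 0 := ⟨⟨0, by omega⟩, rfl⟩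
  choose τ hτ using fun b : Bits R T => exists_typed b E hT hE hRE r₀ g₀ hg₀
  have hpos : (0 : ℝ) < n - 10 * K := by
    have : ((10 * K : ℕ) : ℝ) < n := by exact_mod_cast hnK
    push_cast at this
    linarith
  have hcast : ((n - 10 * K : ℕ) : ℝ) = n - 10 * K := by
    rw [Nat.cast_sub hnK.le]; push_cast; ring
  have hpos2 : (0 : ℝ) < n₂ - 5 * K := by
    have : ((5 * K : ℕ) : ℝ) < n₂ := by exact_mod_cast c3
    push_cast at this
    linarith
  have hcast2 : ((n₂ - 5 * K : ℕ) : ℝ) = n₂ - 5 * K := by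
    rw [Nat.cast_sub c3.le]; push_cast; ring
  have hnR : (0 : ℝ) < n := by exact_mod_cast hn0
  have hβ0 : 0 ≤ β := by
    by_contra hc
    have := mul_neg_of_neg_of_pos (not_le.mp hc) hpos2
    have : (0 : ℝ) ≤ 2 * (n : ℝ) ^ (R + 1) * E ^ 3 := by positivity
    linarith
  obtain ⟨E', rfl⟩ : ∃ E', E = E' + 1 + 1 := ⟨E - 2, by omega⟩
  have hG : ∀ b, ∀ γ ∈ Nice pos s sp (τ b) L,
      (n₂ - 5 * K) * n ^ (k - 1) * ((E' + 1).factorial * E'.factorial) ≤
        2 * (Good pos s sp b (τ b) r₀ g₀ γ).card := by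
    intro b γ hγ
    refine (Nat.mul_le_mul_right _ (card_GoodB hn hs hsp0 hspi hsp b r₀ g₀ hI hK hL hN₁ hN₂ hn0 hn1
      c1 c2 hγ)).trans ?_
    rw [mul_assoc]
    apply Nat.mul_le_mul_left
    rw [Good, card_sigma, ← smul_eq_mul, ← sum_const]
    apply sum_le_sum
    intro β hβ
    rw [mem_GoodB] at hβ
    exact card_GoodP hs hβ.2.1 hsp (hτ b) hR hβ.2.2.1 hβ.2.2.2
  have hGpos : ∀ b, ∀ γ ∈ Nice pos s sp (τ b) L, 0 < (Good pos s sp b (τ b) r₀ g₀ γ).card := by
    intro b γ hγ
    have a := hG b γ hγ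
    have c : 0 < (n₂ - 5 * K) * n ^ (k - 1) * ((E' + 1).factorial * E'.factorial) := by
      have : 0 < n₂ - 5 * K := by omega
      positivity
    omega
  have hGβ : ∀ b, ∀ γ ∈ Nice pos s sp (τ b) L, (n : ℝ) ^ (2 * (E' + 1 + 1)) *
      ((E' + 1 + 1).factorial * (E' + 1 + 1).factorial) ≤
      β * (Good pos s sp b (τ b) r₀ g₀ γ).card := by
    intro b γ hγ
    have a : ((n₂ : ℝ) - 5 * K) * n ^ (k - 1) * ((E' + 1).factorial * E'.factorial) ≤
        2 * (Good pos s sp b (τ b) r₀ g₀ γ).card := by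
      rw [← hcast2]; exact_mod_cast hG b γ hγ
    have c : (n : ℝ) ^ (2 * (E' + 1 + 1)) = n ^ (R + 1) * n ^ (k - 1) := by
      rw [← pow_add]; congr 1; omega
    have d : (((E' + 1 + 1).factorial : ℝ) * (E' + 1 + 1).factorial) ≤
        ((E' + 1 + 1 : ℕ) : ℝ) ^ 3 * ((E' + 1).factorial * E'.factorial) := by
      rw [Nat.factorial_succ (E' + 1)]
      conv_lhs => rw [mul_comm]; enter [1]; rw [Nat.factorial_succ E']
      push_cast
      have : (0 : ℝ) ≤ ((E' : ℝ) + 1 + 1) ^ 2 * ((E' + 1).factorial * E'.factorial) := by positivity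
      nlinarith
    have e := mul_le_mul_of_nonneg_right hβ
      (show (0 : ℝ) ≤ n ^ (k - 1) * ((E' + 1).factorial * E'.factorial) by positivity)
    have f := mul_le_mul_of_nonneg_left a hβ0
    have g := mul_le_mul_of_nonneg_left d
      (show (0 : ℝ) ≤ n ^ (R + 1) * n ^ (k - 1) by positivity)
    rw [c]
    nlinarith
  obtain ⟨α, hα⟩ : ∃ α : ℝ, α = ((n : ℝ) / (n - 10 * K)) ^ (2 * (E' + 1 + 1)) := ⟨_, rfl⟩
  obtain ⟨δ, hδ⟩ : ∃ δ : ℝ, δ = 2 * K * (2 * K) / (n - 10 * K) ^ (R + 1) := ⟨_, rfl⟩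
  have hα0 : 0 ≤ α := by rw [hα]; positivity
  have hδ0 : 0 ≤ δ := by rw [hδ]; positivity
  rw [← hα, ← hδ]
  obtain ⟨B, hB⟩ : ∃ B : ℝ, B = Fintype.card (Bits R T) := ⟨_, rfl⟩
  have hB0 : 0 < B := by rw [hB]; exact_mod_cast Fintype.card_pos
  have key := second_moment
    (univ.sigma (fun b : Bits R T => (Nice pos s sp (τ b) L).sigma (Good pos s sp b (τ b) r₀ g₀)))
    (fun i => (n : ℝ) ^ (2 * (E' + 1 + 1)) / (Good pos s sp i.1 (τ i.1) r₀ g₀ i.2.1).card)
    (fun _ _ => by positivity)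
    (fun i => Ext pos (Rl s (tl sp i.2.1 i.2.2.1) (PP i.1 i.2.2.2)))
    (Ext pos (fun m => (Gr s m).IsHamiltonian)) ?_
    (B * (α + β * δ + β * (2 * R / 2 ^ (T + 1)))) (by positivity) ?_
  · rw [mul_assoc] at key
    apply le_of_mul_le_mul_left _ hB0
    refine le_trans ?_ key
    rw [sum_sigma, hB, ← card_univ, ← nsmul_eq_mul, ← sum_const]
    apply sum_le_sum
    intro b _
    rw [sum_sigma]
    have h1 : ((n : ℝ) ^ I * n) ≤ (Nice pos s sp (τ b) L).card * n +
        I * (n ^ I * ((R + I) * (2 * L + 1))) := by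
      exact_mod_cast card_Nice hn s sp (τ b) L I hI
    calc _ ≤ (Nice pos s sp (τ b) L).card * ((TP pos univ).card / (n : ℝ) ^ I) := by
          rw [← mul_div_assoc, mul_div_right_comm ((Nice pos s sp (τ b) L).card : ℝ)]
          apply mul_le_mul_of_nonneg_right _ (by positivity)
          rw [le_div_iff₀ (by positivity), one_sub_div hnR.ne', div_mul_eq_mul_div,
            div_le_iff₀ hnR]
          linarith
      _ ≤ _ := by
          rw [← nsmul_eq_mul, ← sum_const]
          apply sum_le_sum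
          intro γ hγ
          have h2 : (0 : ℝ) < (Good pos s sp b (τ b) r₀ g₀ γ).card := by
            exact_mod_cast hGpos b γ hγ
          calc _ = ∑ _c ∈ Good pos s sp b (τ b) r₀ g₀ γ, (n : ℝ) ^ (2 * (E' + 1 + 1)) /
                (Good pos s sp b (τ b) r₀ g₀ γ).card * ((TP pos univ).card / n ^ K) := by
                rw [sum_const, nsmul_eq_mul, show K = I + 2 * (E' + 1 + 1) by omega, pow_add]
                field_simp
            _ ≤ _ := by
                apply sum_le_sum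
                intro c hc
                apply mul_le_mul_of_nonneg_left _ (by positivity)
                rw [div_le_iff₀ (by positivity), mul_comm]
                exact_mod_cast first_moment hn hs hK' (Good_val hsp0 (hτ b) hγ hc) hn0
  · intro i hi m hm
    simp only [mem_sigma, mem_univ, true_and, Good, mem_GoodP] at hi
    rw [mem_Ext] at hm ⊢
    exact ⟨hm.1, hi.2.2.2.2 m hm.1 hm.2⟩
  · rintro ⟨b, γ, c⟩ hi
    simp only [mem_sigma, mem_univ, true_and] at hi
    have hv := Good_val hsp0 (hτ b) hi.1 hi.2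
    have hinter : ∀ P P' : (V → V) → Prop, Ext pos P ∩ Ext pos P' =
        Ext pos (fun m => P m ∧ P' m) := by
      intro P P'; ext m; simp only [mem_inter, mem_Ext]; tauto
    have hAc : (univ.image (loc s (tl sp γ c.1))).card ≤ 2 * K := by
      rw [← card_End hK']; exact card_image_le
    simp only [hinter]
    rw [sum_sigma]
    calc _ ≤ ∑ b' : Bits R T, (α + β * δ + if ¬ ∀ i, b i ≠ b' i then β else 0) *
          (Ext pos (Rl s (tl sp γ c.1) (PP b c.2))).card := by
          apply sum_le_sum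
          intro b' _
          by_cases hd : ∀ i, b i ≠ b' i
          · rw [if_neg (not_not.mpr hd), add_zero, hα]
            refine plant_bound hn hs hsp0 hK' hnK (Rl_Loc pos s _ _) hAc (hτ b') L hβ0 hδ0
              (hGβ b') ?_
            intro p S h1 h2 h3
            rw [hδ, div_mul_eq_mul_div, le_div_iff₀ (by positivity), ← hcast, mul_assoc]
            exact_mod_cast touched_total hn hs hK' hnK hv hd S _ h1 h2 h3
          · rw [if_pos hd, hα]
            refine le_trans (plant_bound hn hs hsp0 hK' hnK (Rl_Loc pos s _ _) hAc (hτ b') L hβ0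
              zero_le_one (hGβ b') ?_) ?_
            · intro p S h1 h2 _
              rw [one_mul]
              exact_mod_cast crude _ S _ h1 h2
            · apply mul_le_mul_of_nonneg_right _ (by positivity)
              have := mul_nonneg hβ0 hδ0
              linarith
      _ ≤ _ := by
          rw [← sum_mul]
          apply mul_le_mul_of_nonneg_right _ (by positivity)
          rw [sum_add_distrib, sum_const, ← sum_filter, sum_const, nsmul_eq_mul, nsmul_eq_mul,
            card_univ, ← hB, mul_add B (α + β * δ)]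
          apply add_le_add_right
          rw [mul_left_comm, mul_comm β]
          apply mul_le_mul_of_nonneg_right _ hβ0
          rw [← mul_div_assoc, le_div_iff₀ (by positivity), mul_comm B, hB]
          exact_mod_cast card_agree b

end Pool.Agent.MP_755159_pr
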