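import Pool.Agent.MP_755159_pr.Pairing

/-! Counting typed perfect matchings that extend prescribed pairs; abstract second moment and
resampling lemmas. -/

set_option linter.unusedSectionVars false

namespace Pool.Agent.MP_755159_pr

open Finset

variable {V : Type} [Fintype V] [DecidableEq V]

open Classical in
/-- typed perfect matchings with a property -/
noncomputable def Ext (pos : V → Fin 4) (P : (V → V) → Prop) : Finset (V → V) :=
  (TP pos univ).filter P

lemma mem_Ext {pos : V → Fin 4} {P : (V → V) → Prop} {m : V → V} :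
    m ∈ Ext pos P ↔ IsTP pos univ m ∧ P m := by
  simp only [Ext, mem_filter, mem_TP]

lemma IsTP.invol {pos : V → Fin 4} {m : V → V} (h : IsTP pos univ m) (v : V) : m (m v) = v :=
  (h.2 v (mem_univ v)).2.1

lemma IsTP.pos_eq {pos : V → Fin 4} {m : V → V} (h : IsTP pos univ m) (v : V) :
    pos (m v) = pos v + 2 := (h.2 v (mem_univ v)).2.2

lemma IsTP.inj {pos : V → Fin 4} {m : V → V} (h : IsTP pos univ m) {v w : V} (e : m v = m w) :
    v = w := by rw [← h.invol v, e, h.invol]

/-- a property supported on `A` -/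
def Loc (pos : V → Fin 4) (A : Finset V) (P : (V → V) → Prop) : Prop :=
  (∀ m, IsTP pos univ m → P m → ∀ a ∈ A, m a ∈ A) ∧
  ∀ m m', P m → (∀ a ∈ A, m' a = m a) → P m'

lemma Ext_swap {pos : V → Fin 4} {A : Finset V} {P : (V → V) → Prop} (h : Loc pos A P) {u v v' : V}
    (hv : v ∉ A) (hv' : v' ∉ A) (h1 : pos v = pos u + 2) (h2 : pos v' = pos u + 2) :
    (Ext pos (fun m => P m ∧ m u = v)).card ≤ (Ext pos (fun m => P m ∧ m u = v')).card := by
  have hp : ∀ x, pos (Equiv.swap v v' x) = pos x := by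
    intro x
    rw [Equiv.swap_apply_def]
    split_ifs with a b
    · rw [a, h1, h2]
    · rw [b, h1, h2]
    · rfl
  apply card_le_card_of_injOn (fun m x => Equiv.swap v v' (m (Equiv.swap v v' x)))
  · intro m hm
    simp only [mem_coe, mem_Ext] at hm ⊢
    obtain ⟨hm, hP, huv⟩ := hm
    refine ⟨⟨by simp, fun d _ => ⟨mem_univ _, by simp [hm.invol], by rw [hp, hm.pos_eq, hp]⟩⟩,
      h.2 m _ hP ?_, ?_⟩
    · intro a ha
      have hma := h.1 m hm hP a ha
      have n1 : a ≠ v := by rintro rfl; exact hv ha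
      have n2 : a ≠ v' := by rintro rfl; exact hv' ha
      have n3 : m a ≠ v := by rintro rfl; exact hv hma
      have n4 : m a ≠ v' := by rintro rfl; exact hv' hma
      rw [Equiv.swap_apply_of_ne_of_ne n1 n2, Equiv.swap_apply_of_ne_of_ne n3 n4]
    · rw [Equiv.swap_apply_of_ne_of_ne (x := u) (ne_of_ty h1) (ne_of_ty h2), huv,
        Equiv.swap_apply_left]
  · intro m _ m' _ e
    funext x
    have := congrFun e (Equiv.swap v v' x)
    simpa using this

lemma Ext_up {pos : V → Fin 4} {n : ℕ} (hn : ∀ q, cnt pos univ q = n) {A : Finset V}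
    {P : (V → V) → Prop} (h : Loc pos A P) {u : V} (hu : u ∉ A) (v : V) :
    (Ext pos (fun m => P m ∧ m u = v)).card * (n - A.card) ≤ (Ext pos P).card := by
  rcases (Ext pos (fun m => P m ∧ m u = v)).eq_empty_or_nonempty with h0 | ⟨m, hm⟩
  · simp [h0]
  · obtain ⟨hm, hP, huv⟩ := mem_Ext.mp hm
    have h1 : pos v = pos u + 2 := by rw [← huv, hm.pos_eq]
    have hv : v ∉ A := by
      intro hv
      have := h.1 m hm hP v hv
      rw [← huv, hm.invol] at this
      exact hu this
    obtain ⟨F, hF⟩ : ∃ F, F = univ.filter (fun d => pos d = pos u + 2) \ A := ⟨_, rfl⟩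
    have hc : n - A.card ≤ F.card := by
      rw [hF, ← hn (pos u + 2)]
      exact le_card_sdiff _ _
    calc _ ≤ (Ext pos (fun m => P m ∧ m u = v)).card * F.card := Nat.mul_le_mul_left _ hc
      _ = ∑ _v' ∈ F, (Ext pos (fun m => P m ∧ m u = v)).card := by
          rw [sum_const, smul_eq_mul, mul_comm]
      _ ≤ ∑ v' ∈ F, ((Ext pos P).filter (fun m => m u = v')).card := by
          apply sum_le_sum
          intro v' hv'
          rw [hF, mem_sdiff, mem_filter] at hv'
          refine (Ext_swap h hv hv'.2 h1 hv'.1.2).trans (card_le_card ?_)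
          intro m hm
          rw [mem_filter, mem_Ext]
          have := mem_Ext.mp hm
          tauto
      _ ≤ _ := by
          rw [← card_biUnion]
          · apply card_le_card
            intro p hp
            obtain ⟨e', -, h⟩ := mem_biUnion.mp hp
            exact (mem_filter.mp h).1
          · intro a _ b _ hab
            simp only [Function.onFun, disjoint_filter]
            intro p _ h1 h2
            exact hab (h1.symm.trans h2)

lemma Ext_down {pos : V → Fin 4} {n : ℕ} (hn : ∀ q, cnt pos univ q = n) {A : Finset V}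
    {P : (V → V) → Prop} (h : Loc pos A P) {u v : V} (hu : u ∉ A) (hv : v ∉ A)
    (h1 : pos v = pos u + 2) :
    (Ext pos P).card ≤ n * (Ext pos (fun m => P m ∧ m u = v)).card := by
  obtain ⟨F, hF⟩ : ∃ F, F = univ.filter (fun d => pos d = pos u + 2) \ A := ⟨_, rfl⟩
  have hc : F.card ≤ n := by
    rw [hF, ← hn (pos u + 2)]
    exact card_le_card sdiff_subset
  calc _ ≤ (F.biUnion (fun v' => Ext pos (fun m => P m ∧ m u = v'))).card := by
          apply card_le_card
          intro m hm
          obtain ⟨hm, hP⟩ := mem_Ext.mp hm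
          refine mem_biUnion.mpr ⟨m u, ?_, mem_Ext.mpr ⟨hm, hP, rfl⟩⟩
          rw [hF, mem_sdiff, mem_filter]
          refine ⟨⟨mem_univ _, hm.pos_eq u⟩, fun hv => hu ?_⟩
          have := h.1 m hm hP _ hv
          rwa [hm.invol] at this
    _ ≤ ∑ v' ∈ F, (Ext pos (fun m => P m ∧ m u = v')).card := card_biUnion_le
    _ ≤ ∑ _v' ∈ F, (Ext pos (fun m => P m ∧ m u = v)).card := by
          apply sum_le_sum
          intro v' hv'
          rw [hF, mem_sdiff, mem_filter] at hv'
          exact Ext_swap h hv'.2 hv hv'.1.2 h1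
    _ ≤ _ := by
          rw [sum_const, smul_eq_mul]
          exact Nat.mul_le_mul_right _ hc

lemma Loc.add {pos : V → Fin 4} {A : Finset V} {P : (V → V) → Prop} (h : Loc pos A P)
    {ι : Type} [DecidableEq ι] (S : Finset ι) (u v : ι → V) :
    Loc pos (A ∪ (S.image u ∪ S.image v)) (fun m => P m ∧ ∀ x ∈ S, m (u x) = v x) := by
  constructor
  · intro m hm hP a ha
    simp only [mem_union, mem_image] at ha ⊢
    rcases ha with ha | ⟨x, hx, rfl⟩ | ⟨x, hx, rfl⟩
    · exact Or.inl (h.1 m hm hP.1 a ha)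
    · exact Or.inr (Or.inr ⟨x, hx, (hP.2 x hx).symm⟩)
    · exact Or.inr (Or.inl ⟨x, hx, by rw [← hP.2 x hx, hm.invol]⟩)
  · intro m m' hP hmm
    refine ⟨h.2 m m' hP.1 (fun a ha => hmm a (mem_union_left _ ha)), fun x hx => ?_⟩
    rw [hmm _ (mem_union_right _ (mem_union_left _ (mem_image_of_mem _ hx))), hP.2 x hx]

lemma Ext_congr {pos : V → Fin 4} {P Q : (V → V) → Prop} (h : ∀ m, IsTP pos univ m → P m → Q m) :
    (Ext pos P).card ≤ (Ext pos Q).card := by
  apply card_le_card
  intro m hm
  rw [mem_Ext] at hm ⊢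
  exact ⟨hm.1, h m hm.1 hm.2⟩

theorem Ext_up_iter {pos : V → Fin 4} {n : ℕ} (hn : ∀ q, cnt pos univ q = n) {A : Finset V}
    {P : (V → V) → Prop} (h : Loc pos A P) {ι : Type} [DecidableEq ι] (u v : ι → V) (N : ℕ)
    (S : Finset ι) (hu : ∀ x ∈ S, u x ∉ A)
    (huv : ∀ x ∈ S, ∀ y ∈ S, x ≠ y → u x ≠ u y ∧ u x ≠ v y) (hN : A.card + 2 * S.card ≤ N) :
    (Ext pos (fun m => P m ∧ ∀ x ∈ S, m (u x) = v x)).card * (n - N) ^ S.card ≤
      (Ext pos P).card := by
  induction S using Finset.induction_on with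
  | empty => simp
  | insert x S hx ih =>
    rw [card_insert_of_notMem hx] at hN ⊢
    refine le_trans ?_ (ih (fun y hy => hu y (mem_insert_of_mem hy))
      (fun y hy z hz => huv y (mem_insert_of_mem hy) z (mem_insert_of_mem hz)) (by omega))
    rw [pow_succ', ← mul_assoc]
    apply Nat.mul_le_mul_right
    refine le_trans ?_ (Ext_up hn (h.add S u v) (u := u x) ?_ (v x))
    · apply Nat.mul_le_mul
      · apply Ext_congr
        intro m _ hm
        exact ⟨⟨hm.1, fun y hy => hm.2 y (mem_insert_of_mem hy)⟩, hm.2 x (mem_insert_self _ _)⟩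
      · have a := card_union_le A (S.image u ∪ S.image v)
        have b := card_union_le (S.image u) (S.image v)
        have c := card_image_le (s := S) (f := u)
        have d := card_image_le (s := S) (f := v)
        omega
    · simp only [mem_union, mem_image, not_or, not_exists, not_and]
      refine ⟨hu x (mem_insert_self _ _), fun y hy => ?_, fun y hy => ?_⟩
      · exact (huv x (mem_insert_self _ _) y (mem_insert_of_mem hy) (fun e => hx (e ▸ hy))).1.symm
      · exact (huv x (mem_insert_self _ _) y (mem_insert_of_mem hy) (fun e => hx (e ▸ hy))).2.symm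

theorem Ext_down_iter {pos : V → Fin 4} {n : ℕ} (hn : ∀ q, cnt pos univ q = n)
    {ι : Type} [DecidableEq ι] (u v : ι → V) (S : Finset ι)
    (hp : ∀ x ∈ S, pos (v x) = pos (u x) + 2)
    (huv : ∀ x ∈ S, ∀ y ∈ S, x ≠ y → u x ≠ u y ∧ u x ≠ v y ∧ v x ≠ v y) :
    (TP pos univ).card ≤ n ^ S.card * (Ext pos (fun m => ∀ x ∈ S, m (u x) = v x)).card := by
  induction S using Finset.induction_on with
  | empty =>
    simp only [card_empty, pow_zero, one_mul]
    apply card_le_card
    intro m hm
    exact mem_Ext.mpr ⟨mem_TP.mp hm, by simp⟩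
  | insert x S hx ih =>
    rw [card_insert_of_notMem hx]
    refine le_trans (ih (fun y hy => hp y (mem_insert_of_mem hy))
      (fun y hy z hz => huv y (mem_insert_of_mem hy) z (mem_insert_of_mem hz))) ?_
    rw [pow_succ, mul_assoc]
    apply Nat.mul_le_mul_left
    have h0 : Loc pos ∅ (fun _ => True) := ⟨by simp, by simp⟩
    refine le_trans (Ext_congr (fun m _ hm => ⟨trivial, hm⟩))
      (le_trans (Ext_down hn (h0.add S u v) (u := u x) (v := v x) ?_ ?_
        (hp x (mem_insert_self _ _))) ?_)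
    · simp only [mem_union, mem_image, not_or, not_exists, not_and]
      refine ⟨by simp, fun y hy => ?_, fun y hy => ?_⟩
      · exact (huv x (mem_insert_self _ _) y (mem_insert_of_mem hy) (fun e => hx (e ▸ hy))).1.symm
      · exact (huv x (mem_insert_self _ _) y (mem_insert_of_mem hy)
          (fun e => hx (e ▸ hy))).2.1.symm
    · simp only [mem_union, mem_image, not_or, not_exists, not_and]
      refine ⟨by simp, fun y hy => ?_, fun y hy => ?_⟩
      · exact (huv y (mem_insert_of_mem hy) x (mem_insert_self _ _) (fun e => hx (e ▸ hy))).2.1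
      · exact (huv y (mem_insert_of_mem hy) x (mem_insert_self _ _) (fun e => hx (e ▸ hy))).2.2
    · apply Nat.mul_le_mul_left
      apply Ext_congr
      intro m _ hm y hy
      rcases mem_insert.mp hy with rfl | hy
      · exact hm.2
      · exact hm.1.2 y hy

/-- double counting -/
lemma sum_card_le_mul {ι α : Type} [DecidableEq α] (S : Finset ι) (F : ι → Finset α)
    (B : Finset α) (g : ℕ) (hF : ∀ i ∈ S, F i ⊆ B)
    (hg : ∀ m ∈ B, (S.filter (fun i => m ∈ F i)).card ≤ g) :
    ∑ i ∈ S, (F i).card ≤ g * B.card := by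
  calc ∑ i ∈ S, (F i).card = ∑ i ∈ S, ∑ m ∈ B, if m ∈ F i then 1 else 0 := by
        apply sum_congr rfl
        intro i hi
        rw [← card_filter, filter_mem_eq_inter, inter_eq_right.mpr (hF i hi)]
    _ = ∑ m ∈ B, (S.filter (fun i => m ∈ F i)).card := by
        rw [sum_comm]
        apply sum_congr rfl
        intro m _
        rw [card_filter]
    _ ≤ ∑ _m ∈ B, g := sum_le_sum hg
    _ = _ := by rw [sum_const, smul_eq_mul, mul_comm]

/-- weighted second moment inequality -/
theorem second_moment {ι α : Type} [DecidableEq α] (S : Finset ι) (w : ι → ℝ)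
    (hw : ∀ i ∈ S, 0 ≤ w i) (F : ι → Finset α) (H : Finset α) (hF : ∀ i ∈ S, F i ⊆ H) (Bd : ℝ)
    (hBd : 0 ≤ Bd)
    (h2 : ∀ i ∈ S, ∑ j ∈ S, w j * ((F i ∩ F j).card : ℝ) ≤ Bd * (F i).card) :
    ∑ i ∈ S, w i * ((F i).card : ℝ) ≤ Bd * H.card := by
  obtain ⟨W, hW⟩ : ∃ W : α → ℝ, W = fun m => ∑ i ∈ S, w i * (if m ∈ F i then 1 else 0) := ⟨_, rfl⟩
  have e1 : ∑ m ∈ H, W m = ∑ i ∈ S, w i * ((F i).card : ℝ) := by
    rw [hW, sum_comm]
    apply sum_congr rfl
    intro i hi
    rw [← mul_sum, sum_boole, filter_mem_eq_inter, inter_eq_right.mpr (hF i hi)]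
  have e2 : ∑ m ∈ H, W m ^ 2 = ∑ i ∈ S, w i * ∑ j ∈ S, w j * ((F i ∩ F j).card : ℝ) := by
    have : ∀ m, W m ^ 2 = ∑ i ∈ S, ∑ j ∈ S, w i * (w j * (if m ∈ F i ∩ F j then 1 else 0)) := by
      intro m
      rw [hW, sq, sum_mul_sum]
      apply sum_congr rfl
      intro i _
      apply sum_congr rfl
      intro j _
      by_cases a : m ∈ F i <;> by_cases b : m ∈ F j <;> simp [a, b]
    simp only [this]
    rw [sum_comm]
    apply sum_congr rfl
    intro i hi
    rw [sum_comm, mul_sum]
    apply sum_congr rfl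
    intro j _
    rw [← mul_sum, ← mul_sum, sum_boole, filter_mem_eq_inter,
      inter_eq_right.mpr (inter_subset_left.trans (hF i hi))]
  have e3 : ∑ m ∈ H, W m ^ 2 ≤ Bd * ∑ m ∈ H, W m := by
    rw [e2, e1, mul_sum]
    apply sum_le_sum
    intro i hi
    rw [mul_left_comm]
    exact mul_le_mul_of_nonneg_left (h2 i hi) (hw i hi)
  have e4 := sq_sum_le_card_mul_sum_sq (s := H) (f := W)
  rw [← e1]
  rcases le_or_gt (∑ m ∈ H, W m) 0 with h | h
  · exact h.trans (by positivity)
  · have : (∑ m ∈ H, W m) * (∑ m ∈ H, W m) ≤ (Bd * H.card) * ∑ m ∈ H, W m := by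
      have := mul_le_mul_of_nonneg_left e3 (Nat.cast_nonneg (α := ℝ) H.card)
      nlinarith
    exact le_of_mul_le_mul_right this h

/-- resampling a coordinate -/
theorem resample {Ω α : Type} [DecidableEq Ω] [DecidableEq α] (O : Finset Ω) (A : Finset α)
    (g : Ω → α) (upd : Ω → α → Ω) (hO : ∀ ω ∈ O, ∀ x ∈ A, upd ω x ∈ O) (hA : ∀ ω ∈ O, g ω ∈ A)
    (h1 : ∀ ω x, upd (upd ω x) (g ω) = ω) (h2 : ∀ ω x, g (upd ω x) = x) (Bad : Finset Ω)
    (hB : Bad ⊆ O) (c : ℕ) (hc : ∀ ω ∈ O, (A.filter (fun x => upd ω x ∈ Bad)).card ≤ c) :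
    Bad.card * A.card ≤ O.card * c := by
  calc Bad.card * A.card = (Bad ×ˢ A).card := (card_product _ _).symm
    _ ≤ (O.sigma (fun ω => A.filter (fun x => upd ω x ∈ Bad))).card := by
        apply card_le_card_of_injOn (fun p => ⟨upd p.1 p.2, g p.1⟩)
        · intro p hp
          simp only [coe_product, Set.mem_prod, mem_coe] at hp
          simp only [mem_coe, mem_sigma, mem_filter, h1]
          exact ⟨hO _ (hB hp.1) _ hp.2, hA _ (hB hp.1), hp.1⟩
        · intro p _ q _ e
          simp only [Sigma.mk.injEq, heq_eq_eq] at e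
          have a : p.1 = q.1 := by rw [← h1 p.1 p.2, e.1, e.2, h1]
          have b : p.2 = q.2 := by rw [← h2 p.1 p.2, e.1, h2]
          exact Prod.ext a b
    _ = ∑ ω ∈ O, (A.filter (fun x => upd ω x ∈ Bad)).card := card_sigma _ _
    _ ≤ ∑ _ω ∈ O, c := sum_le_sum hc
    _ = _ := by rw [sum_const, smul_eq_mul]

/-- resampling a coordinate of a product set -/
theorem resample_pi {ι α : Type} [Fintype ι] [DecidableEq ι] [DecidableEq α] (A : ι → Finset α)
    (i : ι) (Bad : Finset (ι → α)) (hB : Bad ⊆ Fintype.piFinset A) (c : ℕ)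
    (hc : ∀ f ∈ Fintype.piFinset A,
      ((A i).filter (fun x => Function.update f i x ∈ Bad)).card ≤ c) :
    Bad.card * (A i).card ≤ (Fintype.piFinset A).card * c := by
  refine resample _ (A i) (fun f => f i) (fun f x => Function.update f i x) ?_ ?_ ?_ ?_ Bad hB c hc
  · intro f hf x hx
    rw [Fintype.mem_piFinset] at hf ⊢
    intro j
    by_cases h : j = i
    · subst h; simpa using hx
    · simpa [h] using hf j
  · intro f hf
    exact Fintype.mem_piFinset.mp hf i
  · intro f x; simp
  · intro f x; simp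

end Pool.Agent.MP_755159_pr
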