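import Pool.Agent.MP_755159_pr.Pairing

/-! The combinatorial skeleton: special cuts, chains of cuts, generic cuts and their ends. -/

set_option linter.unusedSectionVars false

namespace Pool.Agent.MP_755159_pr

open Finset

/-- chain labels -/
abbrev Chn (R : ℕ) := Fin R × Bool
/-- cuts -/
abbrev Cut (R T k : ℕ) := Fin R ⊕ (Chn R × Fin (T + 1)) ⊕ Fin k
/-- ends of cuts -/
abbrev End (R T k : ℕ) := Cut R T k × Bool
/-- bits -/
abbrev Bits (R T : ℕ) := Chn R → Fin (T + 1) → Bool

variable {R T k : ℕ}

/-- special ends -/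
def se (i : Chn R) : End R T k := (Sum.inl i.1, i.2)
/-- incoming chain ends -/
def ye (b : Bits R T) (i : Chn R) (t : Fin (T + 1)) : End R T k := (Sum.inr (Sum.inl (i, t)), b i t)
/-- outgoing chain ends -/
def xo (b : Bits R T) (i : Chn R) (t : Fin (T + 1)) : End R T k :=
  (Sum.inr (Sum.inl (i, t)), !b i t)
/-- generic ends -/
def gn (g : Fin k) (c : Bool) : End R T k := (Sum.inr (Sum.inr g), c)
/-- the other end -/
def fl (e : End R T k) : End R T k := (e.1, !e.2)

/-- the chain pairing -/
def ch (b : Bits R T) : End R T k → End R T k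
  | (Sum.inl r, c) => ye b (r, c) 0
  | (Sum.inr (Sum.inl (i, t)), c) =>
      if c = b i t then Fin.cases (motive := fun _ => End R T k) (se i)
        (fun t' => xo b i t'.castSucc) t
      else Fin.lastCases (motive := fun _ => End R T k) (xo b i (Fin.last T))
        (fun t' => ye b i t'.succ) t
  | (Sum.inr (Sum.inr g), c) => gn g c

@[simp] lemma ch_se (b : Bits R T) (i : Chn R) : ch b (se i : End R T k) = ye b i 0 := rfl
@[simp] lemma ch_ye_zero (b : Bits R T) (i : Chn R) : ch b (ye b i 0 : End R T k) = se i := by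
  simp [ch, ye]
@[simp] lemma ch_ye_succ (b : Bits R T) (i : Chn R) (t : Fin T) :
    ch b (ye b i t.succ : End R T k) = xo b i t.castSucc := by
  simp [ch, ye]
@[simp] lemma ch_xo_castSucc (b : Bits R T) (i : Chn R) (t : Fin T) :
    ch b (xo b i t.castSucc : End R T k) = ye b i t.succ := by
  simp [ch, xo]
@[simp] lemma ch_xo_last (b : Bits R T) (i : Chn R) :
    ch b (xo b i (Fin.last T) : End R T k) = xo b i (Fin.last T) := by
  simp [ch, xo]
@[simp] lemma ch_gn (b : Bits R T) (g : Fin k) (c : Bool) :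
    ch b (gn g c : End R T k) = gn g c := rfl

@[simp] lemma fl_ye (b : Bits R T) (i : Chn R) (t : Fin (T + 1)) :
    fl (ye b i t : End R T k) = xo b i t := rfl
@[simp] lemma fl_xo (b : Bits R T) (i : Chn R) (t : Fin (T + 1)) :
    fl (xo b i t : End R T k) = ye b i t := by simp [fl, xo, ye]
@[simp] lemma fl_gn (g : Fin k) (c : Bool) : fl (gn g c : End R T k) = gn g (!c) := rfl
@[simp] lemma fl_fl (e : End R T k) : fl (fl e) = e := by simp [fl]
lemma fl_ne (e : End R T k) : fl e ≠ e := by
  intro h
  have := congrArg Prod.snd h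
  simp [fl] at this

lemma End.cases4 (b : Bits R T) (P : End R T k → Prop) (h1 : ∀ i, P (se i))
    (h2 : ∀ i t, P (ye b i t)) (h3 : ∀ i t, P (xo b i t)) (h4 : ∀ g c, P (gn g c)) : ∀ e, P e := by
  rintro ⟨r | ⟨i, t⟩ | g, c⟩
  · exact h1 (r, c)
  · by_cases h : c = b i t
    · subst h; exact h2 i t
    · have : c = !b i t := Bool.eq_not_iff.mpr h
      subst this; exact h3 i t
  · exact h4 g c

lemma End.cases6 (b : Bits R T) (P : End R T k → Prop) (h1 : ∀ i, P (se i))
    (h2 : ∀ i, P (ye b i 0)) (h2' : ∀ i (t : Fin T), P (ye b i t.succ))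
    (h3 : ∀ i (t : Fin T), P (xo b i t.castSucc)) (h3' : ∀ i, P (xo b i (Fin.last T)))
    (h4 : ∀ g c, P (gn g c)) : ∀ e, P e :=
  End.cases4 b P h1 (fun i t => Fin.cases (h2 i) (h2' i) t)
    (fun i t => Fin.lastCases (h3' i) (h3 i) t) h4

lemma ch_ch (b : Bits R T) (e : End R T k) : ch b (ch b e) = e := by
  induction e using End.cases6 b <;> simp

/-- the free ends -/
def XX (b : Bits R T) : Finset (End R T k) := univ.filter (fun e => ch b e = e)

lemma mem_XX {b : Bits R T} {e : End R T k} : e ∈ XX b ↔ ch b e = e := by simp [XX]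

lemma xo_last_mem (b : Bits R T) (i : Chn R) : (xo b i (Fin.last T) : End R T k) ∈ XX b := by
  simp [mem_XX]

lemma gn_mem (b : Bits R T) (g : Fin k) (c : Bool) : (gn g c : End R T k) ∈ XX b := by
  simp [mem_XX]

lemma se_notMem (b : Bits R T) (i : Chn R) : (se i : End R T k) ∉ XX b := by
  rw [mem_XX, ch_se]; simp [se, ye]

lemma ye_notMem (b : Bits R T) (i : Chn R) (t : Fin (T + 1)) : (ye b i t : End R T k) ∉ XX b := by
  rw [mem_XX]
  induction t using Fin.cases with
  | zero => rw [ch_ye_zero]; simp [se, ye]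
  | succ t => rw [ch_ye_succ]; simp [xo, ye, Fin.ext_iff]

lemma xo_castSucc_notMem (b : Bits R T) (i : Chn R) (t : Fin T) :
    (xo b i t.castSucc : End R T k) ∉ XX b := by
  rw [mem_XX, ch_xo_castSucc]; simp [xo, ye, Fin.ext_iff]

lemma mem_XX_cases {b : Bits R T} {e : End R T k} (h : e ∈ XX b) :
    (∃ i, e = xo b i (Fin.last T)) ∨ ∃ g c, e = gn g c := by
  induction e using End.cases6 b with
  | h1 i => exact absurd h (se_notMem b i)
  | h2 i => exact absurd h (ye_notMem b i _)
  | h2' i t => exact absurd h (ye_notMem b i _)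
  | h3 i t => exact absurd h (xo_castSucc_notMem b i _)
  | h3' i => exact Or.inl ⟨i, rfl⟩
  | h4 g c => exact Or.inr ⟨g, c, rfl⟩

/-- flips generic ends only -/
def kap : End R T k → End R T k
  | (Sum.inr (Sum.inr g), c) => gn g (!c)
  | e => e

@[simp] lemma kap_gn (g : Fin k) (c : Bool) : kap (gn g c : End R T k) = gn g (!c) := rfl
@[simp] lemma kap_xo (b : Bits R T) (i : Chn R) (t : Fin (T + 1)) :
    kap (xo b i t : End R T k) = xo b i t := rfl

lemma kap_inv (b : Bits R T) : Inv (XX b : Finset (End R T k)) kap := by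
  intro x hx
  rcases mem_XX_cases hx with ⟨i, rfl⟩ | ⟨g, c, rfl⟩
  · simp [xo_last_mem]
  · simp [gn_mem]

/-- the full pairing -/
def PP (b : Bits R T) (p : End R T k → End R T k) (e : End R T k) : End R T k := p (ch b e)

lemma PP_of_mem {b : Bits R T} (p : End R T k → End R T k) {e : End R T k} (h : e ∈ XX b) :
    PP b p e = p e := by rw [PP, mem_XX.mp h]

lemma ch_notMem {b : Bits R T} {e : End R T k} (h : e ∉ XX b) : ch b e ∉ XX b := by
  rw [mem_XX] at h ⊢
  rw [ch_ch]; exact fun e => h e.symm

lemma PP_of_notMem {b : Bits R T} {ty : End R T k → Fin 4} {p : End R T k → End R T k}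
    (hp : IsTP ty (XX b) p) {e : End R T k} (h : e ∉ XX b) : PP b p e = ch b e :=
  hp.1 _ (ch_notMem h)

lemma PP_isTP {b : Bits R T} {ty : End R T k → Fin 4} {p : End R T k → End R T k}
    (hp : IsTP ty (XX b) p) (hty : ∀ e, e ∉ XX b → ty (ch b e) = ty e + 2) :
    IsTP ty univ (PP b p) := by
  refine ⟨by simp, fun e _ => ⟨mem_univ _, ?_⟩⟩
  by_cases h : e ∈ XX b
  · obtain ⟨a1, a2, a3⟩ := hp.2 e h
    rw [PP_of_mem p h, PP_of_mem p a1]
    exact ⟨a2, a3⟩
  · rw [PP_of_notMem hp h, PP_of_notMem hp (ch_notMem h), ch_ch]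
    exact ⟨rfl, hty e h⟩

/-- every closed set reaches a special end -/
lemma full_acyc {b : Bits R T} {ty : End R T k → Fin 4} {p : End R T k → End R T k}
    (hp : IsTP ty (XX b) p) (ha : Acyc (XX b) kap p) (U : Finset (End R T k)) (hne : U.Nonempty)
    (h1 : ∀ e ∈ U, fl e ∈ U) (h2 : ∀ e ∈ U, PP b p e ∈ U) : ∃ i, se i ∈ U := by
  by_contra hcon
  push Not at hcon
  have hye : ∀ i t, ye b i t ∉ U := by
    intro i t
    induction t using Fin.induction with
    | zero =>
      intro h
      have := h2 _ h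
      rw [PP_of_notMem hp (ye_notMem b i _), ch_ye_zero] at this
      exact hcon i this
    | succ t ih =>
      intro h
      have := h1 _ (h2 _ h)
      rw [PP_of_notMem hp (ye_notMem b i _), ch_ye_succ, fl_xo] at this
      exact ih this
  have hxo : ∀ i t, xo b i t ∉ U := fun i t h => hye i t (by simpa using h1 _ h)
  have hgn : ∀ e ∈ U, ∃ g c, e = gn g c := by
    intro e
    induction e using End.cases4 b with
    | h1 i => exact fun h => absurd h (hcon i)
    | h2 i t => exact fun h => absurd h (hye i t)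
    | h3 i t => exact fun h => absurd h (hxo i t)
    | h4 g c => exact fun _ => ⟨g, c, rfl⟩
  have hUX : U ⊆ XX b := by
    intro e he
    obtain ⟨g, c, rfl⟩ := hgn e he
    exact gn_mem b g c
  obtain ⟨x, hx, hk⟩ := ha U hUX hne (by
      intro e he
      obtain ⟨g, c, rfl⟩ := hgn e he
      simpa using h1 _ he)
    (fun e he => PP_of_mem p (hUX he) ▸ h2 e he)
  obtain ⟨g, c, rfl⟩ := hgn x hx
  rw [kap_gn] at hk
  simp [gn] at hk

/-- offset of an end -/
def dl4 (c : Bool) : Fin 4 := if c then 1 else 0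

/-- type of an end -/
def tyE (τ : Cut R T k → Fin 4) (e : End R T k) : Fin 4 := τ e.1 + dl4 e.2

/-- admissible type assignments -/
structure Typed (b : Bits R T) (τ : Cut R T k → Fin 4) (E : ℕ) (r₀ : Fin R) (g₀ : Fin k) :
    Prop where
  sp : ∀ r, τ (Sum.inl r) = 0
  chn : ∀ e, e ∉ XX b → tyE τ (ch b e) = tyE τ e + 2
  count : ∀ q, cnt (tyE τ) (XX b) q = E
  odd : ∀ r, ¬ Ev (tyE τ (xo b (r, true) (Fin.last T)))
  face : Ev (tyE τ (gn g₀ (b (r₀, true) (Fin.last T))))

lemma exists_gen_types (k E : ℕ) (l : Fin 4 → ℕ) (h02 : l 0 + l 2 + k = 2 * E)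
    (h13 : l 1 + l 3 + k = 2 * E) (hl : ∀ q, l q < E) (g₀ : Fin k) (hg : g₀.val = 0) (c : Bool) :
    ∃ τ : Fin k → Fin 4, (∀ q, l q + (univ.filter
      (fun x : Fin k × Bool => τ x.1 + dl4 x.2 = q)).card = E) ∧ Ev (τ g₀ + dl4 c) := by
  have hc : ∀ x ≤ k, ∑ g : Fin k, (if g.val < x then 1 else 0) = x := by
    intro x hx
    rw [← card_filter, Fin.card_filter_val_lt]; omega
  have hc' : ∀ x ≤ k, ∑ g : Fin k, (if g.val < x then 0 else 1) + x = k := by
    intro x hx
    have : ∑ g : Fin k, (if g.val < x then 0 else 1) + ∑ g : Fin k, (if g.val < x then 1 else 0)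
        = k := by
      rw [← sum_add_distrib, sum_congr rfl (g := fun _ => 1)]
      · simp
      · intro g _; split_ifs <;> rfl
    rwa [hc x hx] at this
  have l0 := hl 0
  have l1 := hl 1
  have l2 := hl 2
  have l3 := hl 3
  have a0 := hc (E - l 0) (by omega)
  have a0' := hc' (E - l 0) (by omega)
  have a1 := hc (E - l 1) (by omega)
  have a1' := hc' (E - l 1) (by omega)
  have a3 := hc (E - l 3) (by omega)
  have a3' := hc' (E - l 3) (by omega)
  have q4 : ∀ q : Fin 4, q = 0 ∨ q = 1 ∨ q = 2 ∨ q = 3 := by decide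
  cases c
  · refine ⟨fun g => if g.val < E - l 0 then (if g.val < E - l 1 then 0 else 3)
      else (if g.val < E - l 1 then 1 else 2), fun q => ?_, ?_⟩
    · rw [card_filter, Fintype.sum_prod_type]
      simp only [Fintype.sum_bool]
      rcases q4 q with rfl | rfl | rfl | rfl
      · rw [sum_congr rfl (g := fun g : Fin k => if g.val < E - l 0 then 1 else 0)]
        · omega
        · intro g _; by_cases u : g.val < E - l 0 <;> by_cases v : g.val < E - l 1 <;>
            simp only [u, v, if_true, if_false] <;> decide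
      · rw [sum_congr rfl (g := fun g : Fin k => if g.val < E - l 1 then 1 else 0)]
        · omega
        · intro g _; by_cases u : g.val < E - l 0 <;> by_cases v : g.val < E - l 1 <;>
            simp only [u, v, if_true, if_false] <;> decide
      · rw [sum_congr rfl (g := fun g : Fin k => if g.val < E - l 0 then 0 else 1)]
        · omega
        · intro g _; by_cases u : g.val < E - l 0 <;> by_cases v : g.val < E - l 1 <;>
            simp only [u, v, if_true, if_false] <;> decide
      · rw [sum_congr rfl (g := fun g : Fin k => if g.val < E - l 1 then 0 else 1)]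
        · omega
        · intro g _; by_cases u : g.val < E - l 0 <;> by_cases v : g.val < E - l 1 <;>
            simp only [u, v, if_true, if_false] <;> decide
    · simp only [hg, show 0 < E - l 0 by omega, show 0 < E - l 1 by omega, if_true]
      decide
  · refine ⟨fun g => if g.val < E - l 0 then (if g.val < E - l 3 then 3 else 0)
      else (if g.val < E - l 3 then 2 else 1), fun q => ?_, ?_⟩
    · rw [card_filter, Fintype.sum_prod_type]
      simp only [Fintype.sum_bool]
      rcases q4 q with rfl | rfl | rfl | rfl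
      · rw [sum_congr rfl (g := fun g : Fin k => if g.val < E - l 0 then 1 else 0)]
        · omega
        · intro g _; by_cases u : g.val < E - l 0 <;> by_cases v : g.val < E - l 3 <;>
            simp only [u, v, if_true, if_false] <;> decide
      · rw [sum_congr rfl (g := fun g : Fin k => if g.val < E - l 3 then 0 else 1)]
        · omega
        · intro g _; by_cases u : g.val < E - l 0 <;> by_cases v : g.val < E - l 3 <;>
            simp only [u, v, if_true, if_false] <;> decide
      · rw [sum_congr rfl (g := fun g : Fin k => if g.val < E - l 0 then 0 else 1)]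
        · omega
        · intro g _; by_cases u : g.val < E - l 0 <;> by_cases v : g.val < E - l 3 <;>
            simp only [u, v, if_true, if_false] <;> decide
      · rw [sum_congr rfl (g := fun g : Fin k => if g.val < E - l 3 then 1 else 0)]
        · omega
        · intro g _; by_cases u : g.val < E - l 0 <;> by_cases v : g.val < E - l 3 <;>
            simp only [u, v, if_true, if_false] <;> decide
    · simp only [hg, show 0 < E - l 0 by omega, show 0 < E - l 3 by omega, if_true]
      decide

/-- types along a chain -/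
def xt (b : Bits R T) (i : Chn R) : ℕ → Fin 4
  | 0 => dl4 i.2
  | t + 1 => xt b i t + (if (if h : t < T + 1 then b i ⟨t, h⟩ else false) then 1 else 3)

lemma xt_par (b : Bits R T) (i : Chn R) (t : ℕ) : Ev (xt b i t) ↔ (i.2 = false ↔ Even t) := by
  induction t with
  | zero => obtain ⟨r, c⟩ := i; cases c <;> simp [xt, dl4, Ev]
  | succ t ih =>
    have h : ∀ (q : Fin 4) (c : Bool), Ev (q + if c then 1 else 3) ↔ ¬ Ev q := by decide
    rw [xt, h, ih, Nat.even_add_one]; tauto

theorem exists_typed (b : Bits R T) (E : ℕ) (hT : Even (T + 1)) (hE : R + k = 2 * E) (hR : R < E)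
    (r₀ : Fin R) (g₀ : Fin k) (hg : g₀.val = 0) :
    ∃ τ : Cut R T k → Fin 4, Typed b τ E r₀ g₀ := by
  obtain ⟨l, hl⟩ : ∃ l : Fin 4 → ℕ,
      l = fun q => (univ.filter (fun i : Chn R => xt b i (T + 1) = q)).card := ⟨_, rfl⟩
  have hpar : ∀ c : Bool, (univ.filter (fun i : Chn R => i.2 = c)).card = R := by
    intro c
    rw [card_filter, Fintype.sum_prod_type]
    cases c <;> simp
  have h02 : l 0 + l 2 = R := by
    refine Eq.trans ?_ (hpar false)
    rw [hl, ← card_union_of_disjoint (by
      rw [disjoint_filter]; intro i _ h; rw [h]; decide), ← filter_or]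
    congr 1
    apply filter_congr
    intro i _
    have := xt_par b i (T + 1)
    rw [Ev] at this
    tauto
  have h13 : l 1 + l 3 = R := by
    refine Eq.trans ?_ (hpar true)
    rw [hl, ← card_union_of_disjoint (by
      rw [disjoint_filter]; intro i _ h; rw [h]; decide), ← filter_or]
    congr 1
    apply filter_congr
    intro i _
    have := xt_par b i (T + 1)
    have q : ∀ q : Fin 4, q = 1 ∨ q = 3 ↔ ¬ Ev q := by decide
    rw [q, this]
    simp [hT]
  have hlt : ∀ q, l q < E := by
    intro q
    have q4 : ∀ q : Fin 4, q = 0 ∨ q = 1 ∨ q = 2 ∨ q = 3 := by decide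
    rcases q4 q with rfl | rfl | rfl | rfl <;> omega
  obtain ⟨τg, hτ, hface⟩ := exists_gen_types k E l (by omega) (by omega) hlt g₀ hg
    (b (r₀, true) (Fin.last T))
  obtain ⟨τ, hτd⟩ : ∃ τ : Cut R T k → Fin 4, τ = Sum.elim (fun _ => 0) (Sum.elim
    (fun x => xt b x.1 x.2.val + 2 - dl4 (b x.1 x.2)) τg) := ⟨_, rfl⟩
  have hse : ∀ i, tyE τ (se i) = xt b i 0 := by
    intro i; simp [hτd, tyE, se, xt]
  have hye : ∀ i t, tyE τ (ye b i t) = xt b i t.val + 2 := by
    intro i t; simp [hτd, tyE, ye]
  have hxo : ∀ i t, tyE τ (xo b i t) = xt b i (t.val + 1) := by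
    intro i t
    have h : ∀ (q : Fin 4) (c : Bool), q + 2 - dl4 c + dl4 (!c) = q + if c then 1 else 3 := by
      decide
    simp only [hτd, tyE, xo, Sum.elim_inr, Sum.elim_inl, xt, t.isLt, dif_pos, h]
  have hgn : ∀ g c, tyE τ (gn g c) = τg g + dl4 c := by
    intro g c; simp [hτd, tyE, gn]
  refine ⟨τ, by simp [hτd], ?_, ?_, ?_, by rw [hgn]; exact hface⟩
  · intro e
    induction e using End.cases6 b with
    | h1 i => intro _; rw [ch_se, hye, hse]; rfl
    | h2 i => intro _; rw [ch_ye_zero, hye, hse, add_two_two]; rfl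
    | h2' i t => intro _; rw [ch_ye_succ, hye, hxo, add_two_two]; rfl
    | h3 i t => intro _; rw [ch_xo_castSucc, hye, hxo]; rfl
    | h3' i => intro h; exact absurd (xo_last_mem b i) h
    | h4 g c => intro h; exact absurd (gn_mem b g c) h
  · intro q
    rw [← hτ q, hl, cnt]
    have : (XX b).filter (fun d => tyE τ d = q) =
        (univ.filter (fun i : Chn R => xt b i (T + 1) = q)).image (fun i => xo b i (Fin.last T)) ∪
        (univ.filter (fun x : Fin k × Bool => τg x.1 + dl4 x.2 = q)).image
          (fun x => gn x.1 x.2) := by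
      ext e
      simp only [mem_filter, mem_union, mem_image, mem_univ, true_and]
      constructor
      · rintro ⟨h, h'⟩
        rcases mem_XX_cases h with ⟨i, rfl⟩ | ⟨g, c, rfl⟩
        · exact Or.inl ⟨i, by rwa [hxo] at h', rfl⟩
        · exact Or.inr ⟨(g, c), by rwa [hgn] at h', rfl⟩
      · rintro (⟨i, h, rfl⟩ | ⟨x, h, rfl⟩)
        · exact ⟨xo_last_mem b i, by rwa [hxo]⟩
        · exact ⟨gn_mem b _ _, by rwa [hgn]⟩
    rw [this, card_union_of_disjoint, card_image_of_injective, card_image_of_injective]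
    · intro x y h
      simp only [gn, Prod.mk.injEq, Sum.inr.injEq] at h
      exact Prod.ext h.1 h.2
    · intro x y h
      simp only [xo, Prod.mk.injEq, Sum.inr.injEq, Sum.inl.injEq] at h
      exact h.1.1
    · rw [disjoint_left]
      intro e h1 h2
      obtain ⟨i, -, rfl⟩ := mem_image.mp h1
      obtain ⟨x, -, h⟩ := mem_image.mp h2
      simp [gn, xo] at h
  · intro r
    rw [hxo, xt_par]
    simp [hT]

end Pool.Agent.MP_755159_pr
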