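import Pool.Agent.MP_755159_pr.Sigma
import Pool.Agent.MP_755159_pr.Ext
import Pool.Agent.MP_755159_pr.Struct

/-! Placing the cuts on the cycles of a permutation. -/

set_option linter.unusedSectionVars false

namespace Pool.Agent.MP_755159_pr

open Finset

variable {V : Type} [Fintype V] [DecidableEq V] {R T k : ℕ}

/-- location of an end -/
def loc (s : Equiv.Perm V) (t : Cut R T k → V) (e : End R T k) : V :=
  if e.2 then s (t e.1) else t e.1

/-- a step in a direction -/
def aw (s : Equiv.Perm V) (c : Bool) : Equiv.Perm V := if c then s else s⁻¹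

/-- separated cuts -/
def Sep (s : Equiv.Perm V) (t : Cut R T k → V) : Prop :=
  ∀ j j', j ≠ j' → ∀ z : ℤ, |z| ≤ 2 → (s ^ z) (t j) ≠ t j'

/-- the matching realises the pairing -/
def Rl (s : Equiv.Perm V) (t : Cut R T k → V) (P : End R T k → End R T k) (m : V → V) : Prop :=
  ∀ e, m (loc s t e) = loc s t (P e)

/-- the cubic graph -/
def Gr (s : Equiv.Perm V) (m : V → V) : SimpleGraph V :=
  SimpleGraph.fromRel (fun u v => v = s u ∨ v = m u)

lemma loc_zpow (s : Equiv.Perm V) (t : Cut R T k → V) (e : End R T k) :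
    loc s t e = (s ^ (if e.2 then 1 else 0 : ℤ)) (t e.1) := by
  unfold loc; split_ifs <;> simp

lemma aw_zpow (s : Equiv.Perm V) (c : Bool) : aw s c = s ^ (if c then 1 else -1 : ℤ) := by
  unfold aw; split_ifs <;> simp

lemma zpow_app (s : Equiv.Perm V) (a b : ℤ) (v : V) : (s ^ a) ((s ^ b) v) = (s ^ (a + b)) v := by
  rw [zpow_add, Equiv.Perm.mul_apply]

lemma zpow_eq_iff (s : Equiv.Perm V) (a b : ℤ) (v w : V) :
    (s ^ a) v = (s ^ b) w ↔ (s ^ (a - b)) v = w := by
  constructor
  · intro h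
    have := congrArg (s ^ (-b)) h
    rw [zpow_app, zpow_app, neg_add_cancel, zpow_zero, Equiv.Perm.one_apply] at this
    rwa [sub_eq_neg_add]
  · rintro rfl
    rw [zpow_app, add_sub_cancel]

section
variable {pos : V → Fin 4} {s : Equiv.Perm V} (hs : ∀ v, pos (s v) = pos v + 1)
include hs

lemma pos_inv (v : V) : pos (s⁻¹ v) = pos v + 3 := by
  have := hs (s⁻¹ v)
  rw [show s (s⁻¹ v) = v by simp] at this
  rw [this]
  generalize pos (s⁻¹ v) = q
  revert q; decide

lemma pos_aw (c : Bool) (v : V) : pos (aw s c v) = pos v + if c then 1 else 3 := by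
  cases c
  · exact pos_inv hs v
  · exact hs v

lemma pos_loc {t : Cut R T k → V} {τ : Cut R T k → Fin 4} (ht : ∀ j, pos (t j) = τ j)
    (e : End R T k) : pos (loc s t e) = tyE τ e := by
  obtain ⟨j, c⟩ := e
  cases c <;> simp [loc, tyE, dl4, hs, ht]

lemma loc_inj {t : Cut R T k → V} (h : Sep s t) : Function.Injective (loc s t) := by
  rintro ⟨j, c⟩ ⟨j', c'⟩ e
  by_cases hj : j = j'
  · subst hj
    have := congrArg pos e
    have q : ∀ q : Fin 4, q ≠ q + 1 := by decide
    cases c <;> cases c' <;> simp only [loc, Bool.false_eq_true, if_true, if_false, hs] at this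
    · rfl
    · exact absurd this (q _)
    · exact absurd this.symm (q _)
    · rfl
  · rw [loc_zpow, loc_zpow, zpow_eq_iff] at e
    refine absurd e (h j j' hj _ ?_)
    cases c <;> cases c' <;> simp

lemma away_ne {t : Cut R T k → V} (h : Sep s t) (e e' : End R T k) :
    aw s e.2 (loc s t e) ≠ loc s t e' := by
  obtain ⟨j, c⟩ := e
  obtain ⟨j', c'⟩ := e'
  intro e
  by_cases hj : j = j'
  · subst hj
    have := congrArg pos e
    rw [pos_aw hs, pos_loc hs (τ := fun j => pos (t j)) (fun _ => rfl),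
      pos_loc hs (τ := fun j => pos (t j)) (fun _ => rfl)] at this
    simp only [tyE] at this
    have key : ∀ (q : Fin 4) (c c' : Bool), (q + dl4 c + if c then 1 else 3) ≠ q + dl4 c' := by
      decide
    exact key _ _ _ this
  · rw [loc_zpow, loc_zpow, aw_zpow, zpow_app, zpow_eq_iff] at e
    refine absurd e (h j j' hj _ ?_)
    cases c <;> cases c' <;> simp

end

lemma loc_fl (s : Equiv.Perm V) (t : Cut R T k → V) (e : End R T k) :
    loc s t (fl e) = aw s (!e.2) (loc s t e) := by
  obtain ⟨j, c⟩ := e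
  cases c <;> simp [loc, fl, aw]

/-- the dart of an end -/
def dl (s : Equiv.Perm V) (t : Cut R T k → V) (e : End R T k) : V × Bool := (loc s t e, e.2)

/-- edges of the original 2-factor -/
def etaF (s : Equiv.Perm V) (d : V × Bool) : V × Bool := (aw s (!d.2) d.1, !d.2)

/-- edges after rewiring -/
noncomputable def eta (s : Equiv.Perm V) (t : Cut R T k → V) (P : End R T k → End R T k) :
    V × Bool → V × Bool := Function.extend (dl s t) (fun e => dl s t (P e)) (etaF s)

lemma etaF_etaF (s : Equiv.Perm V) (d : V × Bool) : etaF s (etaF s d) = d := by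
  obtain ⟨v, c⟩ := d
  cases c <;> simp [etaF, aw]

lemma etaF_dl (s : Equiv.Perm V) (t : Cut R T k → V) (e : End R T k) :
    etaF s (dl s t e) = dl s t (fl e) := by
  simp only [etaF, dl, loc_fl]; rfl

lemma etaF_ne (s : Equiv.Perm V) (d : V × Bool) : etaF s d ≠ d := by
  intro h
  have := congrArg Prod.snd h
  simp [etaF] at this

lemma dl_inj {s : Equiv.Perm V} {t : Cut R T k → V} (h : Function.Injective (loc s t)) :
    Function.Injective (dl s t) := fun _ _ e => h (congrArg Prod.fst e)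

lemma eta_dl {s : Equiv.Perm V} {t : Cut R T k → V} (h : Function.Injective (loc s t))
    (P : End R T k → End R T k) (e : End R T k) : eta s t P (dl s t e) = dl s t (P e) :=
  (dl_inj h).extend_apply _ _ _

lemma eta_uncut {s : Equiv.Perm V} {t : Cut R T k → V} (P : End R T k → End R T k) {d : V × Bool}
    (h : ¬ ∃ e, dl s t e = d) : eta s t P d = etaF s d := Function.extend_apply' _ _ _ h

lemma eta_eta {s : Equiv.Perm V} {t : Cut R T k → V} (h : Function.Injective (loc s t))
    {P : End R T k → End R T k} (hP : ∀ e, P (P e) = e) (d : V × Bool) :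
    eta s t P (eta s t P d) = d := by
  by_cases hd : ∃ e, dl s t e = d
  · obtain ⟨e, rfl⟩ := hd
    rw [eta_dl h, eta_dl h, hP]
  · rw [eta_uncut P hd, eta_uncut, etaF_etaF]
    rintro ⟨e, he⟩
    apply hd
    exact ⟨fl e, by rw [← etaF_dl, he, etaF_etaF]⟩

/-- the first cut met when walking away from an end -/
def First (s : Equiv.Perm V) (t : Cut R T k → V) (e e' : End R T k) : Prop :=
  ∃ i : ℕ, (aw s e.2 ^ i) (loc s t e) = loc s t e' ∧ e'.2 = !e.2 ∧
    ∀ l < i, ∀ e'' : End R T k, e''.2 = !e.2 → (aw s e.2 ^ l) (loc s t e) ≠ loc s t e''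

lemma First.mem {s : Equiv.Perm V} {t : Cut R T k → V} {e e' : End R T k} (h : First s t e e')
    (P : End R T k → End R T k) (U : Finset (V × Bool)) (h1 : ∀ d ∈ U, (d.1, !d.2) ∈ U)
    (h2 : ∀ d ∈ U, eta s t P d ∈ U) (he : dl s t e ∈ U) : dl s t e' ∈ U := by
  obtain ⟨i, a, b, c⟩ := h
  have key : ∀ l ≤ i, ((aw s e.2 ^ l) (loc s t e), !e.2) ∈ U := by
    intro l hl
    induction l with
    | zero => simpa [dl] using h1 _ he
    | succ l ih =>
      have := h1 _ (h2 _ (ih (by omega)))
      rw [eta_uncut] at this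
      · simpa [etaF, pow_succ'] using this
      · rintro ⟨e'', h⟩
        simp only [dl, Prod.mk.injEq] at h
        exact c l (by omega) e'' h.2 h.1.symm
  have := key i le_rfl
  rwa [a, ← b] at this

theorem exists_sX {pos : V → Fin 4} {s : Equiv.Perm V} (hs : ∀ v, pos (s v) = pos v + 1)
    {t : Cut R T k → V} (hsep : Sep s t)
    (hsp : ∀ W : Finset V, W.Nonempty → (∀ v ∈ W, s v ∈ W) → ∃ r, t (Sum.inl r) ∈ W)
    (b : Bits R T) (ty : End R T k → Fin 4)
    (h1 : ∀ i t', ∃ g c, First s t (ye b i t') (gn g c))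
    {x y : End R T k} (hx : x ∈ XX b) (hy : y ∈ XX b) (hxy : First s t x y) (hx' : ¬ Ev (ty x))
    (hy' : Ev (ty y)) :
    ∃ sX : End R T k → End R T k, Inv (XX b) sX ∧ (∀ e ∈ XX b, sX e ≠ e) ∧
      (∃ e ∈ XX b, Ev (ty e) ∧ ¬ Ev (ty (sX e))) ∧
      ∀ p, IsTP ty (XX b) p → Conn (XX b) sX p → ∀ U : Finset (V × Bool), U.Nonempty →
        (∀ d ∈ U, (d.1, !d.2) ∈ U) → (∀ d ∈ U, eta s t (PP b p) d ∈ U) → ∀ d, d ∈ U := by
  have hinj := loc_inj hs hsep
  have hinv := eta_eta hinj (ch_ch b)
  obtain ⟨σ, s1, s2, s3⟩ := exists_sigma (eta s t (ch b)) _ univ (fun d : V × Bool => (d.1, !d.2))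
    rfl (by intro d _; simp) (by intro d _ h; simpa using congrArg Prod.snd h)
    (fun d _ => ⟨mem_univ _, hinv d⟩)
  have hfix : ∀ d, eta s t (ch b) d = d → ∃ e ∈ XX b, dl s t e = d := by
    intro d h
    by_cases hd : ∃ e, dl s t e = d
    · obtain ⟨e, rfl⟩ := hd
      rw [eta_dl hinj] at h
      exact ⟨e, mem_XX.mpr (dl_inj hinj h), rfl⟩
    · rw [eta_uncut _ hd] at h
      exact absurd h (etaF_ne s d)
  have hfix' : ∀ e ∈ XX b, eta s t (ch b) (dl s t e) = dl s t e := by
    intro e he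
    rw [eta_dl hinj, mem_XX.mp he]
  have hex : ∀ e : End R T k, ∃ e', e ∈ XX b → e' ∈ XX b ∧ dl s t e' = σ (dl s t e) := by
    intro e
    by_cases he : e ∈ XX b
    · obtain ⟨e', a, b⟩ := hfix _ (s1 _ (mem_univ _) (hfix' e he)).2.1
      exact ⟨e', fun _ => ⟨a, b⟩⟩
    · exact ⟨e, fun h => absurd h he⟩
  choose sX hsX using hex
  have hacyc : ∀ U : Finset (V × Bool), U.Nonempty → (∀ d ∈ U, (d.1, !d.2) ∈ U) →
      (∀ d ∈ U, eta s t (ch b) d ∈ U) → ∃ e ∈ XX b, dl s t e ∈ U := by
    intro U hne a c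
    have hboth : ∀ v q q', (v, q) ∈ U → (v, q') ∈ U := by
      intro v q q' h
      by_cases hq : q' = q
      · rwa [hq]
      · rw [Bool.eq_not_iff.mpr hq]; exact a _ h
    have hcut : ∃ e, dl s t e ∈ U := by
      by_contra hcon
      push Not at hcon
      obtain ⟨r, hr⟩ := hsp (U.image Prod.fst) (hne.image _) (by
        intro v hv
        obtain ⟨d, hd, rfl⟩ := mem_image.mp hv
        have := c _ (hboth d.1 d.2 false hd)
        rw [eta_uncut _ (by rintro ⟨e, he⟩; exact hcon e (he ▸ hboth d.1 d.2 false hd))] at this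
        exact mem_image.mpr ⟨_, this, rfl⟩)
      obtain ⟨d, hd, h⟩ := mem_image.mp hr
      apply hcon (se (r, false))
      have := hboth d.1 d.2 false hd
      rwa [h] at this
    have hye : ∀ i t', dl s t (ye b i t') ∈ U → ∃ e ∈ XX b, dl s t e ∈ U := by
      intro i t' h
      obtain ⟨g, q, hf⟩ := h1 i t'
      exact ⟨_, gn_mem b g q, hf.mem _ U a c h⟩
    obtain ⟨e, he⟩ := hcut
    induction e using End.cases6 b with
    | h1 i => exact hye i 0 (by simpa [eta_dl hinj] using c _ he)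
    | h2 i => exact hye i _ he
    | h2' i t' => exact hye i _ he
    | h3 i t' => exact hye i t'.succ (by simpa [eta_dl hinj] using c _ he)
    | h3' i => exact ⟨_, xo_last_mem b i, he⟩
    | h4 g q => exact ⟨_, gn_mem b g q, he⟩
  have hsXinv : Inv (XX b) sX := by
    intro e he
    obtain ⟨a, c⟩ := hsX e he
    refine ⟨a, dl_inj hinj ?_⟩
    rw [(hsX _ a).2, c, (s1 _ (mem_univ _) (hfix' e he)).2.2.1]
  refine ⟨sX, hsXinv, ?_, ⟨y, hy, hy', ?_⟩, ?_⟩
  · intro e he h
    apply (s1 _ (mem_univ _) (hfix' e he)).2.2.2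
    rw [← (hsX e he).2, h]
  · obtain ⟨U, -, a, c, d, f⟩ := s3 _ (mem_univ _) (hfix' x hx)
    rcases f _ (hxy.mem _ U a c d) (hfix' y hy) with h | h
    · rw [dl_inj hinj h] at hy'
      exact absurd hy' hx'
    · rw [← (hsX x hx).2] at h
      rw [dl_inj hinj h, (hsXinv x hx).2]
      exact hx'
  · intro p hp hconn U hne a c
    have c' : ∀ d ∈ U, eta s t (ch b) d ∈ U := by
      intro d hd
      by_cases hd' : ∃ e, dl s t e = d
      · obtain ⟨e, rfl⟩ := hd'
        by_cases he : e ∈ XX b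
        · rwa [hfix' e he]
        · have := c _ hd
          rw [eta_dl hinj, PP_of_notMem hp he] at this
          rwa [eta_dl hinj]
      · have := c _ hd
        rw [eta_uncut _ hd'] at this ⊢
        exact this
    have hall := hconn ((XX b).filter (fun e => dl s t e ∈ U)) (filter_subset _ _)
      (by obtain ⟨e, h1, h2⟩ := hacyc U hne a c'; exact ⟨e, mem_filter.mpr ⟨h1, h2⟩⟩)
      (by
        intro e he
        rw [mem_filter] at he ⊢
        refine ⟨(hsX e he.1).1, ?_⟩
        rw [(hsX e he.1).2]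
        exact s2 U (subset_univ _) a c' _ he.2 (hfix' e he.1))
      (by
        intro e he
        rw [mem_filter] at he ⊢
        refine ⟨(hp.2 e he.1).1, ?_⟩
        have := c _ he.2
        rwa [eta_dl hinj, PP_of_mem p he.1] at this)
    by_contra hcon
    push Not at hcon
    obtain ⟨d, hd⟩ := hcon
    obtain ⟨e, h1, h2⟩ := hacyc Uᶜ ⟨d, mem_compl.mpr hd⟩
      (by
        intro d hd
        rw [mem_compl] at hd ⊢
        intro h
        exact hd (by simpa using a _ h))
      (by
        intro d hd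
        rw [mem_compl] at hd ⊢
        intro h
        exact hd (by simpa [hinv] using c' _ h))
    exact mem_compl.mp h2 (mem_filter.mp (hall h1)).2

theorem ham_of_conn {pos : V → Fin 4} {s : Equiv.Perm V} (hs : ∀ v, pos (s v) = pos v + 1)
    [Nonempty V] {t : Cut R T k → V} (hsep : Sep s t) {P : End R T k → End R T k}
    (hP : ∀ e, P (P e) = e) {m : V → V} (hm : IsTP pos univ m) (hr : Rl s t P m)
    (hconn : ∀ U : Finset (V × Bool), U.Nonempty →
        (∀ d ∈ U, (d.1, !d.2) ∈ U) → (∀ d ∈ U, eta s t P d ∈ U) → ∀ d, d ∈ U) :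
    (Gr s m).IsHamiltonian := by
  have hinj := loc_inj hs hsep
  have hcase : ∀ d : V × Bool, ((∃ e, dl s t e = d) ∧ (eta s t P d).1 = m d.1) ∨
      (eta s t P d).1 = aw s (!d.2) d.1 := by
    intro d
    by_cases hd : ∃ e, dl s t e = d
    · left
      refine ⟨hd, ?_⟩
      obtain ⟨e, rfl⟩ := hd
      rw [eta_dl hinj]
      exact (hr e).symm
    · right
      rw [eta_uncut _ hd]; rfl
  apply ham_of_darts (Gr s m) (eta s t P) (eta_eta hinj hP) _ _ hconn
  · intro d
    rw [Gr, SimpleGraph.fromRel_adj]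
    rcases hcase d with ⟨-, h⟩ | h <;> rw [h]
    · exact ⟨ne_of_ty (hm.pos_eq _), Or.inl (Or.inr rfl)⟩
    · constructor
      · intro e
        have := congrArg pos e
        rw [pos_aw hs] at this
        revert this
        generalize pos d.1 = q
        generalize (!d.2) = c
        revert q c; decide
      · cases d.2
        · exact Or.inl (Or.inl rfl)
        · exact Or.inr (Or.inl (by simp [aw]))
  · intro v e
    have hp := congrArg pos e
    rcases hcase (v, true) with ⟨⟨e1, a⟩, h⟩ | h <;> rcases hcase (v, false) with ⟨⟨e2, c⟩, h'⟩ | h'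
    · simp only [dl, Prod.mk.injEq] at a c
      have := hinj (a.1.trans c.1.symm)
      rw [this, c.2] at a
      simp at a
    all_goals
      rw [h, h'] at hp
      simp only [pos_aw hs, hm.pos_eq] at hp
      revert hp
      generalize pos v = q
      revert q; decide

open Classical in
/-- good pairings for a placement -/
noncomputable def GoodP (pos : V → Fin 4) (s : Equiv.Perm V) (b : Bits R T)
    (τ : Cut R T k → Fin 4) (t : Cut R T k → V) : Finset (End R T k → End R T k) :=
  (TP (tyE τ) (XX b)).filter (fun p => Acyc (XX b) kap p ∧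
    ∀ m, IsTP pos univ m → Rl s t (PP b p) m → (Gr s m).IsHamiltonian)

lemma mem_GoodP {pos : V → Fin 4} {s : Equiv.Perm V} {b : Bits R T}
    {τ : Cut R T k → Fin 4} {t : Cut R T k → V} {p : End R T k → End R T k} :
    p ∈ GoodP pos s b τ t ↔ IsTP (tyE τ) (XX b) p ∧ Acyc (XX b) kap p ∧
      ∀ m, IsTP pos univ m → Rl s t (PP b p) m → (Gr s m).IsHamiltonian := by
  simp only [GoodP, mem_filter, mem_TP]

theorem card_GoodP {pos : V → Fin 4} {s : Equiv.Perm V} (hs : ∀ v, pos (s v) = pos v + 1)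
    {t : Cut R T k → V} (hsep : Sep s t)
    (hsp : ∀ W : Finset V, W.Nonempty → (∀ v ∈ W, s v ∈ W) → ∃ r, t (Sum.inl r) ∈ W)
    {b : Bits R T} {τ : Cut R T k → Fin 4} {E : ℕ} {r₀ : Fin R} {g₀ : Fin k}
    (hτ : Typed b τ (E + 1) r₀ g₀) (hR : 4 ≤ R)
    (h1 : ∀ i t', ∃ g c, First s t (ye b i t') (gn g c))
    (h2 : First s t (xo b (r₀, true) (Fin.last T)) (gn g₀ (b (r₀, true) (Fin.last T)))) :
    E.factorial * (E - 1).factorial ≤ (GoodP pos s b τ t).card := by
  obtain ⟨sX, a1, a2, a3, a4⟩ := exists_sX hs hsep hsp b (tyE τ) h1 (xo_last_mem b _)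
    (gn_mem b _ _) h2 (hτ.odd r₀) hτ.face
  have : Nonempty V := ⟨t (Sum.inl r₀)⟩
  refine le_trans (even_phase (tyE τ) E (E + 1) (XX b) sX kap a1 a2 (kap_inv b) (hτ.count 0)
    (hτ.count 2) (hτ.count 1) (hτ.count 3) (Or.inr a3) ?_ ?_) (card_le_card ?_)
  · intro x hx hev
    rcases mem_XX_cases hx with ⟨i, rfl⟩ | ⟨g, c, rfl⟩
    · exact Or.inl rfl
    · right
      have key : ∀ (q : Fin 4) (c : Bool), Ev (q + dl4 c) → ¬ Ev (q + dl4 (!c)) := by decide
      exact key _ _ hev
  · refine hR.trans ?_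
    conv_lhs => rw [← Fintype.card_fin R, ← card_univ]
    apply card_le_card_of_injOn (fun r => xo b (r, true) (Fin.last T))
    · intro r _
      simp only [coe_filter, Set.mem_ofPred_eq]
      exact ⟨xo_last_mem b _, rfl, hτ.odd r⟩
    · intro r _ r' _ h
      simp only [xo, Prod.mk.injEq, Sum.inr.injEq, Sum.inl.injEq] at h
      exact h.1.1.1
  · intro p hp
    rw [mem_GP] at hp
    rw [mem_GoodP]
    refine ⟨hp.1, hp.2.2, fun m hm hr => ?_⟩
    exact ham_of_conn hs hsep (fun e => ((PP_isTP hp.1 hτ.chn).2 e (mem_univ _)).2.1) hm hr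
      (a4 p hp.1 hp.2.1)

end Pool.Agent.MP_755159_pr
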