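import Pool.Agent.MP_755159_pr.Params

/-! Permutations with many cycles are rare; transfer to random lifts of the complete graph on four
vertices. -/

set_option linter.unusedSectionVars false

namespace Pool.Agent.MP_755159_pr

open Finset Filter Topology

/-- a small set meets every cycle -/
def HasHit {n : ℕ} (a : ℕ) (φ : Equiv.Perm (Fin n)) : Prop :=
  ∃ S : Finset (Fin n), S.card ≤ a ∧
    ∀ W : Finset (Fin n), W.Nonempty → (∀ x ∈ W, φ x ∈ W) → ∃ x ∈ S, x ∈ W

lemma sum_inv (n : ℕ) : ∑ φ : Equiv.Perm (Fin n),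
    (univ.filter (fun f : Fin n → Bool => f ∘ φ = f)).card = (n + 1) * n.factorial := by
  have h1 : ∑ φ : Equiv.Perm (Fin n), (univ.filter (fun f : Fin n → Bool => f ∘ φ = f)).card =
      ∑ f : Fin n → Bool, (univ.filter (fun φ : Equiv.Perm (Fin n) => f ∘ φ = f)).card := by
    simp only [card_filter]
    exact sum_comm
  have h2 : ∀ f : Fin n → Bool, (univ.filter (fun φ : Equiv.Perm (Fin n) => f ∘ φ = f)).card =
      (univ.filter (fun x => f x = true)).card.factorial *
        (n - (univ.filter (fun x => f x = true)).card).factorial := by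
    intro f
    rw [← Fintype.card_subtype, DomMulAct.stabilizer_card f, Fintype.prod_bool,
      Fintype.card_subtype, Fintype.card_subtype]
    congr 2
    have := card_filter_add_card_filter_not (s := (univ : Finset (Fin n))) (fun x => f x = true)
    simp only [Bool.not_eq_true, card_univ, Fintype.card_fin] at this
    omega
  rw [h1, sum_congr rfl (fun f _ => h2 f)]
  have h3 : ∑ f : Fin n → Bool, (univ.filter (fun x => f x = true)).card.factorial *
        (n - (univ.filter (fun x => f x = true)).card).factorial =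
      ∑ S ∈ (univ : Finset (Fin n)).powerset, S.card.factorial * (n - S.card).factorial := by
    apply sum_bij (fun f _ => univ.filter (fun x => f x = true))
    · intro f _; simp
    · intro f _ g _ h
      funext x
      have := congrArg (fun S => x ∈ S) h
      simpa using this
    · intro S _
      exact ⟨fun x => decide (x ∈ S), mem_univ _, by ext x; simp⟩
    · intro f _; rfl
  rw [h3, sum_powerset_apply_card (fun j => j.factorial * (n - j).factorial), card_univ,
    Fintype.card_fin, sum_congr rfl (g := fun _ => n.factorial)]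
  · simp
  · intro j hj
    rw [smul_eq_mul, ← mul_assoc]
    exact Nat.choose_mul_factorial_mul_factorial (Nat.lt_succ_iff.mp (mem_range.mp hj))

open Classical in
lemma card_noHit (n a : ℕ) :
    (univ.filter (fun φ : Equiv.Perm (Fin n) => ¬ HasHit a φ)).card * 2 ^ a ≤
      (n + 1) * n.factorial := by
  rw [← sum_inv, ← smul_eq_mul, ← sum_const]
  refine le_trans (sum_le_sum ?_) (sum_le_sum_of_subset (subset_univ _))
  intro φ hφ
  have hφ := (mem_filter.mp hφ).2
  have hq : a ≤ Fintype.card (Quotient (Equiv.Perm.SameCycle.setoid φ)) := by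
    by_contra hc
    apply hφ
    refine ⟨univ.image (fun q : Quotient (Equiv.Perm.SameCycle.setoid φ) => q.out),
      card_image_le.trans (not_le.mp hc).le, ?_⟩
    rintro W ⟨x, hx⟩ hW
    refine ⟨(Quotient.mk (Equiv.Perm.SameCycle.setoid φ) x).out, mem_image_of_mem _ (mem_univ _),
      ?_⟩
    have h : φ.SameCycle x (Quotient.mk (Equiv.Perm.SameCycle.setoid φ) x).out :=
      (Quotient.mk_out (s := Equiv.Perm.SameCycle.setoid φ) x).symm
    obtain ⟨i, -, hi⟩ := h.exists_pow_eq'
    rw [← hi]
    clear hi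
    induction i with
    | zero => exact hx
    | succ i ih => rw [pow_succ', Equiv.Perm.mul_apply]; exact hW _ ih
  refine (Nat.pow_le_pow_right (by omega) hq).trans ?_
  rw [← Fintype.card_bool, ← Fintype.card_fun, ← card_univ]
  apply card_le_card_of_injOn (fun h x => h (Quotient.mk (Equiv.Perm.SameCycle.setoid φ) x))
  · intro h _
    simp only [coe_filter, mem_univ, true_and, Set.mem_ofPred_eq]
    funext x
    simp only [Function.comp]
    congr 1
    exact Quotient.sound (Equiv.Perm.sameCycle_apply_left.mpr (Equiv.Perm.SameCycle.refl φ x))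
  · intro h _ h' _ e
    funext q
    induction q using Quotient.inductionOn with
    | h x => exact congrFun e x

/-- edges of the base graph -/
abbrev Ed := {p : Fin 4 × Fin 4 // p.1 < p.2}

/-- the edge 01 -/
def e01 : Ed := ⟨(0, 1), by decide⟩
/-- the edge 02 -/
def e02 : Ed := ⟨(0, 2), by decide⟩
/-- the edge 03 -/
def e03 : Ed := ⟨(0, 3), by decide⟩
/-- the edge 12 -/
def e12 : Ed := ⟨(1, 2), by decide⟩
/-- the edge 13 -/
def e13 : Ed := ⟨(1, 3), by decide⟩
/-- the edge 23 -/
def e23 : Ed := ⟨(2, 3), by decide⟩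

variable {n : ℕ}

/-- the lift of the 4-cycle -/
def sOf (σ : Ed → Equiv.Perm (Fin n)) : Equiv.Perm (Fin 4 × Fin n) :=
  (Equiv.prodCongrRight ![σ e01, σ e12, σ e23, (σ e03)⁻¹]).trans
    (Equiv.prodCongr (Equiv.addRight 1) (Equiv.refl _))

lemma sOf_apply (σ : Ed → Equiv.Perm (Fin n)) (q : Fin 4) (x : Fin n) :
    sOf σ (q, x) = (q + 1, ![σ e01, σ e12, σ e23, (σ e03)⁻¹] q x) := rfl

/-- the lift of the perfect matching -/
def mOf (u : Equiv.Perm (Fin n) × Equiv.Perm (Fin n)) (v : Fin 4 × Fin n) : Fin 4 × Fin n :=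
  (v.1 + 2, ![u.1, u.2, u.1⁻¹, u.2⁻¹] v.1 v.2)

/-- the lift -/
def Lf (σ : Ed → Equiv.Perm (Fin n)) : SimpleGraph (Fin 4 × Fin n) :=
  SimpleGraph.fromRel (fun u v => ∃ h : u.1 < v.1, σ ⟨(u.1, v.1), h⟩ u.2 = v.2)

lemma Gr_le (σ : Ed → Equiv.Perm (Fin n)) : Gr (sOf σ) (mOf (σ e02, σ e13)) ≤ Lf σ := by
  have key : ∀ u v : Fin 4 × Fin n, v = sOf σ u ∨ v = mOf (σ e02, σ e13) u →
      (∃ h : u.1 < v.1, σ ⟨(u.1, v.1), h⟩ u.2 = v.2) ∨
      (∃ h : v.1 < u.1, σ ⟨(v.1, u.1), h⟩ v.2 = u.2) := by
    rintro ⟨q, x⟩ v (rfl | rfl) <;> fin_cases q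
    · exact Or.inl ⟨e01.2, rfl⟩
    · exact Or.inl ⟨e12.2, rfl⟩
    · exact Or.inl ⟨e23.2, rfl⟩
    · exact Or.inr ⟨e03.2, (σ e03).apply_symm_apply x⟩
    · exact Or.inl ⟨e02.2, rfl⟩
    · exact Or.inl ⟨e13.2, rfl⟩
    · exact Or.inr ⟨e02.2, (σ e02).apply_symm_apply x⟩
    · exact Or.inr ⟨e13.2, (σ e13).apply_symm_apply x⟩
  intro u v h
  rw [Gr, SimpleGraph.fromRel_adj] at h
  rw [Lf, SimpleGraph.fromRel_adj]
  refine ⟨h.1, ?_⟩
  rcases h.2 with h | h
  · exact key u v h
  · exact (key v u h).symm

lemma mOf_isTP (u : Equiv.Perm (Fin n) × Equiv.Perm (Fin n)) : IsTP Prod.fst univ (mOf u) := by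
  refine ⟨by simp, ?_⟩
  rintro ⟨q, x⟩ _
  refine ⟨mem_univ _, ?_, rfl⟩
  fin_cases q <;> simp [mOf]

lemma mOf_inj : Function.Injective (mOf (n := n)) := by
  intro u v h
  refine Prod.ext (Equiv.ext fun x => ?_) (Equiv.ext fun x => ?_)
  · exact congrArg Prod.snd (congrFun h (0, x))
  · exact congrArg Prod.snd (congrFun h (1, x))

/-- the monodromy of the 4-cycle -/
def phi (σ : Ed → Equiv.Perm (Fin n)) : Equiv.Perm (Fin n) := (σ e03)⁻¹ * σ e23 * σ e12 * σ e01

lemma exists_sp {a : ℕ} (ha : a ≤ n) {σ : Ed → Equiv.Perm (Fin n)} (h : HasHit a (phi σ)) :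
    ∃ sp : Fin a → Fin 4 × Fin n, (∀ r, (sp r).1 = 0) ∧ Function.Injective sp ∧
      ∀ W : Finset (Fin 4 × Fin n), W.Nonempty → (∀ v ∈ W, sOf σ v ∈ W) → ∃ r, sp r ∈ W := by
  obtain ⟨S, hS, hW⟩ := h
  obtain ⟨S', hsub, hc⟩ := exists_superset_card_eq hS (by simpa using ha)
  refine ⟨fun r => (0, S'.orderEmbOfFin hc r), fun _ => rfl, fun r r' e =>
    (S'.orderEmbOfFin hc).injective (congrArg Prod.snd e), ?_⟩
  rintro W ⟨⟨q, x⟩, hv⟩ hcl
  have s0 : ∀ x, (0, x) ∈ W → (1, σ e01 x) ∈ W := fun x h => hcl _ h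
  have s1 : ∀ x, (1, x) ∈ W → (2, σ e12 x) ∈ W := fun x h => hcl _ h
  have s2 : ∀ x, (2, x) ∈ W → (3, σ e23 x) ∈ W := fun x h => hcl _ h
  have s3 : ∀ x, (3, x) ∈ W → (0, (σ e03)⁻¹ x) ∈ W := fun x h => by
    have := hcl _ h
    rwa [sOf_apply, show (3 : Fin 4) + 1 = 0 from rfl] at this
  obtain ⟨y, hy, hy'⟩ := hW (univ.filter (fun y => (0, y) ∈ W)) (by
      fin_cases q
      · exact ⟨_, mem_filter.mpr ⟨mem_univ _, hv⟩⟩
      · exact ⟨_, mem_filter.mpr ⟨mem_univ _, s3 _ (s2 _ (s1 _ hv))⟩⟩
      · exact ⟨_, mem_filter.mpr ⟨mem_univ _, s3 _ (s2 _ hv)⟩⟩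
      · exact ⟨_, mem_filter.mpr ⟨mem_univ _, s3 _ hv⟩⟩) (by
      intro y hy
      rw [mem_filter] at hy ⊢
      exact ⟨mem_univ _, s3 _ (s2 _ (s1 _ (s0 _ hy.2)))⟩)
  have : y ∈ Set.range (S'.orderEmbOfFin hc) := by
    rw [range_orderEmbOfFin]; exact hsub hy
  obtain ⟨r, rfl⟩ := this
  exact ⟨r, (mem_filter.mp hy').2⟩

open Classical in
lemma bad1_le (a : ℕ) :
    (univ.filter (fun σ : Ed → Equiv.Perm (Fin n) => ¬ HasHit a (phi σ))).card * n.factorial ≤
      Fintype.card (Ed → Equiv.Perm (Fin n)) *
        (univ.filter (fun φ : Equiv.Perm (Fin n) => ¬ HasHit a φ)).card := by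
  have b1 := resample_pi (fun _ : Ed => (univ : Finset (Equiv.Perm (Fin n)))) e01
    (univ.filter (fun σ => ¬ HasHit a (phi σ))) (by simp)
    (univ.filter (fun φ : Equiv.Perm (Fin n) => ¬ HasHit a φ)).card (by
      intro σ _
      apply card_le_card_of_injOn (fun x => (σ e03)⁻¹ * σ e23 * σ e12 * x)
      · intro x hx
        simp only [coe_filter, mem_filter, mem_univ, true_and, Set.mem_ofPred_eq, phi] at hx ⊢
        rwa [Function.update_self, Function.update_of_ne (by decide),
          Function.update_of_ne (by decide), Function.update_of_ne (by decide)] at hx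
      · intro x _ y _ e
        exact mul_left_cancel e)
  simpa only [Fintype.piFinset_univ, card_univ, Fintype.card_perm, Fintype.card_fin] using b1

open Classical in
lemma bad2_le {a : ℕ} (ha : 200 ≤ a) (h1 : a ^ 100 ≤ n) (h2 : n < (a + 1) ^ 100) :
    (univ.filter (fun σ : Ed → Equiv.Perm (Fin n) =>
        HasHit a (phi σ) ∧ ¬ (Lf σ).IsHamiltonian)).card * (n.factorial * n.factorial) ≤
      Fintype.card (Ed → Equiv.Perm (Fin n)) *
        ⌊4 * (1 / a : ℝ) * (n.factorial * n.factorial)⌋₊ := by
  have b2 := resample (univ : Finset (Ed → Equiv.Perm (Fin n))) univ (fun σ => (σ e02, σ e13))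
    (fun σ u => Function.update (Function.update σ e02 u.1) e13 u.2) (by simp) (by simp)
    (by
      intro σ u
      funext e
      by_cases c1 : e = e13
      · rw [c1, Function.update_self]
      · by_cases c2 : e = e02
        · rw [Function.update_of_ne c1, c2, Function.update_self]
        · simp only [Function.update_of_ne c1, Function.update_of_ne c2])
    (by
      intro σ u
      simp only [Function.update_self]
      rw [Function.update_of_ne (by decide), Function.update_self])
    (univ.filter (fun σ => HasHit a (phi σ) ∧ ¬ (Lf σ).IsHamiltonian)) (subset_univ _)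
    ⌊4 * (1 / a : ℝ) * (n.factorial * n.factorial)⌋₊ (by
      intro σ _
      by_cases hh : HasHit a (phi σ)
      · obtain ⟨sp, s1, s2, s3⟩ := exists_sp
          ((Nat.le_self_pow (by omega) a).trans h1) hh
        apply Nat.le_floor
        refine le_trans ?_ (few_bad (pos := Prod.fst) (n := n) (s := sOf σ) ?_ (fun _ => rfl)
          s1 s2 s3 ha h1 h2)
        · rw [Nat.cast_le]
          apply card_le_card_of_injOn mOf _ mOf_inj.injOn
          intro u hu
          simp only [coe_filter, mem_filter, mem_univ, true_and, Set.mem_ofPred_eq] at hu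
          refine mem_coe.mpr (mem_Ext.mpr ⟨mOf_isTP u, fun hH => hu.2 ?_⟩)
          refine SimpleGraph.IsHamiltonian.mono ?_ hH
          convert Gr_le (Function.update (Function.update σ e02 u.1) e13 u.2) using 2
          · simp only [sOf]
            simp only [Function.update_of_ne (show e01 ≠ e13 by decide),
              Function.update_of_ne (show e01 ≠ e02 by decide),
              Function.update_of_ne (show e12 ≠ e13 by decide),
              Function.update_of_ne (show e12 ≠ e02 by decide),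
              Function.update_of_ne (show e23 ≠ e13 by decide),
              Function.update_of_ne (show e23 ≠ e02 by decide),
              Function.update_of_ne (show e03 ≠ e13 by decide),
              Function.update_of_ne (show e03 ≠ e02 by decide)]
          · rw [Function.update_self, Function.update_of_ne (by decide), Function.update_self]
        · intro q
          rw [cnt, card_filter, Fintype.sum_prod_type]
          simp [apply_ite Finset.card]
      · rw [filter_eq_empty_iff.mpr, card_empty]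
        · exact Nat.zero_le _
        · intro u _ hu
          apply hh
          have := (mem_filter.mp hu).2.1
          simp only [phi, Function.update_of_ne (show e01 ≠ e13 by decide),
              Function.update_of_ne (show e01 ≠ e02 by decide),
              Function.update_of_ne (show e12 ≠ e13 by decide),
              Function.update_of_ne (show e12 ≠ e02 by decide),
              Function.update_of_ne (show e23 ≠ e13 by decide),
              Function.update_of_ne (show e23 ≠ e02 by decide),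
              Function.update_of_ne (show e03 ≠ e13 by decide),
              Function.update_of_ne (show e03 ≠ e02 by decide)] at this
          exact this)
  simpa only [card_univ, Fintype.card_perm, Fintype.card_fin, Fintype.card_prod] using b2

lemma nonham_aux {x x1 x2 N F y : ℕ} {a u w : ℝ} (hF : 0 < F) (hu : 0 ≤ u) (hw : 0 < w)
    (b4 : x ≤ x2 + x1) (b1 : x1 * F ≤ N * y) (b2 : x2 * (F * F) ≤ N * ⌊u * (F * F)⌋₊)
    (b3 : (y : ℝ) * w ≤ a * F) : (x : ℝ) ≤ (u + a / w) * N := by
  have hF : (0 : ℝ) < F := by exact_mod_cast hF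
  rw [add_mul]
  have b4' : (x : ℝ) ≤ x2 + x1 := by exact_mod_cast b4
  refine le_trans b4' (add_le_add ?_ ?_)
  · apply le_of_mul_le_mul_right _ (mul_pos hF hF)
    have b2' : (x2 : ℝ) * (F * F) ≤ N * ⌊u * (F * F)⌋₊ := by exact_mod_cast b2
    refine le_trans b2' ?_
    rw [mul_right_comm, mul_comm]
    apply mul_le_mul_of_nonneg_right _ (by positivity)
    exact Nat.floor_le (by positivity)
  · apply le_of_mul_le_mul_right _ hF
    have b1' : (x1 : ℝ) * F ≤ N * y := by exact_mod_cast b1
    refine le_trans b1' ?_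
    rw [mul_right_comm, mul_comm]
    apply mul_le_mul_of_nonneg_right _ (by positivity)
    rwa [div_mul_eq_mul_div, le_div_iff₀ hw]

lemma filter_split {α : Type} [Fintype α] (p q : α → Prop) [DecidablePred p]
    [DecidablePred (fun x => q x ∧ p x)] [DecidablePred (fun x => ¬ q x)] :
    (univ.filter p).card ≤ (univ.filter (fun x => q x ∧ p x)).card +
      (univ.filter (fun x => ¬ q x)).card := by
  classical
  refine le_trans (card_le_card ?_) (card_union_le _ _)
  intro σ hσ
  simp only [mem_union, mem_filter, mem_univ, true_and] at hσ ⊢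
  tauto

open Classical in
theorem nonham_le {a : ℕ} (ha : 200 ≤ a) (h1 : a ^ 100 ≤ n) (h2 : n < (a + 1) ^ 100) :
    ((univ.filter (fun σ : Ed → Equiv.Perm (Fin n) => ¬ (Lf σ).IsHamiltonian)).card : ℝ) ≤
      (4 * (1 / a) + (a + 1) ^ 100 / 2 ^ a) * Fintype.card (Ed → Equiv.Perm (Fin n)) := by
  refine nonham_aux (Nat.factorial_pos n) (by positivity) (by positivity) ?_ (bad1_le a)
    (bad2_le ha h1 h2) ?_
  · exact filter_split (fun σ => ¬ (Lf σ).IsHamiltonian) (fun σ => HasHit a (phi σ))
  · exact_mod_cast (card_noHit n a).trans (Nat.mul_le_mul_right _ h2)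

theorem lift_ham : Tendsto (fun n : ℕ =>
    (({σ : Ed → Equiv.Perm (Fin n) | (Lf σ).IsHamiltonian}.ncard : ℕ) : ℝ) /
      Fintype.card (Ed → Equiv.Perm (Fin n))) atTop (𝓝 1) := by
  classical
  have hroot : Tendsto (fun n : ℕ => Nat.nthRoot 100 n) atTop atTop := by
    rw [tendsto_atTop_atTop]
    intro b
    exact ⟨b ^ 100, fun n hn => (Nat.le_nthRoot_iff (by omega)).mpr hn⟩
  have hf : Tendsto (fun a : ℕ => 1 - (4 * (1 / (a : ℝ)) + (a + 1) ^ 100 / 2 ^ a)) atTop
      (𝓝 1) := by
    have t1 := tendsto_one_div_atTop_nhds_zero_nat (𝕜 := ℝ)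
    have t2 := (tendsto_pow_const_div_const_pow_of_one_lt 100 (r := 2) (by norm_num)).comp
      (tendsto_add_atTop_nat 1)
    have t3 := (((t1.const_mul 4).add (t2.const_mul 2)).const_sub 1)
    simp only [mul_zero, add_zero, sub_zero] at t3
    refine t3.congr (fun a => ?_)
    simp only [Function.comp]
    push_cast
    ring
  refine tendsto_of_tendsto_of_tendsto_of_le_of_le' (hf.comp hroot) tendsto_const_nhds ?_ ?_
  · filter_upwards [hroot.eventually_ge_atTop 200] with n hn
    have hc : (0 : ℝ) < Fintype.card (Ed → Equiv.Perm (Fin n)) := by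
      exact_mod_cast Fintype.card_pos
    have := nonham_le hn (Nat.pow_nthRoot_le_iff.mpr (Or.inl (by omega)))
      (Nat.lt_pow_nthRoot_add_one (by omega) n)
    have h := card_filter_add_card_filter_not (s := univ)
      (fun σ : Ed → Equiv.Perm (Fin n) => (Lf σ).IsHamiltonian)
    rw [card_univ] at h
    have h' : (((univ.filter (fun σ : Ed → Equiv.Perm (Fin n) => (Lf σ).IsHamiltonian)).card : ℝ) +
        (univ.filter (fun σ : Ed → Equiv.Perm (Fin n) => ¬ (Lf σ).IsHamiltonian)).card) =
        Fintype.card (Ed → Equiv.Perm (Fin n)) := by exact_mod_cast h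
    rw [Function.comp, le_div_iff₀ hc, Set.ncard_eq_toFinset_card', Set.toFinset_ofPred, sub_mul]
    linarith
  · filter_upwards with n
    have hc : (0 : ℝ) < Fintype.card (Ed → Equiv.Perm (Fin n)) := by
      exact_mod_cast Fintype.card_pos
    rw [div_le_one hc, Set.ncard_eq_toFinset_card', Nat.cast_le]
    exact card_le_univ _

end Pool.Agent.MP_755159_pr
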