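import Mathlib

/-! Typed pairings of a finite set, and a lower bound for the number of pairings that are
connected with respect to one involution and acyclic with respect to another. -/

set_option linter.unusedSectionVars false

namespace Pool.Agent.MP_755159_pr

open Finset

variable {D : Type} [Fintype D] [DecidableEq D]

/-- pairings of `X` joining type `q` with type `q + 2` -/
def IsTP (ty : D → Fin 4) (X : Finset D) (p : D → D) : Prop :=
  (∀ d, d ∉ X → p d = d) ∧ ∀ d ∈ X, p d ∈ X ∧ p (p d) = d ∧ ty (p d) = ty d + 2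

open Classical in
/-- the set of typed pairings -/
noncomputable def TP (ty : D → Fin 4) (X : Finset D) : Finset (D → D) := univ.filter (IsTP ty X)

lemma mem_TP {ty : D → Fin 4} {X : Finset D} {p : D → D} : p ∈ TP ty X ↔ IsTP ty X p := by
  simp only [TP, mem_filter, mem_univ, true_and]

/-- number of elements of a type -/
def cnt (ty : D → Fin 4) (X : Finset D) (q : Fin 4) : ℕ := (X.filter (fun d => ty d = q)).card

/-- add a pair -/
def ins (e e' : D) (p : D → D) : D → D := fun d => if d = e then e' else if d = e' then e else p d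

/-- remove two points -/
def rem (X : Finset D) (e e' : D) : Finset D := (X.erase e).erase e'

@[simp] lemma mem_rem {X : Finset D} {e e' x : D} : x ∈ rem X e e' ↔ x ∈ X ∧ x ≠ e ∧ x ≠ e' := by
  simp only [rem, mem_erase]; tauto

lemma card_rem {X : Finset D} {e e' : D} (he : e ∈ X) (he' : e' ∈ X) (h : e ≠ e') :
    (rem X e e').card + 2 = X.card := by
  have h1 : e' ∈ X.erase e := mem_erase.mpr ⟨h.symm, he'⟩
  have h2 := card_erase_add_one h1
  have h3 := card_erase_add_one he
  unfold rem; omega

lemma cnt_rem {ty : D → Fin 4} {X : Finset D} {e e' : D} (he : e ∈ X) (he' : e' ∈ X) (h : e ≠ e')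
    (q : Fin 4) : cnt ty (rem X e e') q + ((if ty e = q then 1 else 0) +
      (if ty e' = q then 1 else 0)) = cnt ty X q := by
  have h1 : e' ∈ X.erase e := mem_erase.mpr ⟨h.symm, he'⟩
  unfold cnt rem
  simp only [card_filter]
  rw [← add_sum_erase X _ he, ← add_sum_erase (X.erase e) _ h1]
  omega

lemma ne_of_ty {ty : D → Fin 4} {e e' : D} (h : ty e' = ty e + 2) : e ≠ e' := by
  rintro rfl
  revert h
  generalize ty e = q
  revert q; decide

lemma add_two_two (q : Fin 4) : q + 2 + 2 = q := by revert q; decide

lemma IsTP.ins {ty : D → Fin 4} {X : Finset D} {e e' : D} (he : e ∈ X) (he' : e' ∈ X)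
    (h : ty e' = ty e + 2) {p : D → D} (hp : IsTP ty (rem X e e') p) : IsTP ty X (ins e e' p) := by
  have hne := ne_of_ty h
  constructor
  · intro d hd
    have h1 : d ≠ e := fun h => hd (h ▸ he)
    have h2 : d ≠ e' := fun h => hd (h ▸ he')
    simp only [MP_755159_pr.ins, h1, h2, if_false]
    exact hp.1 d (by simp [hd])
  · intro d hd
    by_cases h1 : d = e
    · subst h1; simp [MP_755159_pr.ins, he', hne.symm, h]
    · by_cases h2 : d = e'
      · subst h2; simp [MP_755159_pr.ins, he, h1, h, add_two_two]
      · obtain ⟨a, b, c⟩ := hp.2 d (by simp [hd, h1, h2])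
        rw [mem_rem] at a
        simp [MP_755159_pr.ins, h1, h2, a, b, c]

theorem card_TP_le (ty : D → Fin 4) (N : ℕ) : ∀ X : Finset D, X.card = N →
    (TP ty X).card ≤ (cnt ty X 2).factorial * (cnt ty X 3).factorial := by
  induction N using Nat.strong_induction_on with
  | _ N ih =>
    intro X hX
    have key : ∀ e ∈ X, (TP ty X).card ≤ ∑ e' ∈ X.filter (fun d => ty d = ty e + 2),
        (cnt ty (rem X e e') 2).factorial * (cnt ty (rem X e e') 3).factorial := by
      intro e he
      rw [card_eq_sum_card_fiberwise (f := fun p => p e)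
        (t := X.filter (fun d => ty d = ty e + 2))]
      · apply sum_le_sum
        intro e' he'
        rw [mem_filter] at he'
        have hne := ne_of_ty he'.2
        refine le_trans ?_ (ih _ (by have := card_rem he he'.1 hne; omega) (rem X e e') rfl)
        apply card_le_card_of_injOn (fun p d => if d = e ∨ d = e' then d else p d)
        · intro p hp
          simp only [coe_filter, Set.mem_ofPred_eq, mem_TP] at hp
          obtain ⟨hp, hpe⟩ := hp
          have hpe' : p e' = e := by rw [← hpe]; exact (hp.2 e he).2.1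
          simp only [mem_coe, mem_TP]
          constructor
          · intro d hd
            by_cases h : d = e ∨ d = e'
            · simp [h]
            · simp only [h, if_false]
              apply hp.1; intro hdX; apply hd; rw [mem_rem]; tauto
          · intro d hd
            rw [mem_rem] at hd
            obtain ⟨a, b, c⟩ := hp.2 d hd.1
            have h1 : p d ≠ e := fun h => hd.2.2 (by rw [← b, h, hpe])
            have h2 : p d ≠ e' := fun h => hd.2.1 (by rw [← b, h, hpe'])
            simp [hd.2.1, hd.2.2, h1, h2, a, b, c]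
        · intro p hp p' hp' h
          simp only [coe_filter, Set.mem_ofPred_eq, mem_TP] at hp hp'
          funext d
          by_cases h1 : d = e
          · rw [h1, hp.2, hp'.2]
          · by_cases h2 : d = e'
            · rw [h2]
              have a : p e' = e := by rw [← hp.2]; exact (hp.1.2 e he).2.1
              have b : p' e' = e := by rw [← hp'.2]; exact (hp'.1.2 e he).2.1
              rw [a, b]
            · simpa [h1, h2] using congrFun h d
      · intro p hp
        simp only [mem_coe, mem_TP] at hp
        simp only [coe_filter, Set.mem_ofPred_eq]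
        exact ⟨(hp.2 e he).1, (hp.2 e he).2.2⟩
    by_cases h0 : ∃ e ∈ X, ty e = 0
    · obtain ⟨e, he, hty⟩ := h0
      refine (key e he).trans ?_
      rw [sum_congr rfl (g := fun _ => (cnt ty X 2 - 1).factorial * (cnt ty X 3).factorial)]
      · rw [sum_const, smul_eq_mul, ← mul_assoc]
        apply Nat.mul_le_mul_right
        have : (X.filter (fun d => ty d = ty e + 2)).card = cnt ty X 2 := by rw [hty]; rfl
        rw [this]
        rcases Nat.eq_zero_or_pos (cnt ty X 2) with h | h
        · simp [h]
        · exact (Nat.mul_factorial_pred h.ne').le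
      · intro e' he'
        rw [mem_filter] at he'
        have h2 := cnt_rem (ty := ty) he he'.1 (ne_of_ty he'.2) 2
        have h3 := cnt_rem (ty := ty) he he'.1 (ne_of_ty he'.2) 3
        rw [he'.2, hty] at h2 h3
        simp at h2 h3
        rw [← h2, h3]; simp
    · by_cases h1 : ∃ e ∈ X, ty e = 1
      · obtain ⟨e, he, hty⟩ := h1
        refine (key e he).trans ?_
        rw [sum_congr rfl (g := fun _ => (cnt ty X 2).factorial * (cnt ty X 3 - 1).factorial)]
        · rw [sum_const, smul_eq_mul, mul_left_comm]
          apply Nat.mul_le_mul_left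
          have : (X.filter (fun d => ty d = ty e + 2)).card = cnt ty X 3 := by rw [hty]; rfl
          rw [this]
          rcases Nat.eq_zero_or_pos (cnt ty X 3) with h | h
          · simp [h]
          · exact (Nat.mul_factorial_pred h.ne').le
        · intro e' he'
          rw [mem_filter] at he'
          have h2 := cnt_rem (ty := ty) he he'.1 (ne_of_ty he'.2) 2
          have h3 := cnt_rem (ty := ty) he he'.1 (ne_of_ty he'.2) 3
          rw [he'.2, hty] at h2 h3
          simp at h2 h3
          rw [← h3, h2]; simp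
      · refine le_trans ?_ (Nat.mul_pos (Nat.factorial_pos _) (Nat.factorial_pos _))
        rw [card_le_one]
        have hid : ∀ p ∈ TP ty X, p = id := by
          intro p hp
          rw [mem_TP] at hp
          funext d
          apply hp.1
          intro hd
          obtain ⟨a, -, c⟩ := hp.2 d hd
          have q : ∀ q : Fin 4, q = 0 ∨ q = 1 ∨ q + 2 = 0 ∨ q + 2 = 1 := by decide
          rcases q (ty d) with h | h | h | h
          · exact h0 ⟨d, hd, h⟩
          · exact h1 ⟨d, hd, h⟩
          · exact h0 ⟨_, a, c.trans h⟩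
          · exact h1 ⟨_, a, c.trans h⟩
        intro p hp p' hp'
        rw [hid p hp, hid p' hp']

/-- involutions of `X` -/
def Inv (X : Finset D) (t : D → D) : Prop := ∀ x ∈ X, t x ∈ X ∧ t (t x) = x

/-- contraction of an involution along a new pair -/
def ctr (t : D → D) (e e' : D) : D → D := fun x =>
  if t x = e then (if t e' = e' then x else t e')
  else if t x = e' then (if t e = e then x else t e) else t x

lemma ctr_of_ne {t : D → D} {e e' x : D} (h1 : t x ≠ e) (h2 : t x ≠ e') : ctr t e e' x = t x := by
  simp [ctr, h1, h2]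

lemma ctr_left {t : D → D} {e e' x : D} (h1 : t x = e) (h2 : t e' ≠ e') : ctr t e e' x = t e' := by
  simp [ctr, h1, h2]

lemma ctr_left' {t : D → D} {e e' x : D} (h1 : t x = e) (h2 : t e' = e') : ctr t e e' x = x := by
  simp [ctr, h1, h2]

lemma ctr_right {t : D → D} {e e' x : D} (hne : e ≠ e') (h1 : t x = e') (h2 : t e ≠ e) :
    ctr t e e' x = t e := by
  simp [ctr, h1, h2, hne.symm]

lemma Inv.ctr {X : Finset D} {t : D → D} (h : Inv X t) {e e' : D} (he : e ∈ X) (he' : e' ∈ X)
    (hne : e ≠ e') (ht : t e ≠ e') : Inv (rem X e e') (ctr t e e') := by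
  intro x hx
  rw [mem_rem] at hx
  obtain ⟨hx, hxe, hxe'⟩ := hx
  obtain ⟨a1, a2⟩ := h x hx
  obtain ⟨b1, b2⟩ := h e he
  obtain ⟨c1, c2⟩ := h e' he'
  simp only [MP_755159_pr.ctr, mem_rem]
  grind

lemma ctr_closed {X U : Finset D} {t : D → D} (h : Inv X t) {e e' : D} (he : e ∈ X) (he' : e' ∈ X)
    (ht : t e ≠ e') (hUX : U ⊆ X) (hU : ∀ x ∈ U, t x ∈ U) (hee : e ∈ U ↔ e' ∈ U) :
    ∀ x ∈ rem U e e', ctr t e e' x ∈ rem U e e' := by
  intro x hx
  rw [mem_rem] at hx
  obtain ⟨hx, hxe, hxe'⟩ := hx
  obtain ⟨a1, a2⟩ := h x (hUX hx)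
  obtain ⟨b1, b2⟩ := h e he
  obtain ⟨c1, c2⟩ := h e' he'
  have d1 := hU x hx
  have d2 := hU e
  have d3 := hU e'
  simp only [MP_755159_pr.ctr, mem_rem]
  grind

/-- connectedness of the union of two involutions -/
def Conn (X : Finset D) (s p : D → D) : Prop :=
  ∀ U ⊆ X, U.Nonempty → (∀ x ∈ U, s x ∈ U) → (∀ x ∈ U, p x ∈ U) → X ⊆ U

/-- every closed set contains a free end -/
def Acyc (X : Finset D) (k p : D → D) : Prop :=
  ∀ U ⊆ X, U.Nonempty → (∀ x ∈ U, k x ∈ U) → (∀ x ∈ U, p x ∈ U) → ∃ x ∈ U, k x = x

open Classical in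
/-- good pairings -/
noncomputable def GP (ty : D → Fin 4) (X : Finset D) (s k : D → D) : Finset (D → D) :=
  (TP ty X).filter (fun p => Conn X s p ∧ Acyc X k p)

lemma mem_GP {ty : D → Fin 4} {X : Finset D} {s k p : D → D} :
    p ∈ GP ty X s k ↔ IsTP ty X p ∧ Conn X s p ∧ Acyc X k p := by
  simp only [GP, mem_filter, mem_TP]

lemma ins_mem_GP {ty : D → Fin 4} {X : Finset D} {s k p : D → D} (hs : Inv X s)
    (hs' : ∀ x ∈ X, s x ≠ x) (hk : Inv X k) {e e' : D} (he : e ∈ X) (he' : e' ∈ X)
    (h : ty e' = ty e + 2) (h1 : s e ≠ e') (h2 : k e ≠ e')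
    (hp : p ∈ GP ty (rem X e e') (ctr s e e') (ctr k e e')) : ins e e' p ∈ GP ty X s k := by
  rw [mem_GP] at hp ⊢
  obtain ⟨hp, hc, ha⟩ := hp
  have hne := ne_of_ty h
  have hee : ∀ U : Finset D, (∀ x ∈ U, ins e e' p x ∈ U) → (e ∈ U ↔ e' ∈ U) := by
    intro U hU
    constructor
    · intro h; simpa [ins] using hU e h
    · intro h; simpa [ins, hne.symm] using hU e' h
  have hpc : ∀ U ⊆ X, (∀ x ∈ U, ins e e' p x ∈ U) → ∀ x ∈ rem U e e', p x ∈ rem U e e' := by
    intro U hUX hU x hx
    rw [mem_rem] at hx
    have a := hU x hx.1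
    simp only [ins, hx.2.1, hx.2.2, if_false] at a
    have b := (hp.2 x (mem_rem.mpr ⟨hUX hx.1, hx.2⟩)).1
    rw [mem_rem] at b ⊢
    exact ⟨a, b.2⟩
  have hsub : ∀ U ⊆ X, rem U e e' ⊆ rem X e e' := by
    intro U hUX x hx
    rw [mem_rem] at hx ⊢
    exact ⟨hUX hx.1, hx.2⟩
  refine ⟨hp.ins he he' h, ?_, ?_⟩
  · intro U hUX hne' hsU hpU
    have hiff := hee U hpU
    have hse : s e ∈ rem X e e' := mem_rem.mpr ⟨(hs e he).1, hs' e he, h1⟩
    have hU' : (rem U e e').Nonempty := by
      obtain ⟨x, hx⟩ := hne'
      by_cases hxe : x = e ∨ x = e'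
      · have heU : e ∈ U := by
          rcases hxe with rfl | rfl
          · exact hx
          · exact hiff.mpr hx
        exact ⟨s e, mem_rem.mpr ⟨hsU e heU, (mem_rem.mp hse).2⟩⟩
      · exact ⟨x, mem_rem.mpr ⟨hx, by tauto⟩⟩
    have hall := hc _ (hsub U hUX) hU' (ctr_closed hs he he' h1 hUX hsU hiff) (hpc U hUX hpU)
    have heU : e ∈ U := by
      have := hsU _ (mem_rem.mp (hall hse)).1
      rwa [(hs e he).2] at this
    intro x hx
    by_cases hxe : x = e
    · exact hxe ▸ heU
    · by_cases hxe' : x = e'
      · exact hxe' ▸ hiff.mp heU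
      · exact (mem_rem.mp (hall (mem_rem.mpr ⟨hx, hxe, hxe'⟩))).1
  · intro U hUX hne' hkU hpU
    have hiff := hee U hpU
    by_cases hU' : (rem U e e').Nonempty
    · obtain ⟨x, hx, hfix⟩ := ha _ (hsub U hUX) hU' (ctr_closed hk he he' h2 hUX hkU hiff)
        (hpc U hUX hpU)
      rw [mem_rem] at hx
      have a := hkU x hx.1
      obtain ⟨a1, a2⟩ := hk x (hUX hx.1)
      obtain ⟨b1, b2⟩ := hk e he
      obtain ⟨c1, c2⟩ := hk e' he'
      simp only [ctr] at hfix
      by_cases q1 : k x = e
      · refine ⟨e', hiff.mp (q1 ▸ a), ?_⟩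
        grind
      · by_cases q2 : k x = e'
        · refine ⟨e, hiff.mpr (q2 ▸ a), ?_⟩
          grind
        · refine ⟨x, hx.1, ?_⟩
          grind
    · obtain ⟨x, hx⟩ := hne'
      have heU : e ∈ U := by
        by_contra hcon
        apply hU'
        exact ⟨x, mem_rem.mpr ⟨hx, fun h => hcon (h ▸ hx), fun h => hcon (hiff.mpr (h ▸ hx))⟩⟩
      refine ⟨e, heU, ?_⟩
      by_contra hcon
      exact hU' ⟨k e, mem_rem.mpr ⟨hkU e heU, hcon, h2⟩⟩

lemma GP_step {ty : D → Fin 4} {X : Finset D} {s k : D → D} (hs : Inv X s)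
    (hs' : ∀ x ∈ X, s x ≠ x) (hk : Inv X k) {e : D} (he : e ∈ X) (Ch : Finset D) (N : ℕ)
    (hCh : ∀ e' ∈ Ch, e' ∈ X ∧ ty e' = ty e + 2 ∧ s e ≠ e' ∧ k e ≠ e' ∧
      N ≤ (GP ty (rem X e e') (ctr s e e') (ctr k e e')).card) :
    Ch.card * N ≤ (GP ty X s k).card := by
  calc Ch.card * N = ∑ _e' ∈ Ch, N := by rw [sum_const, smul_eq_mul]
    _ ≤ ∑ e' ∈ Ch, ((GP ty X s k).filter (fun p => p e = e')).card := by
        apply sum_le_sum
        intro e' he'
        obtain ⟨a, b, c, d, f⟩ := hCh e' he'
        refine f.trans (card_le_card_of_injOn (ins e e') ?_ ?_)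
        · intro p hp
          simp only [coe_filter, Set.mem_ofPred_eq]
          exact ⟨ins_mem_GP hs hs' hk he a b c d hp, by simp [ins]⟩
        · intro p hp p' hp' h
          simp only [mem_coe, mem_GP] at hp hp'
          funext x
          by_cases hx : x = e ∨ x = e'
          · rw [hp.1.1 x (by rw [mem_rem]; tauto), hp'.1.1 x (by rw [mem_rem]; tauto)]
          · push Not at hx
            simpa [ins, hx.1, hx.2] using congrFun h x
    _ ≤ _ := by
        rw [← card_biUnion]
        · apply card_le_card
          intro p hp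
          obtain ⟨e', -, h⟩ := mem_biUnion.mp hp
          exact (mem_filter.mp h).1
        · intro a _ b _ hab
          simp only [Function.onFun, disjoint_filter]
          intro p _ h1 h2
          exact hab (h1.symm.trans h2)

lemma ctr_fpf {X : Finset D} {s : D → D} (hs : Inv X s) (hs' : ∀ x ∈ X, s x ≠ x) {e e' : D}
    (he : e ∈ X) (he' : e' ∈ X) (hne : e ≠ e') : ∀ x ∈ rem X e e', ctr s e e' x ≠ x := by
  intro x hx
  rw [mem_rem] at hx
  obtain ⟨a1, a2⟩ := hs x hx.1
  obtain ⟨b1, b2⟩ := hs e he
  obtain ⟨c1, c2⟩ := hs e' he'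
  have d1 := hs' x hx.1
  have d2 := hs' e he
  have d3 := hs' e' he'
  simp only [ctr]
  grind

theorem odd_phase (ty : D → Fin 4) (E : ℕ) : ∀ (X : Finset D) (s k : D → D), Inv X s →
    (∀ x ∈ X, s x ≠ x) → Inv X k → cnt ty X 0 = 0 → cnt ty X 2 = 0 → cnt ty X 1 = E + 1 →
    cnt ty X 3 = E + 1 → ((∀ x ∈ X, k x = x) ∨ 4 ≤ (X.filter (fun x => k x = x)).card) →
    (E - 1).factorial ≤ (GP ty X s k).card := by
  induction E with
  | zero =>
    intro X s k hs hs' hk h0 h2 h1 h3 hf
    obtain ⟨e, he⟩ := card_eq_one.mp h1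
    obtain ⟨e', he'⟩ := card_eq_one.mp h3
    have a : e ∈ X ∧ ty e = 1 := mem_filter.mp (he ▸ mem_singleton_self e)
    have b : e' ∈ X ∧ ty e' = 3 := mem_filter.mp (he' ▸ mem_singleton_self e')
    have hX : ∀ x ∈ X, x = e ∨ x = e' := by
      intro x hx
      have q : ∀ q : Fin 4, q = 0 ∨ q = 1 ∨ q = 2 ∨ q = 3 := by decide
      rcases q (ty x) with h | h | h | h
      · exact absurd (card_eq_zero.mp h0) (ne_empty_of_mem (mem_filter.mpr ⟨hx, h⟩))
      · left; rw [← mem_singleton, ← he]; exact mem_filter.mpr ⟨hx, h⟩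
      · exact absurd (card_eq_zero.mp h2) (ne_empty_of_mem (mem_filter.mpr ⟨hx, h⟩))
      · right; rw [← mem_singleton, ← he']; exact mem_filter.mpr ⟨hx, h⟩
    have hty : ty e' = ty e + 2 := by rw [a.2, b.2]; rfl
    have hne := ne_of_ty hty
    have hfree : ∀ x ∈ X, k x = x := by
      rcases hf with hf | hf
      · exact hf
      · exfalso
        have : X.filter (fun x => k x = x) ⊆ {e, e'} := by
          intro x hx
          simpa using hX x (mem_filter.mp hx).1
        have := (card_le_card this).trans card_le_two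
        omega
    apply card_pos.mpr
    refine ⟨ins e e' id, mem_GP.mpr ⟨IsTP.ins a.1 b.1 hty ⟨fun _ _ => rfl, ?_⟩, ?_, ?_⟩⟩
    · intro d hd
      rw [mem_rem] at hd
      have := hX d hd.1
      tauto
    · intro U hUX ⟨x, hx⟩ _ hp y hy
      have := hp x hx
      rcases hX x (hUX hx) with rfl | rfl <;> rcases hX y hy with rfl | rfl
      · exact hx
      · simpa [ins] using this
      · simpa [ins, hne.symm] using this
      · exact hx
    · intro U hUX ⟨x, hx⟩ _ _
      exact ⟨x, hx, hfree x (hUX hx)⟩
  | succ E ih =>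
    intro X s k hs hs' hk h0 h2 h1 h3 hf
    have hodd : ∀ x ∈ X, ty x = 1 ∨ ty x = 3 := by
      intro x hx
      have q : ∀ q : Fin 4, q = 0 ∨ q = 1 ∨ q = 2 ∨ q = 3 := by decide
      rcases q (ty x) with h | h | h | h
      · exact absurd (card_eq_zero.mp h0) (ne_empty_of_mem (mem_filter.mpr ⟨hx, h⟩))
      · exact Or.inl h
      · exact absurd (card_eq_zero.mp h2) (ne_empty_of_mem (mem_filter.mpr ⟨hx, h⟩))
      · exact Or.inr h
    have hopp : ∀ e ∈ X, (X.filter (fun d => ty d = ty e + 2)).card = E + 2 := by
      intro e he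
      rcases hodd e he with h | h <;> rw [h]
      · exact h3
      · exact h1
    have hrec : ∀ e ∈ X, ∀ e' ∈ X, ty e' = ty e + 2 → s e ≠ e' → k e ≠ e' →
        ((∀ x ∈ rem X e e', ctr k e e' x = x) ∨
          4 ≤ ((rem X e e').filter (fun x => ctr k e e' x = x)).card) →
        (E - 1).factorial ≤ (GP ty (rem X e e') (ctr s e e') (ctr k e e')).card := by
      intro e he e' he' hty a b c
      have hne := ne_of_ty hty
      have c0 := cnt_rem (ty := ty) he he' hne 0
      have c1 := cnt_rem (ty := ty) he he' hne 1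
      have c2 := cnt_rem (ty := ty) he he' hne 2
      have c3 := cnt_rem (ty := ty) he he' hne 3
      apply ih _ _ _ (hs.ctr he he' hne a) (ctr_fpf hs hs' he he' hne) (hk.ctr he he' hne b)
        (by omega) (by omega) _ _ c
      · rw [hty] at c1; rcases hodd e he with h | h <;> rw [h] at c1 <;> simp at c1 <;> omega
      · rw [hty] at c3; rcases hodd e he with h | h <;> rw [h] at c3 <;> simp at c3 <;> omega
    by_cases hall : ∀ x ∈ X, k x = x
    · obtain ⟨e, he⟩ : (X.filter (fun d => ty d = 1)).Nonempty := card_pos.mp (by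
        have : cnt ty X 1 = (X.filter (fun d => ty d = 1)).card := rfl
        omega)
      have he := (mem_filter.mp he).1
      refine le_trans ?_ (GP_step hs hs' hk he
        ((X.filter (fun d => ty d = ty e + 2)).erase (s e)) (E - 1).factorial ?_)
      · have := pred_card_le_card_erase (s := X.filter (fun d => ty d = ty e + 2)) (a := s e)
        rw [hopp e he] at this
        refine le_trans ?_ (Nat.mul_le_mul_right _ this)
        rcases E with _ | E
        · simp
        · simp only [add_tsub_cancel_right, Nat.factorial_succ]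
          apply Nat.mul_le_mul_right; omega
      · intro e' he'
        rw [mem_erase, mem_filter] at he'
        have hne := ne_of_ty he'.2.2
        have b : k e ≠ e' := by rw [hall e he]; exact hne
        refine ⟨he'.2.1, he'.2.2, he'.1.symm, b, hrec e he e' he'.2.1 he'.2.2 he'.1.symm b ?_⟩
        left
        intro x hx
        rw [mem_rem] at hx
        simp [ctr, hall x hx.1, hx.2.1, hx.2.2]
    · have hf4 := hf.resolve_left hall
      push Not at hall
      obtain ⟨e, he, hke⟩ := hall
      have hE : 1 ≤ E := by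
        have hsub : insert e (X.filter (fun x => k x = x)) ⊆
            X.filter (fun d => ty d = 1) ∪ X.filter (fun d => ty d = 3) := by
          intro x hx
          have hxX : x ∈ X := by
            rcases mem_insert.mp hx with rfl | h
            · exact he
            · exact (mem_filter.mp h).1
          simpa [hxX] using hodd x hxX
        have a := (card_le_card hsub).trans (card_union_le _ _)
        rw [card_insert_of_notMem (by simp [hke])] at a
        have b1 : (X.filter (fun d => ty d = 1)).card = E + 2 := h1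
        have b3 : (X.filter (fun d => ty d = 3)).card = E + 2 := h3
        omega
      refine le_trans ?_ (GP_step hs hs' hk he
        (((X.filter (fun d => ty d = ty e + 2)).erase (s e)).erase (k e)) (E - 1).factorial ?_)
      · have a := pred_card_le_card_erase (s := X.filter (fun d => ty d = ty e + 2)) (a := s e)
        have b := pred_card_le_card_erase
          (s := (X.filter (fun d => ty d = ty e + 2)).erase (s e)) (a := k e)
        rw [hopp e he] at a
        refine le_trans ?_ (Nat.mul_le_mul_right _ (show E ≤ _ by omega))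
        simp only [add_tsub_cancel_right]
        exact (Nat.mul_factorial_pred (by omega)).ge
      · intro e' he'
        rw [mem_erase, mem_erase, mem_filter] at he'
        obtain ⟨b, a, he', hty⟩ := he'
        refine ⟨he', hty, a.symm, b.symm, hrec e he e' he' hty a.symm b.symm ?_⟩
        right
        refine hf4.trans (card_le_card_of_injOn (fun x => if x = e' then k e else x) ?_ ?_)
        · intro x hx
          simp only [coe_filter, Set.mem_ofPred_eq, mem_rem] at hx ⊢
          obtain ⟨b1, b2⟩ := hk e he
          by_cases hxe : x = e'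
          · rw [if_pos hxe]
            exact ⟨⟨b1, hke, b.symm⟩, ctr_left' b2 (hxe ▸ hx.2)⟩
          · rw [if_neg hxe]
            have n1 : x ≠ e := by rintro rfl; exact hke hx.2
            refine ⟨⟨hx.1, n1, hxe⟩, ?_⟩
            rw [ctr_of_ne (by rwa [hx.2]) (by rwa [hx.2]), hx.2]
        · intro x hx y hy h
          simp only [coe_filter, Set.mem_ofPred_eq] at hx hy
          obtain ⟨b1, b2⟩ := hk e he
          by_cases hxe : x = e' <;> by_cases hye : y = e'
          · rw [hxe, hye]
          · simp only [hxe, hye, if_true, if_false] at h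
            have : e = y := by rw [← b2, h, hy.2]
            exact absurd (h.trans this.symm) hke
          · simp only [hxe, hye, if_true, if_false] at h
            have : e = x := by rw [← b2, ← h, hx.2]
            exact absurd (h.symm.trans this.symm) hke
          · simpa only [hxe, hye, if_false] using h

/-- even types -/
def Ev (q : Fin 4) : Prop := q = 0 ∨ q = 2

instance : DecidablePred Ev := fun q => by unfold Ev; infer_instance

theorem even_phase (ty : D → Fin 4) (E1 E : ℕ) : ∀ (X : Finset D) (s k : D → D), Inv X s →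
    (∀ x ∈ X, s x ≠ x) → Inv X k → cnt ty X 0 = E → cnt ty X 2 = E → cnt ty X 1 = E1 + 1 →
    cnt ty X 3 = E1 + 1 → (E = 0 ∨ ∃ x ∈ X, Ev (ty x) ∧ ¬ Ev (ty (s x))) →
    (∀ x ∈ X, Ev (ty x) → k x = x ∨ ¬ Ev (ty (k x))) →
    4 ≤ (X.filter (fun x => k x = x ∧ ¬ Ev (ty x))).card →
    (E - 1).factorial * (E1 - 1).factorial ≤ (GP ty X s k).card := by
  induction E with
  | zero =>
    intro X s k hs hs' hk h0 h2 h1 h3 _ _ hf
    simp only [zero_tsub, Nat.factorial_zero, one_mul]
    refine odd_phase ty E1 X s k hs hs' hk h0 h2 h1 h3 (Or.inr (hf.trans (card_le_card ?_)))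
    intro x hx
    rw [mem_filter] at hx ⊢
    exact ⟨hx.1, hx.2.1⟩
  | succ E ih =>
    intro X s k hs hs' hk h0 h2 h1 h3 hm hkev hf
    obtain ⟨x0, hx0, hx0e, hx0o⟩ := hm.resolve_left (by omega)
    have hopp : ∀ e ∈ X, Ev (ty e) → (X.filter (fun d => ty d = ty e + 2)).card = E + 1 := by
      intro e he hev
      rcases hev with h | h <;> rw [h]
      · exact h2
      · exact h0
    have hev2 : ∀ q, Ev q → Ev (q + 2) := by decide
    have hrec : ∀ e ∈ X, Ev (ty e) → ∀ e' ∈ X, ty e' = ty e + 2 → s e ≠ e' →
        (E = 0 ∨ ∃ x ∈ rem X e e', Ev (ty x) ∧ ¬ Ev (ty (ctr s e e' x))) →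
        k e ≠ e' ∧ (E - 1).factorial * (E1 - 1).factorial ≤
          (GP ty (rem X e e') (ctr s e e') (ctr k e e')).card := by
      intro e he hev e' he' hty a c
      have hne := ne_of_ty hty
      have hev' : Ev (ty e') := hty ▸ hev2 _ hev
      have b : k e ≠ e' := by
        rcases hkev e he hev with h | h
        · rw [h]; exact hne
        · rintro rfl; exact h hev'
      have c0 := cnt_rem (ty := ty) he he' hne 0
      have c1 := cnt_rem (ty := ty) he he' hne 1
      have c2 := cnt_rem (ty := ty) he he' hne 2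
      have c3 := cnt_rem (ty := ty) he he' hne 3
      refine ⟨b, ih _ _ _ (hs.ctr he he' hne a) (ctr_fpf hs hs' he he' hne) (hk.ctr he he' hne b)
        ?_ ?_ ?_ ?_ c ?_ ?_⟩
      · rw [hty] at c0; rcases hev with h | h <;> rw [h] at c0 <;> simp at c0 <;> omega
      · rw [hty] at c2; rcases hev with h | h <;> rw [h] at c2 <;> simp at c2 <;> omega
      · rw [hty] at c1; rcases hev with h | h <;> rw [h] at c1 <;> simp at c1 <;> omega
      · rw [hty] at c3; rcases hev with h | h <;> rw [h] at c3 <;> simp at c3 <;> omega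
      · intro x hx hxe
        rw [mem_rem] at hx
        have := hkev x hx.1 hxe
        have n1 : k x ≠ e := by
          rcases this with h | h
          · rw [h]; exact hx.2.1
          · rintro h'; exact h (h' ▸ hev)
        have n2 : k x ≠ e' := by
          rcases this with h | h
          · rw [h]; exact hx.2.2
          · rintro h'; exact h (h' ▸ hev')
        rwa [ctr_of_ne n1 n2]
      · refine hf.trans (card_le_card ?_)
        intro x hx
        rw [mem_filter] at hx
        rw [mem_filter, mem_rem]
        have n1 : x ≠ e := by rintro rfl; exact hx.2.2 hev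
        have n2 : x ≠ e' := by rintro rfl; exact hx.2.2 hev'
        refine ⟨⟨hx.1, n1, n2⟩, ?_, hx.2.2⟩
        rw [ctr_of_ne (by rwa [hx.2.1]) (by rwa [hx.2.1]), hx.2.1]
    by_cases hcase : ∃ e ∈ X, Ev (ty e) ∧ Ev (ty (s e))
    · obtain ⟨e, he, hev, hsev⟩ := hcase
      have hE : 1 ≤ E := by
        have hsub : ({x0, e, s e} : Finset D) ⊆
            X.filter (fun d => ty d = 0) ∪ X.filter (fun d => ty d = 2) := by
          intro x hx
          simp only [mem_insert, mem_singleton] at hx
          rw [← filter_or, mem_filter]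
          rcases hx with rfl | rfl | rfl
          · exact ⟨hx0, hx0e⟩
          · exact ⟨he, hev⟩
          · exact ⟨(hs e he).1, hsev⟩
        have a := (card_le_card hsub).trans (card_union_le _ _)
        have n1 : x0 ≠ e := by rintro rfl; exact hx0o hsev
        have n2 : x0 ≠ s e := by rintro rfl; rw [(hs e he).2] at hx0o; exact hx0o hev
        rw [card_eq_three.mpr ⟨x0, e, s e, n1, n2, (hs' e he).symm, rfl⟩] at a
        have b0 : (X.filter (fun d => ty d = 0)).card = E + 1 := h0
        have b2 : (X.filter (fun d => ty d = 2)).card = E + 1 := h2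
        omega
      refine le_trans ?_ (GP_step hs hs' hk he
        ((X.filter (fun d => ty d = ty e + 2)).erase (s e))
          ((E - 1).factorial * (E1 - 1).factorial) ?_)
      · have a := pred_card_le_card_erase (s := X.filter (fun d => ty d = ty e + 2)) (a := s e)
        rw [hopp e he hev] at a
        refine le_trans ?_ (Nat.mul_le_mul_right _ a)
        simp only [add_tsub_cancel_right]
        rw [← mul_assoc, Nat.mul_factorial_pred (by omega)]
      · intro e' he'
        rw [mem_erase, mem_filter] at he'
        obtain ⟨a, he', hty⟩ := he'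
        have hev' : Ev (ty e') := hty ▸ hev2 _ hev
        have := hrec e he hev e' he' hty a.symm (Or.inr ?_)
        · exact ⟨he', hty, a.symm, this⟩
        · obtain ⟨b1, b2⟩ := hs e he
          have d1 := hs' e he
          have d2 := hs' e' he'
          by_cases hx : x0 = e'
          · refine ⟨s e, mem_rem.mpr ⟨b1, d1, a.symm⟩, hsev, ?_⟩
            rw [ctr_left b2 d2, ← hx]; exact hx0o
          · refine ⟨x0, mem_rem.mpr ⟨hx0, ?_, hx⟩, hx0e, ?_⟩
            · rintro rfl; exact hx0o hsev
            · rwa [ctr_of_ne (show s x0 ≠ e from fun h => hx0o (by rw [h]; exact hev))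
                (show s x0 ≠ e' from fun h => hx0o (by rw [h]; exact hev'))]
    · push Not at hcase
      refine le_trans ?_ (GP_step hs hs' hk hx0 (X.filter (fun d => ty d = ty x0 + 2))
          ((E - 1).factorial * (E1 - 1).factorial) ?_)
      · rw [hopp x0 hx0 hx0e, ← mul_assoc]
        apply Nat.mul_le_mul_right
        rcases E with _ | E
        · simp
        · simp only [add_tsub_cancel_right, Nat.factorial_succ]
          apply Nat.mul_le_mul_right; omega
      · intro e' he'
        rw [mem_filter] at he'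
        obtain ⟨he', hty⟩ := he'
        have hev' : Ev (ty e') := hty ▸ hev2 _ hx0e
        have a : s x0 ≠ e' := by rintro rfl; exact hx0o hev'
        have := hrec x0 hx0 hx0e e' he' hty a ?_
        · exact ⟨he', hty, a, this⟩
        · rcases Nat.eq_zero_or_pos E with h | h
          · exact Or.inl h
          · right
            have c0 := cnt_rem (ty := ty) hx0 he' (ne_of_ty hty) 0
            have hpos : 0 < cnt ty (rem X x0 e') 0 := by
              rw [hty] at c0
              rcases hx0e with h | h <;> rw [h] at c0 <;> simp at c0 <;> omega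
            obtain ⟨x, hx⟩ := card_pos.mp hpos
            rw [mem_filter] at hx
            have hxe : Ev (ty x) := Or.inl hx.2
            refine ⟨x, hx.1, hxe, ?_⟩
            have := hcase x (mem_rem.mp hx.1).1 hxe
            rwa [ctr_of_ne (show s x ≠ x0 from fun h => this (by rw [h]; exact hx0e))
              (show s x ≠ e' from fun h => this (by rw [h]; exact hev'))]

end Pool.Agent.MP_755159_pr
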