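import Pool.Agent.MP_755159_pr.Assemble

/-! Choice of the parameters. -/

set_option linter.unusedSectionVars false

namespace Pool.Agent.MP_755159_pr

open Finset

lemma pow_bd (a : ℕ) (ha : 200 ≤ a) (c i j : ℕ) (hc : c ≤ 200) (h : i < j) : c * a ^ i ≤ a ^ j :=
  calc c * a ^ i ≤ a * a ^ i := Nat.mul_le_mul_right _ (hc.trans ha)
    _ = a ^ (i + 1) := by ring
    _ ≤ a ^ j := Nat.pow_le_pow_right (by omega) h

lemma alpha_bd {n x : ℝ} (N : ℕ) (hx : 0 ≤ x) (hn : 0 < n) {a : ℝ} (ha : 2 ≤ a) (hN : 1 ≤ N)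
    (h : 2 * a * N * x ≤ n) : (n / (n - x)) ^ N ≤ 1 + 1 / a := by
  have hN' : (1 : ℝ) ≤ N := by exact_mod_cast hN
  have h0 : x ≤ N * x := le_mul_of_one_le_left hx hN'
  have h1 : 4 * (N * x) ≤ n := by nlinarith [mul_nonneg (zero_le_one.trans hN') hx]
  have h2 : 0 < n - x := by nlinarith [mul_nonneg (zero_le_one.trans hN') hx]
  have h3 := one_add_mul_le_pow (a := -(x / n)) (by
    have : x / n ≤ 1 := by rw [div_le_one hn]; linarith
    linarith) N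
  have h4 : 1 + -(x / n) = (n - x) / n := by field_simp; ring
  rw [h4] at h3
  have h5 : 0 < 1 + N * -(x / n) := by
    have : N * (x / n) ≤ 1 / 4 := by rw [← mul_div_assoc, div_le_iff₀ hn]; linarith
    linarith
  rw [← inv_div, inv_pow]
  refine (inv_anti₀ h5 h3).trans ?_
  rw [inv_le_iff_one_le_mul₀ h5]
  have h6 : N * (x / n) ≤ 1 / (2 * a) := by
    rw [← mul_div_assoc, div_le_div_iff₀ hn (by positivity)]; linarith
  have h7 : (1 + 1 / a) * (1 - 1 / (2 * a)) ≥ 1 := by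
    have : (1 + 1 / a) * (1 - 1 / (2 * a)) - 1 = (a - 1) / (2 * a ^ 2) := by field_simp; ring
    have : 0 ≤ (a - 1) / (2 * a ^ 2) := div_nonneg (by linarith) (by positivity)
    linarith
  have h8 : (0 : ℝ) ≤ 1 + 1 / a := by positivity
  have := mul_le_mul_of_nonneg_left (show 1 - 1 / (2 * a) ≤ 1 + N * -(x / n) by linarith) h8
  linarith

lemma beta_bd {a n n₂ K : ℕ} (p1 : a ≤ a ^ 15) (q6 : n ≤ 2 * n₂ * a ^ 17) (h : 10 * K ≤ n₂) :
    2 * (n : ℝ) ^ (a + 1) * ((a ^ 15 + a : ℕ) : ℝ) ^ 3 ≤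
      (64 * a ^ 62 * n ^ a) * (n₂ - 5 * K) := by
  have e1 : ((a ^ 15 + a : ℕ) : ℝ) ≤ 2 * a ^ 15 := by
    exact_mod_cast (show a ^ 15 + a ≤ 2 * a ^ 15 by omega)
  have e2 : (n : ℝ) ≤ 2 * n₂ * a ^ 17 := by exact_mod_cast q6
  have e3 : (n₂ : ℝ) ≤ 2 * (n₂ - 5 * K) := by
    have : ((10 * K : ℕ) : ℝ) ≤ n₂ := by exact_mod_cast h
    push_cast at this
    linarith
  calc _ ≤ 2 * (n : ℝ) ^ (a + 1) * (2 * a ^ 15) ^ 3 := by gcongr
    _ = 16 * a ^ 45 * n ^ a * n := by ring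
    _ ≤ 16 * a ^ 45 * n ^ a * (2 * (2 * (n₂ - 5 * K)) * a ^ 17) := by
      apply mul_le_mul_of_nonneg_left _ (by positivity)
      refine e2.trans (mul_le_mul_of_nonneg_right (by linarith) (by positivity))
    _ = _ := by ring

lemma eps1_bd {a n n₁ : ℕ} (ha : 200 ≤ a) (hn : 0 < n) (hn1 : 0 < n₁) (q1 : n₁ * a ^ 10 ≤ n) :
    (((4 * a ^ 4 : ℕ) : ℝ) * ((a + (4 * a ^ 4 : ℕ)) * (2 * (4 * n₁ : ℕ) + 1))) / n ≤ 1 / a := by
  have nR : (0 : ℝ) < n := by exact_mod_cast hn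
  have aR0 : (0 : ℝ) < a := by exact_mod_cast (show 0 < a by omega)
  have p3 := pow_bd a ha 1 1 4 (by omega) (by omega)
  rw [pow_one] at p3
  rw [div_le_div_iff₀ nR aR0, one_mul]
  have : 4 * a ^ 4 * ((a + 4 * a ^ 4) * (2 * (4 * n₁) + 1)) * a ≤ n := by
    calc _ ≤ 4 * a ^ 4 * ((5 * a ^ 4) * (9 * n₁)) * a :=
        Nat.mul_le_mul_right _ (Nat.mul_le_mul_left _ (Nat.mul_le_mul (by omega) (by omega)))
      _ = n₁ * (180 * a ^ 9) := by ring
      _ ≤ n₁ * a ^ 10 := Nat.mul_le_mul_left _ (pow_bd a ha 180 9 10 (by omega) (by omega))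
      _ ≤ n := q1
  exact_mod_cast this

lemma alpha_bd' {a n K : ℕ} (ha : 200 ≤ a) (h1 : a ^ 100 ≤ n) (hK5 : K ≤ 5 * a ^ 15) (N : ℕ)
    (hN : 1 ≤ N) (hN' : N ≤ 4 * a ^ 15) : ((n : ℝ) / (n - 10 * K)) ^ N ≤ 1 + 1 / a := by
  have nR : (0 : ℝ) < n := by
    exact_mod_cast lt_of_lt_of_le (pow_pos (show 0 < a by omega) 100) h1
  have aR : (200 : ℝ) ≤ a := by exact_mod_cast ha
  apply alpha_bd N (by positivity) nR (by linarith) hN
  have : 2 * a * N * (10 * K) ≤ n := by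
    calc _ ≤ 2 * a * (4 * a ^ 15) * (10 * (5 * a ^ 15)) :=
        Nat.mul_le_mul (Nat.mul_le_mul_left _ hN') (Nat.mul_le_mul_left _ hK5)
      _ = 20 * (20 * a ^ 31) := by ring
      _ ≤ 20 * a ^ 32 := Nat.mul_le_mul_left _ (pow_bd a ha 20 31 32 (by omega) (by omega))
      _ ≤ a ^ 100 := pow_bd a ha 20 32 100 (by omega) (by omega)
      _ ≤ n := h1
  exact_mod_cast this

lemma eps3_bd {a n K : ℕ} (ha : 200 ≤ a) (h1 : a ^ 100 ≤ n) (hK5 : K ≤ 5 * a ^ 15)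
    (hnK : 10 * K < n) :
    (64 * a ^ 62 * n ^ a : ℝ) * (2 * K * (2 * K) / (n - 10 * K) ^ (a + 1)) ≤ 1 / a := by
  have nR : (0 : ℝ) < n := by exact_mod_cast (show 0 < n by omega)
  have aR : (200 : ℝ) ≤ a := by exact_mod_cast ha
  have aR0 : (0 : ℝ) < a := by linarith
  have KR : (K : ℝ) ≤ 5 * a ^ 15 := by exact_mod_cast hK5
  have hpos : (0 : ℝ) < n - 10 * K := by
    have : ((10 * K : ℕ) : ℝ) < n := by exact_mod_cast hnK
    push_cast at this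
    linarith
  have p1 := pow_bd a ha 2 1 15 (by omega) (by omega)
  rw [pow_one] at p1
  have f1 := alpha_bd' ha h1 hK5 (a + 1) (by omega) (by omega)
  have f2 : (1 : ℝ) / a ≤ 1 := by rw [div_le_one aR0]; linarith
  have f3 : (12800 * a ^ 93 : ℝ) ≤ n := by
    have : 12800 * a ^ 93 ≤ n := by
      calc _ = 128 * (100 * a ^ 93) := by ring
        _ ≤ 128 * a ^ 94 := Nat.mul_le_mul_left _ (pow_bd a ha 100 93 94 (by omega) (by omega))
        _ ≤ a ^ 100 := pow_bd a ha 128 94 100 (by omega) (by omega)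
        _ ≤ n := h1
    exact_mod_cast this
  calc _ = (256 * a ^ 62 * (K * K) / n) * ((n : ℝ) / (n - 10 * K)) ^ (a + 1) := by
        rw [div_pow]; field_simp; ring
    _ ≤ (256 * a ^ 62 * ((5 * a ^ 15) * (5 * a ^ 15)) / n) * 2 := by
        apply mul_le_mul _ (by linarith) (by positivity) (by positivity)
        apply div_le_div_of_nonneg_right _ nR.le
        apply mul_le_mul_of_nonneg_left _ (by positivity)
        exact mul_le_mul KR KR (by positivity) (by positivity)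
    _ = 12800 * a ^ 93 / n * (1 / a) := by field_simp; ring
    _ ≤ 1 * (1 / a) := by
        apply mul_le_mul_of_nonneg_right _ (by positivity)
        rwa [div_le_one nR]
    _ = _ := one_mul _

lemma eps4_bd {a n : ℕ} (ha : 200 ≤ a) (h1 : a ^ 100 ≤ n) (h2 : n < (a + 1) ^ 100) :
    (64 * a ^ 62 * n ^ a : ℝ) * (2 * a / 2 ^ (2 * a ^ 3)) ≤ 1 / a := by
  have aR0 : (0 : ℝ) < a := by exact_mod_cast (show 0 < a by omega)
  rw [← mul_div_assoc, div_le_div_iff₀ (by positivity) aR0, one_mul]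
  have : 64 * a ^ 62 * n ^ a * (2 * a) * a ≤ 2 ^ (2 * a ^ 3) := by
    have f1 : n ≤ 2 ^ (a * 100) := by
      rw [pow_mul]
      exact h2.le.trans (Nat.pow_le_pow_left Nat.lt_two_pow_self _)
    calc _ = (128 * a ^ 64) * n ^ a := by ring
      _ ≤ n * n ^ a := Nat.mul_le_mul_right _
        ((pow_bd a ha 128 64 100 (by omega) (by omega)).trans h1)
      _ = n ^ (a + 1) := by ring
      _ ≤ (2 ^ (a * 100)) ^ (a + 1) := Nat.pow_le_pow_left f1 _
      _ = 2 ^ (a * 100 * (a + 1)) := by rw [← pow_mul]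
      _ ≤ _ := Nat.pow_le_pow_right (by omega) (by
        have := pow_bd a ha 200 2 3 (by omega) (by omega)
        calc a * 100 * (a + 1) ≤ a * 100 * (2 * a) := Nat.mul_le_mul_left _ (by omega)
          _ = 200 * a ^ 2 := by ring
          _ ≤ _ := by omega)
  exact_mod_cast this

lemma final_bd {H H' P F u e1 e2 e3 e4 : ℝ} (hH : 0 ≤ H) (hH' : 0 ≤ H') (hu : 0 ≤ u)
    (h : H + H' = P) (hF : P ≤ F) (h1 : e1 ≤ u) (h2 : e2 ≤ 1 + u) (h3 : e3 ≤ u) (h4 : e4 ≤ u)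
    (key : (1 - e1) * P ≤ (e2 + e3 + e4) * H) : H' ≤ 4 * u * F := by
  have hP : 0 ≤ P := by linarith
  have k1 := mul_le_mul_of_nonneg_right (show 1 - u ≤ 1 - e1 by linarith) hP
  have k2 := mul_le_mul_of_nonneg_right (show e2 + e3 + e4 ≤ 1 + 3 * u by linarith) hH
  have k3 := mul_le_mul_of_nonneg_left (show H ≤ P by linarith) hu
  have k4 := mul_le_mul_of_nonneg_left hF hu
  nlinarith

lemma nat_facts {n a : ℕ} (ha : 200 ≤ a) (h1 : a ^ 100 ≤ n) : ∃ K n₁ n₂ : ℕ,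
    K = a + 4 * a ^ 4 + (2 * a ^ 15 + a) ∧ K ≤ 5 * a ^ 15 ∧ n₁ * a ^ 10 ≤ n ∧ 0 < n₁ ∧ n₂ ≤ n₁ ∧
    10 * K ≤ n₂ ∧ 10 * K < n ∧ n ≤ 2 * n₂ * a ^ 17 ∧
    4 * (2 * a ^ 15 + a) * (4 * n₂ + 5 * K) ≤ n ∧
    4 * (4 * a ^ 4) * n ≤ (2 * a ^ 15 + a) * n₁ := by
  obtain ⟨K, hK⟩ : ∃ K, K = a + 4 * a ^ 4 + (2 * a ^ 15 + a) := ⟨_, rfl⟩
  obtain ⟨n₁, hn₁⟩ : ∃ n₁, n₁ = n / a ^ 10 := ⟨_, rfl⟩
  obtain ⟨n₂, hn₂⟩ : ∃ n₂, n₂ = n / a ^ 17 := ⟨_, rfl⟩
  have p1 := pow_bd a ha 1 1 15 (by omega) (by omega)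
  have p2 := pow_bd a ha 4 4 15 (by omega) (by omega)
  rw [pow_one] at p1
  have hK5 : K ≤ 5 * a ^ 15 := by omega
  have q1 : n₁ * a ^ 10 ≤ n := hn₁ ▸ Nat.div_mul_le_self _ _
  have q2 : n₂ * a ^ 17 ≤ n := hn₂ ▸ Nat.div_mul_le_self _ _
  have ha0 : 0 < a := by omega
  have q3 : a ^ 90 ≤ n₁ := by
    rw [hn₁, Nat.le_div_iff_mul_le (by positivity), ← pow_add]; exact h1
  have q4 : a ^ 83 ≤ n₂ := by
    rw [hn₂, Nat.le_div_iff_mul_le (by positivity), ← pow_add]; exact h1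
  have p5 := pow_bd a ha 1 0 90 (by omega) (by omega)
  have p6 := pow_bd a ha 50 15 83 (by omega) (by omega)
  have p7 := pow_bd a ha 51 15 100 (by omega) (by omega)
  rw [pow_zero] at p5
  have q5 : n ≤ 2 * n₁ * a ^ 10 := by
    have := Nat.lt_div_mul_add (a := n) (b := a ^ 10) (by positivity)
    rw [← hn₁] at this
    have : 1 * a ^ 10 ≤ n₁ * a ^ 10 := Nat.mul_le_mul_right _ (by omega)
    rw [mul_assoc]
    omega
  have q6 : n ≤ 2 * n₂ * a ^ 17 := by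
    have := Nat.lt_div_mul_add (a := n) (b := a ^ 17) (by positivity)
    rw [← hn₂] at this
    have : 1 * a ^ 17 ≤ n₂ * a ^ 17 := Nat.mul_le_mul_right _ (by omega)
    rw [mul_assoc]
    omega
  have q7 : n₂ ≤ n₁ := by
    rw [hn₁, hn₂]
    exact Nat.div_le_div_left (Nat.pow_le_pow_right ha0 (by omega)) (by positivity)
  refine ⟨K, n₁, n₂, hK, hK5, q1, by omega, q7, by omega, by omega, q6, ?_, ?_⟩
  · calc _ ≤ 4 * (3 * a ^ 15) * (5 * n₂) := Nat.mul_le_mul (by omega) (by omega)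
      _ = n₂ * (60 * a ^ 15) := by ring
      _ ≤ n₂ * a ^ 17 := Nat.mul_le_mul_left _ (pow_bd a ha 60 15 17 (by omega) (by omega))
      _ ≤ n := q2
  · calc _ ≤ 4 * (4 * a ^ 4) * (2 * n₁ * a ^ 10) := Nat.mul_le_mul_left _ q5
      _ = (32 * a ^ 14) * n₁ := by ring
      _ ≤ _ := Nat.mul_le_mul_right _ (by
        have := pow_bd a ha 32 14 15 (by omega) (by omega); omega)

theorem few_bad {V : Type} [Fintype V] [DecidableEq V] {pos : V → Fin 4} {n a : ℕ}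
    (hn : ∀ q, cnt pos univ q = n) {s : Equiv.Perm V} (hs : ∀ v, pos (s v) = pos v + 1)
    {sp : Fin a → V} (hsp0 : ∀ r, pos (sp r) = 0) (hspi : Function.Injective sp)
    (hsp : ∀ W : Finset V, W.Nonempty → (∀ v ∈ W, s v ∈ W) → ∃ r, sp r ∈ W)
    (ha : 200 ≤ a) (h1 : a ^ 100 ≤ n) (h2 : n < (a + 1) ^ 100) :
    ((Ext pos (fun m => ¬ (Gr s m).IsHamiltonian)).card : ℝ) ≤
      4 * (1 / a) * (n.factorial * n.factorial) := by
  obtain ⟨K, n₁, n₂, hK, hK5, q1, q2, q3, q4, q5, q6, c1, c2⟩ := nat_facts ha h1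
  have p1 := pow_bd a ha 1 1 15 (by omega) (by omega)
  have p4 := pow_bd a ha 1 0 3 (by omega) (by omega)
  rw [pow_one] at p1
  rw [pow_zero] at p4
  have hT : 2 * a ^ 3 - 1 + 1 = 2 * a ^ 3 := Nat.sub_add_cancel (by omega)
  have key := main_det hn hs hsp0 hspi hsp (2 * a ^ 3 - 1) (2 * a ^ 15 + a) (a ^ 15 + a)
    (by rw [hT]; exact even_two_mul _) (by ring) (by omega) (by omega)
    (L := 4 * n₁) (n₁ := n₁) (n₂ := n₂) (I := 4 * a ^ 4) (K := K)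
    (by rw [hT]; ring) hK (by omega) le_rfl (by omega) q2
    q5 c1 c2 (by omega) (beta_bd (by omega) q6 q4)
  rw [hT] at key
  have hsplit : (Ext pos (fun m => (Gr s m).IsHamiltonian)).card +
      (Ext pos (fun m => ¬ (Gr s m).IsHamiltonian)).card = (TP pos univ).card := by
    classical
    rw [← card_filter_add_card_filter_not (s := TP pos univ) (fun m => (Gr s m).IsHamiltonian)]
    congr 2
    ext m
    simp only [mem_Ext, mem_filter, mem_TP]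
  have hTP := card_TP_le pos _ univ rfl
  rw [hn, hn] at hTP
  exact final_bd (Nat.cast_nonneg _) (Nat.cast_nonneg _) (by positivity)
    (by exact_mod_cast hsplit) (by exact_mod_cast hTP) (eps1_bd ha (by omega) q2 q1)
    (alpha_bd' ha h1 hK5 _ (by omega) (by omega)) (eps3_bd ha h1 hK5 q5) (eps4_bd ha h1 h2) key

end Pool.Agent.MP_755159_pr
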