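import Pool.Agent.MP_755159_pr.Geo

/-! Counting good placements of the cuts. -/

set_option linter.unusedSectionVars false

namespace Pool.Agent.MP_755159_pr

open Finset

variable {V : Type} [Fintype V] [DecidableEq V] {R T k : ℕ}

/-- a fibre -/
def fib (pos : V → Fin 4) (q : Fin 4) : Finset V := univ.filter (fun d => pos d = q)

lemma mem_fib {pos : V → Fin 4} {q : Fin 4} {v : V} : v ∈ fib pos q ↔ pos v = q := by simp [fib]

/-- tails of the cuts -/
def tl (sp : Fin R → V) (γ : Chn R × Fin (T + 1) → V) (β : Fin k → V) : Cut R T k → V :=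
  Sum.elim sp (Sum.elim γ β)

/-- nearby points -/
noncomputable def Near (s : Equiv.Perm V) (L : ℕ) (w : V) : Finset V :=
  (Icc (-(L : ℤ)) L).image (fun z => (s ^ z) w)

lemma mem_Near {s : Equiv.Perm V} {L : ℕ} {w v : V} :
    v ∈ Near s L w ↔ ∃ z : ℤ, |z| ≤ L ∧ (s ^ z) w = v := by
  simp only [Near, mem_image, mem_Icc, abs_le]

lemma Near_symm {s : Equiv.Perm V} {L : ℕ} {w v : V} (h : v ∈ Near s L w) : w ∈ Near s L v := by
  rw [mem_Near] at h ⊢
  obtain ⟨z, a, rfl⟩ := h
  exact ⟨-z, by rwa [abs_neg], by rw [zpow_app]; simp⟩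

lemma Near_mono {s : Equiv.Perm V} {L L' : ℕ} (hL : L ≤ L') {w v : V} (h : v ∈ Near s L w) :
    v ∈ Near s L' w := by
  rw [mem_Near] at h ⊢
  obtain ⟨z, a, b⟩ := h
  exact ⟨z, a.trans (by exact_mod_cast hL), b⟩

lemma card_Near (s : Equiv.Perm V) (L : ℕ) (w : V) : (Near s L w).card ≤ 2 * L + 1 := by
  refine card_image_le.trans ?_
  rw [Int.card_Icc]
  omega

lemma aw_pow_mem_Near (s : Equiv.Perm V) (c : Bool) {L i : ℕ} (h : i ≤ L) (w : V) :
    (aw s c ^ i) w ∈ Near s L w := by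
  rw [mem_Near, aw_zpow, ← zpow_natCast, ← zpow_mul]
  refine ⟨_, ?_, rfl⟩
  cases c <;> simpa using h

/-- a window -/
def Win (s : Equiv.Perm V) (c : Bool) (N : ℕ) (u : V) : Finset V :=
  (range N).image (fun l => (aw s c ^ (l + 1)) u)

lemma card_Win (s : Equiv.Perm V) (c : Bool) (N : ℕ) (u : V) : (Win s c N u).card ≤ N :=
  card_image_le.trans (card_range N).le

lemma no_short {s : Equiv.Perm V} {sp : Fin R → V}
    (hsp : ∀ W : Finset V, W.Nonempty → (∀ v ∈ W, s v ∈ W) → ∃ r, sp r ∈ W) {L : ℕ} {u : V}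
    (hu : ∀ r, u ∉ Near s L (sp r)) (c : Bool) {i : ℕ} (hi : i < L) :
    (aw s c ^ (i + 1)) u ≠ u := by
  intro h
  have h' : (s ^ (i + 1)) u = u := by
    cases c
    · simp only [aw, Bool.false_eq_true, if_false, inv_pow] at h
      conv_lhs => rw [← h]
      simp
    · exact h
  obtain ⟨r, hr⟩ := hsp ((range (i + 1)).image (fun l => (s ^ l) u))
    ⟨u, mem_image.mpr ⟨0, by simp, by simp⟩⟩ (by
      intro v hv
      obtain ⟨l, hl, rfl⟩ := mem_image.mp hv
      rw [mem_range] at hl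
      rw [← Equiv.Perm.mul_apply, ← pow_succ']
      by_cases hl' : l = i
      · rw [hl', h']
        exact mem_image.mpr ⟨0, by simp, by simp⟩
      · exact mem_image.mpr ⟨l + 1, mem_range.mpr (by omega), rfl⟩)
  obtain ⟨l, hl, e⟩ := mem_image.mp hr
  rw [mem_range] at hl
  apply hu r
  apply Near_symm
  rw [← e]
  exact aw_pow_mem_Near s true (by omega) u

lemma card_Win_fib {pos : V → Fin 4} {s : Equiv.Perm V} (hs : ∀ v, pos (s v) = pos v + 1)
    (c : Bool) (N : ℕ) {u : V} (hu : ∀ i < 4 * N, (aw s c ^ (i + 1)) u ≠ u) (q : Fin 4) :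
    N ≤ (Win s c (4 * N) u ∩ fib pos q).card := by
  have h1 : ∀ i, pos ((aw s c ^ (i + 1)) u) = pos ((aw s c ^ i) u) + if c then 1 else 3 := by
    intro i
    rw [pow_succ', Equiv.Perm.mul_apply, pos_aw hs]
  have h4 : ∀ i l, pos ((aw s c ^ (i + 4 * l)) u) = pos ((aw s c ^ i) u) := by
    intro i l
    induction l with
    | zero => rfl
    | succ l ih =>
      rw [show i + 4 * (l + 1) = i + 4 * l + 1 + 1 + 1 + 1 by ring, h1, h1, h1, h1, ih]
      have : ∀ (q : Fin 4) (c : Bool), (((q + if c then 1 else 3) + if c then 1 else 3) +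
        if c then 1 else 3) + (if c then 1 else 3) = q := by decide
      exact this _ _
  obtain ⟨i, hi, hq⟩ : ∃ i < 4, pos ((aw s c ^ (i + 1)) u) = q := by
    have : ∀ (p q : Fin 4) (c : Bool), (p + if c then 1 else 3) = q ∨
      ((p + if c then 1 else 3) + if c then 1 else 3) = q ∨
      (((p + if c then 1 else 3) + if c then 1 else 3) + if c then 1 else 3) = q ∨
      (((p + if c then 1 else 3) + if c then 1 else 3) + if c then 1 else 3) +
        (if c then 1 else 3) = q := by decide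
    rcases this (pos ((aw s c ^ 0) u)) q c with h | h | h | h
    · exact ⟨0, by omega, by rw [h1, h]⟩
    · exact ⟨1, by omega, by rw [h1, h1, h]⟩
    · exact ⟨2, by omega, by rw [h1, h1, h1, h]⟩
    · exact ⟨3, by omega, by rw [h1, h1, h1, h1, h]⟩
  conv_lhs => rw [← card_range N]
  apply card_le_card_of_injOn (fun l => (aw s c ^ (i + 1 + 4 * l)) u)
  · intro l hl
    simp only [coe_range, Set.mem_Iio] at hl
    simp only [coe_inter, Set.mem_inter_iff, mem_coe, mem_fib, h4, hq, and_true]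
    exact mem_image.mpr ⟨i + 4 * l, mem_range.mpr (by omega), by congr 2; ring⟩
  · have key : ∀ l l', l < l' → l' < N →
        (aw s c ^ (i + 1 + 4 * l)) u ≠ (aw s c ^ (i + 1 + 4 * l')) u := by
      intro l l' a b e
      apply hu (4 * (l' - l) - 1) (by omega)
      rw [show i + 1 + 4 * l' = (i + 1 + 4 * l) + (4 * (l' - l) - 1 + 1) by omega,
        pow_add _ (i + 1 + 4 * l), Equiv.Perm.mul_apply] at e
      exact ((aw s c ^ (i + 1 + 4 * l)).injective e).symm
    intro l hl l' hl' e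
    simp only [coe_range, Set.mem_Iio] at hl hl'
    rcases lt_trichotomy l l' with h | h | h
    · exact absurd e (key l l' h hl')
    · exact h
    · exact absurd e.symm (key l' l h hl)

lemma walk_iff (s : Equiv.Perm V) (t : Cut R T k → V) (j j' : Cut R T k) (c : Bool) (i : ℕ) :
    (aw s c ^ i) (loc s t (j, c)) = loc s t (j', !c) ↔ (aw s c ^ (i + 1)) (t j) = t j' := by
  cases c
  · simp only [aw, loc, Bool.false_eq_true, if_false, Bool.not_false, if_true]
    rw [pow_succ', Equiv.Perm.mul_apply, Equiv.Perm.inv_eq_iff_eq]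
  · simp only [aw, loc, if_true, Bool.not_true, Bool.false_eq_true, if_false]
    rw [pow_succ, Equiv.Perm.mul_apply]

lemma first_of_win {s : Equiv.Perm V} {t : Cut R T k → V} {j : Cut R T k} {c : Bool} {N : ℕ}
    (Q : Cut R T k → Prop) (h1 : ∃ j', t j' ∈ Win s c N (t j))
    (h2 : ∀ j', t j' ∈ Win s c N (t j) → Q j') : ∃ j', Q j' ∧ First s t (j, c) (j', !c) := by
  classical
  have hex : ∃ i, ∃ j', (aw s c ^ (i + 1)) (t j) = t j' := by
    obtain ⟨j', h⟩ := h1
    obtain ⟨i, -, e⟩ := mem_image.mp h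
    exact ⟨i, j', e⟩
  obtain ⟨j', hj'⟩ := Nat.find_spec hex
  refine ⟨j', h2 j' ?_, Nat.find hex, (walk_iff s t j j' c _).mpr hj', rfl, ?_⟩
  · obtain ⟨j'', h⟩ := h1
    obtain ⟨i, hi, e⟩ := mem_image.mp h
    have := Nat.find_min' hex ⟨j'', e⟩
    exact mem_image.mpr ⟨_, mem_range.mpr (lt_of_le_of_lt this (mem_range.mp hi)), hj'⟩
  · rintro l hl ⟨j'', c''⟩ hc e
    simp only at hc
    subst hc
    exact Nat.find_min hex hl ⟨j'', (walk_iff s t j j'' c l).mp e⟩

open Classical in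
/-- good placements of the chain cuts -/
noncomputable def Nice (pos : V → Fin 4) (s : Equiv.Perm V) (sp : Fin R → V)
    (τ : Cut R T k → Fin 4) (L : ℕ) : Finset (Chn R × Fin (T + 1) → V) :=
  (Fintype.piFinset (fun x => fib pos (τ (Sum.inr (Sum.inl x))))).filter
    (fun γ => ∀ x, (∀ r, γ x ∉ Near s L (sp r)) ∧ ∀ x', x' ≠ x → γ x ∉ Near s L (γ x'))

lemma mem_Nice {pos : V → Fin 4} {s : Equiv.Perm V} {sp : Fin R → V}
    {τ : Cut R T k → Fin 4} {L : ℕ} {γ : Chn R × Fin (T + 1) → V} :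
    γ ∈ Nice pos s sp τ L ↔ (∀ x, pos (γ x) = τ (Sum.inr (Sum.inl x))) ∧
      ∀ x, (∀ r, γ x ∉ Near s L (sp r)) ∧ ∀ x', x' ≠ x → γ x ∉ Near s L (γ x') := by
  simp only [Nice, mem_filter, Fintype.mem_piFinset, mem_fib]

theorem card_Nice {pos : V → Fin 4} {n : ℕ} (hn : ∀ q, cnt pos univ q = n) (s : Equiv.Perm V)
    (sp : Fin R → V) (τ : Cut R T k → Fin 4) (L I : ℕ) (hI : I = 2 * R * (T + 1)) :
    n ^ I * n ≤ (Nice pos s sp τ L).card * n + I * (n ^ I * ((R + I) * (2 * L + 1))) := by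
  classical
  have hI' : Fintype.card (Chn R × Fin (T + 1)) = I := by simp [hI]; ring
  have hfib : ∀ q, (fib pos q).card = n := hn
  obtain ⟨A, hA⟩ : ∃ A : Chn R × Fin (T + 1) → Finset V,
    A = fun x => fib pos (τ (Sum.inr (Sum.inl x))) := ⟨_, rfl⟩
  have hpi : (Fintype.piFinset A).card = n ^ I := by
    rw [Fintype.card_piFinset, hA]
    simp only [hfib, prod_const, card_univ, hI']
  obtain ⟨B, hB⟩ : ∃ B : Chn R × Fin (T + 1) → (Chn R × Fin (T + 1) → V) → Finset V,
    B = fun x γ => univ.biUnion (fun r => Near s L (sp r)) ∪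
      (univ.erase x).biUnion (fun x' => Near s L (γ x')) := ⟨_, rfl⟩
  have hcov : Fintype.piFinset A ⊆ Nice pos s sp τ L ∪
      univ.biUnion (fun x => (Fintype.piFinset A).filter (fun γ => γ x ∈ B x γ)) := by
    intro γ hγ
    rw [mem_union]
    by_contra hcon
    push Not at hcon
    apply hcon.1
    rw [mem_Nice]
    refine ⟨fun x => by simpa [hA, mem_fib] using Fintype.mem_piFinset.mp hγ x, fun x => ?_⟩
    have : γ x ∉ B x γ := fun h => hcon.2 (mem_biUnion.mpr ⟨x, mem_univ _, mem_filter.mpr ⟨hγ, h⟩⟩)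
    simpa [hB] using this
  have hbad : ∀ x, ((Fintype.piFinset A).filter (fun γ => γ x ∈ B x γ)).card * n ≤
      n ^ I * ((R + I) * (2 * L + 1)) := by
    intro x
    have := resample_pi A x _ (filter_subset (fun γ => γ x ∈ B x γ) _) ((R + I) * (2 * L + 1)) ?_
    · rwa [hpi, show (A x).card = n by rw [hA]; exact hfib _] at this
    · intro γ _
      refine le_trans (card_le_card (t := B x γ) ?_) ?_
      · intro v hv
        have := (mem_filter.mp (mem_filter.mp hv).2).2
        simp only [Function.update_self, hB, mem_union, mem_biUnion, mem_erase] at this ⊢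
        rcases this with h | ⟨x', h, h'⟩
        · exact Or.inl h
        · exact Or.inr ⟨x', h, by rwa [Function.update_of_ne h.1] at h'⟩
      · rw [hB]
        refine (card_union_le _ _).trans ?_
        rw [add_mul]
        apply Nat.add_le_add
        · refine (card_biUnion_le_card_mul _ _ _ (fun r _ => card_Near s L _)).trans ?_
          simp
        · refine (card_biUnion_le_card_mul _ _ _ (fun r _ => card_Near s L _)).trans ?_
          apply Nat.mul_le_mul_right
          rw [← hI']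
          exact card_le_univ _
  have h1 := (card_le_card hcov).trans ((card_union_le _ _).trans
    (Nat.add_le_add_left card_biUnion_le _))
  rw [hpi] at h1
  refine (Nat.mul_le_mul_right n h1).trans ?_
  rw [add_mul, sum_mul]
  apply Nat.add_le_add_left
  refine (sum_le_sum (fun x _ => hbad x)).trans ?_
  rw [sum_const, card_univ, hI', smul_eq_mul]

open Classical in
/-- good placements of the generic cuts -/
noncomputable def GoodB (pos : V → Fin 4) (s : Equiv.Perm V) (sp : Fin R → V) (b : Bits R T)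
    (τ : Cut R T k → Fin 4) (r₀ : Fin R) (g₀ : Fin k) (γ : Chn R × Fin (T + 1) → V) :
    Finset (Fin k → V) :=
  univ.filter (fun β => (∀ g, pos (β g) = τ (Sum.inr (Sum.inr g))) ∧ Sep s (tl sp γ β) ∧
    (∀ i t', ∃ g c, First s (tl sp γ β) (ye b i t') (gn g c)) ∧
    First s (tl sp γ β) (xo b (r₀, true) (Fin.last T)) (gn g₀ (b (r₀, true) (Fin.last T))))

lemma mem_GoodB {pos : V → Fin 4} {s : Equiv.Perm V} {sp : Fin R → V} {b : Bits R T}
    {τ : Cut R T k → Fin 4} {r₀ : Fin R} {g₀ : Fin k} {γ : Chn R × Fin (T + 1) → V}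
    {β : Fin k → V} : β ∈ GoodB pos s sp b τ r₀ g₀ γ ↔
    (∀ g, pos (β g) = τ (Sum.inr (Sum.inr g))) ∧ Sep s (tl sp γ β) ∧
    (∀ i t', ∃ g c, First s (tl sp γ β) (ye b i t') (gn g c)) ∧
    First s (tl sp γ β) (xo b (r₀, true) (Fin.last T)) (gn g₀ (b (r₀, true) (Fin.last T))) := by
  simp only [GoodB, mem_filter, mem_univ, true_and]

lemma good_of_avoid {pos : V → Fin 4} {s : Equiv.Perm V} (hs : ∀ v, pos (s v) = pos v + 1)
    {sp : Fin R → V} (hsp0 : ∀ r, pos (sp r) = 0) (hspi : Function.Injective sp)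
    (hsp : ∀ W : Finset V, W.Nonempty → (∀ v ∈ W, s v ∈ W) → ∃ r, sp r ∈ W)
    {b : Bits R T} {τ : Cut R T k → Fin 4} {r₀ : Fin R} {g₀ : Fin k} {L N₁ N₂ : ℕ} (hL : 2 ≤ L)
    (hN₁ : N₁ ≤ L) (hN₂ : N₂ ≤ L)
    {γ : Chn R × Fin (T + 1) → V} (hγ : γ ∈ Nice pos s sp τ L) {β : Fin k → V}
    (h0 : ∀ g, pos (β g) = τ (Sum.inr (Sum.inr g)))
    (h1 : β g₀ ∈ Win s (!b (r₀, true) (Fin.last T)) N₂ (γ ((r₀, true), Fin.last T)))
    (h2 : ∀ r, β g₀ ∉ Near s 2 (sp r)) (h3 : ∀ x, β g₀ ∉ Near s 2 (γ x))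
    (h4 : ∀ g, g ≠ g₀ →
      β g ∉ Win s (!b (r₀, true) (Fin.last T)) N₂ (γ ((r₀, true), Fin.last T)))
    (h5 : ∀ g, g ≠ g₀ → ∀ j : Cut R T k, j ≠ Sum.inr (Sum.inr g) → β g ∉ Near s 2 (tl sp γ β j))
    (h6 : ∀ x : Chn R × Fin (T + 1), ∃ g, β g ∈ Win s (b x.1 x.2) N₁ (γ x)) :
    β ∈ GoodB pos s sp b τ r₀ g₀ γ := by
  rw [mem_Nice] at hγ
  have hwin : ∀ x c N, N ≤ L → ∀ j : Cut R T k, tl sp γ β j ∈ Win s c N (γ x) →
      ∃ g, j = Sum.inr (Sum.inr g) := by
    intro x c N hN j hj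
    obtain ⟨l, hl, e⟩ := mem_image.mp hj
    rw [mem_range] at hl
    have hnear : γ x ∈ Near s L (tl sp γ β j) :=
      Near_symm (e ▸ aw_pow_mem_Near s c (by omega) _)
    rcases j with r | x' | g
    · exact absurd hnear ((hγ.2 x).1 r)
    · by_cases h : x' = x
      · subst h
        exact absurd e (no_short hsp (hγ.2 x').1 c (by omega))
      · exact absurd hnear ((hγ.2 x).2 x' h)
    · exact ⟨g, rfl⟩
  rw [mem_GoodB]
  refine ⟨h0, ?_, ?_, ?_⟩
  · have key : ∀ j j' : Cut R T k, j ≠ j' → (∃ g, j = Sum.inr (Sum.inr g)) ∨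
        ((∃ x, j = Sum.inr (Sum.inl x)) ∧ ∀ g, j' ≠ Sum.inr (Sum.inr g)) →
        tl sp γ β j ∉ Near s 2 (tl sp γ β j') := by
      rintro j j' hne (⟨g, rfl⟩ | ⟨⟨x, rfl⟩, h⟩)
      · by_cases hg : g = g₀
        · subst hg
          rcases j' with r | x | g'
          · exact h2 r
          · exact h3 x
          · exact fun h => h5 g' (by rintro rfl; exact hne rfl) _ hne (Near_symm h)
        · exact h5 g hg j' hne.symm
      · rcases j' with r | x' | g'
        · exact fun h => (hγ.2 x).1 r (Near_mono hL h)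
        · exact fun h => (hγ.2 x).2 x' (by rintro rfl; exact hne rfl) (Near_mono hL h)
        · exact absurd rfl (h g')
    intro j j' hne z hz e
    have hnear : tl sp γ β j' ∈ Near s 2 (tl sp γ β j) := mem_Near.mpr ⟨z, hz, e⟩
    rcases j with r | x | g <;> rcases j' with r' | x' | g'
    · simp only [tl, Sum.elim_inl] at e
      have hp := congrArg pos e
      rw [abs_le] at hz
      obtain ⟨z1, z2⟩ := hz
      interval_cases z
      · rw [show s ^ (-2 : ℤ) = s⁻¹ * s⁻¹ by group, Equiv.Perm.mul_apply, pos_inv hs, pos_inv hs,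
          hsp0, hsp0] at hp
        exact absurd hp (by decide)
      · rw [zpow_neg_one, pos_inv hs, hsp0, hsp0] at hp
        exact absurd hp (by decide)
      · exact hne (by rw [hspi e])
      · rw [zpow_one, hs, hsp0, hsp0] at hp
        exact absurd hp (by decide)
      · rw [zpow_two, Equiv.Perm.mul_apply, hs, hs, hsp0, hsp0] at hp
        exact absurd hp (by decide)
    · exact key _ _ hne.symm (Or.inr ⟨⟨_, rfl⟩, by simp⟩) hnear
    · exact key _ _ hne.symm (Or.inl ⟨_, rfl⟩) hnear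
    · exact key _ _ hne (Or.inr ⟨⟨_, rfl⟩, by simp⟩) (Near_symm hnear)
    · exact key _ _ hne (Or.inr ⟨⟨_, rfl⟩, by simp⟩) (Near_symm hnear)
    · exact key _ _ hne.symm (Or.inl ⟨_, rfl⟩) hnear
    · exact key _ _ hne (Or.inl ⟨_, rfl⟩) (Near_symm hnear)
    · exact key _ _ hne (Or.inl ⟨_, rfl⟩) (Near_symm hnear)
    · exact key _ _ hne (Or.inl ⟨_, rfl⟩) (Near_symm hnear)
  · intro i t'
    obtain ⟨g, hg⟩ := h6 (i, t')
    obtain ⟨j', ⟨g', rfl⟩, hf⟩ := first_of_win (s := s) (t := tl sp γ β)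
      (j := Sum.inr (Sum.inl (i, t'))) (c := b i t') (N := N₁)
      (fun j => ∃ g, j = Sum.inr (Sum.inr g)) ⟨Sum.inr (Sum.inr g), hg⟩ (hwin _ _ _ hN₁)
    exact ⟨g', _, hf⟩
  · obtain ⟨j', rfl, hf⟩ := first_of_win (s := s) (t := tl sp γ β)
      (j := Sum.inr (Sum.inl ((r₀, true), Fin.last T))) (c := !b (r₀, true) (Fin.last T)) (N := N₂)
      (fun j => j = Sum.inr (Sum.inr g₀)) ⟨Sum.inr (Sum.inr g₀), h1⟩ (by
        intro j hj
        obtain ⟨g, rfl⟩ := hwin _ _ _ hN₂ j hj
        by_contra hcon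
        exact h4 g (by rintro rfl; exact hcon rfl) hj)
    rw [Bool.not_not] at hf
    exact hf

theorem card_GoodB {pos : V → Fin 4} {n : ℕ} (hn : ∀ q, cnt pos univ q = n) {s : Equiv.Perm V}
    (hs : ∀ v, pos (s v) = pos v + 1)
    {sp : Fin R → V} (hsp0 : ∀ r, pos (sp r) = 0) (hspi : Function.Injective sp)
    (hsp : ∀ W : Finset V, W.Nonempty → (∀ v ∈ W, s v ∈ W) → ∃ r, sp r ∈ W)
    (b : Bits R T) {τ : Cut R T k → Fin 4} (r₀ : Fin R) (g₀ : Fin k) {L n₁ n₂ I K : ℕ}
    (hI : I = 2 * R * (T + 1)) (hK : K = R + I + k) (hL : 2 ≤ L)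
    (hN₁ : 4 * n₁ ≤ L) (hN₂ : 4 * n₂ ≤ L) (hn0 : 0 < n) (hn1 : 0 < n₁)
    (c1 : 4 * k * (4 * n₂ + 5 * K) ≤ n) (c2 : 4 * I * n ≤ k * n₁)
    {γ : Chn R × Fin (T + 1) → V} (hγ : γ ∈ Nice pos s sp τ L) :
    (n₂ - 5 * K) * n ^ (k - 1) ≤ 2 * (GoodB pos s sp b τ r₀ g₀ γ).card := by
  classical
  have hI' : Fintype.card (Chn R × Fin (T + 1)) = I := by simp [hI]; ring
  have hK' : Fintype.card (Cut R T k) = K := by simp [hK, hI]; ring
  have hfib : ∀ q, (fib pos q).card = n := hn
  have hk : 0 < k := g₀.pos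
  have hγ' := mem_Nice.mp hγ
  obtain ⟨W, hW⟩ : ∃ W, W = Win s (!b (r₀, true) (Fin.last T)) (4 * n₂)
    (γ ((r₀, true), Fin.last T)) := ⟨_, rfl⟩
  obtain ⟨A₀, hA₀⟩ : ∃ A₀, A₀ = (W ∩ fib pos (τ (Sum.inr (Sum.inr g₀)))) \
    (univ.biUnion (fun r => Near s 2 (sp r)) ∪ univ.biUnion (fun x => Near s 2 (γ x))) := ⟨_, rfl⟩
  have hA₀c : n₂ - 5 * K ≤ A₀.card := by
    rw [hA₀]
    refine le_trans ?_ (le_card_sdiff _ _)
    have a := card_Win_fib hs (!b (r₀, true) (Fin.last T)) n₂
      (fun i hi => no_short hsp (hγ'.2 ((r₀, true), Fin.last T)).1 _ (by omega))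
      (τ (Sum.inr (Sum.inr g₀)))
    rw [← hW] at a
    have c := card_union_le (univ.biUnion (fun r => Near s 2 (sp r)))
      (univ.biUnion (fun x => Near s 2 (γ x)))
    have d := card_biUnion_le_card_mul univ (fun r => Near s 2 (sp r)) _
      (fun r _ => card_Near s 2 _)
    have e := card_biUnion_le_card_mul univ (fun x => Near s 2 (γ x)) _
      (fun r _ => card_Near s 2 _)
    rw [card_univ, hI'] at e
    rw [card_univ, Fintype.card_fin] at d
    omega
  obtain ⟨A, hA⟩ : ∃ A : Fin k → Finset V,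
    A = fun g => if g = g₀ then A₀ else fib pos (τ (Sum.inr (Sum.inr g))) := ⟨_, rfl⟩
  have hprod : ∀ (B : Fin k → Finset V), (Fintype.piFinset
      (fun g => if g = g₀ then A₀ else B g)).card =
      A₀.card * ∏ g ∈ univ.erase g₀, (B g).card := by
    intro B
    rw [Fintype.card_piFinset, ← mul_prod_erase univ _ (mem_univ g₀), if_pos rfl]
    congr 1
    apply prod_congr rfl
    intro g hg
    rw [if_neg (mem_erase.mp hg).1]
  have hpi : (Fintype.piFinset A).card = A₀.card * n ^ (k - 1) := by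
    rw [hA, hprod]
    simp [hfib]
  obtain ⟨B, hB⟩ : ∃ B : Fin k → (Fin k → V) → Finset V, B = fun g β => W ∪
      (univ.erase (Sum.inr (Sum.inr g))).biUnion
        (fun j : Cut R T k => Near s 2 (tl sp γ β j)) := ⟨_, rfl⟩
  obtain ⟨M, hM⟩ : ∃ M : Chn R × Fin (T + 1) → Finset (Fin k → V), M = fun x =>
    Fintype.piFinset (fun g => if g = g₀ then A₀ else
      fib pos (τ (Sum.inr (Sum.inr g))) \ Win s (b x.1 x.2) (4 * n₁) (γ x)) := ⟨_, rfl⟩
  have hcov : Fintype.piFinset A ⊆ GoodB pos s sp b τ r₀ g₀ γ ∪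
      ((univ.erase g₀).biUnion (fun g => (Fintype.piFinset A).filter (fun β => β g ∈ B g β)) ∪
        univ.biUnion M) := by
    intro β hβ
    rw [mem_union, mem_union]
    by_contra hcon
    push Not at hcon
    obtain ⟨q1, q2, q3⟩ := hcon
    have hβ' := Fintype.mem_piFinset.mp hβ
    have a0 : β g₀ ∈ A₀ := by simpa [hA] using hβ' g₀
    have a1 : ∀ g, g ≠ g₀ → β g ∈ fib pos (τ (Sum.inr (Sum.inr g))) := by
      intro g hg; simpa [hA, hg] using hβ' g
    have a2 : ∀ g, g ≠ g₀ → β g ∉ B g β := fun g hg h =>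
      q2 (mem_biUnion.mpr ⟨g, mem_erase.mpr ⟨hg, mem_univ _⟩, mem_filter.mpr ⟨hβ, h⟩⟩)
    have a0' := a0
    simp only [hA₀, mem_sdiff, mem_inter, mem_union, mem_biUnion, mem_univ, true_and, not_or,
      not_exists, mem_fib] at a0'
    apply q1
    apply good_of_avoid hs hsp0 hspi hsp hL hN₁ hN₂ hγ _ (hW ▸ a0'.1.1) a0'.2.1 a0'.2.2
    · intro g hg h
      exact a2 g hg (by rw [hB]; exact mem_union_left _ (hW ▸ h))
    · intro g hg j hj h
      exact a2 g hg (by
        rw [hB]; exact mem_union_right _ (mem_biUnion.mpr ⟨j, mem_erase.mpr ⟨hj, mem_univ _⟩, h⟩))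
    · intro x
      by_contra hcon
      push Not at hcon
      apply q3
      refine mem_biUnion.mpr ⟨x, mem_univ _, ?_⟩
      rw [hM, Fintype.mem_piFinset]
      intro g
      by_cases hg : g = g₀
      · rw [if_pos hg, hg]; exact a0
      · rw [if_neg hg]; exact mem_sdiff.mpr ⟨a1 g hg, hcon g⟩
    · intro g
      by_cases hg : g = g₀
      · rw [hg]; exact a0'.1.2
      · exact mem_fib.mp (a1 g hg)
  have hbad1 : ∀ g ∈ univ.erase g₀, ((Fintype.piFinset A).filter (fun β => β g ∈ B g β)).card * n ≤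
      (Fintype.piFinset A).card * (4 * n₂ + 5 * K) := by
    intro g hg
    have hg := (mem_erase.mp hg).1
    have := resample_pi A g _ (filter_subset (fun β => β g ∈ B g β) _) (4 * n₂ + 5 * K) ?_
    · rwa [show (A g).card = n by rw [hA]; simp only [if_neg hg]; exact hfib _] at this
    · intro β _
      refine le_trans (card_le_card (t := B g β) ?_) ?_
      · intro v hv
        have := (mem_filter.mp (mem_filter.mp hv).2).2
        simp only [Function.update_self, hB, mem_union, mem_biUnion, mem_erase] at this ⊢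
        rcases this with h | ⟨j, h, h'⟩
        · exact Or.inl h
        · refine Or.inr ⟨j, h, ?_⟩
          have : tl sp γ (Function.update β g v) j = tl sp γ β j := by
            rcases j with r | x | g'
            · rfl
            · rfl
            · exact Function.update_of_ne (by rintro rfl; exact h.1 rfl) _ _
          rwa [this] at h'
      · rw [hB]
        refine (card_union_le _ _).trans (Nat.add_le_add (hW ▸ card_Win _ _ _ _) ?_)
        refine (card_biUnion_le_card_mul _ _ _ (fun r _ => card_Near s 2 _)).trans ?_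
        rw [mul_comm]
        apply Nat.mul_le_mul_left
        rw [← hK']
        exact card_le_univ _
  have hbad2 : ∀ x, (M x).card * (k * n₁) ≤ (Fintype.piFinset A).card * n := by
    intro x
    rw [hM, hpi]
    simp only
    rw [hprod, mul_assoc, mul_assoc]
    apply Nat.mul_le_mul_left
    have a : ∀ q, (fib pos q \ Win s (b x.1 x.2) (4 * n₁) (γ x)).card + n₁ ≤ n := by
      intro q
      have a := card_Win_fib hs (b x.1 x.2) n₁
        (fun i hi => no_short hsp (hγ'.2 x).1 _ (by omega)) q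
      have c := card_sdiff_add_card_inter (fib pos q) (Win s (b x.1 x.2) (4 * n₁) (γ x))
      rw [inter_comm, hfib] at c
      omega
    have hle : n₁ ≤ n := le_trans (Nat.le_add_left _ _) (a 0)
    have c := prod_le_pow_card (univ.erase g₀)
      (fun g => (fib pos (τ (Sum.inr (Sum.inr g))) \ Win s (b x.1 x.2) (4 * n₁) (γ x)).card)
      (n - n₁) (fun g _ => by have := a (τ (Sum.inr (Sum.inr g))); omega)
    rw [card_erase_of_mem (mem_univ _), card_univ, Fintype.card_fin] at c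
    refine (Nat.mul_le_mul_right _ c).trans ?_
    have d := pow_add_mul_le_add_pow (a := n - n₁) (b := n₁) (Nat.zero_le _) (Nat.zero_le _) k
    rw [Nat.sub_add_cancel hle] at d
    rw [← pow_succ, Nat.sub_add_cancel hk]
    refine le_trans ?_ d
    rw [Nat.cast_id, mul_left_comm, ← mul_assoc]
    exact Nat.le_add_left _ _
  have h1 := (card_le_card hcov).trans ((card_union_le _ _).trans
    (Nat.add_le_add_left ((card_union_le _ _).trans
      (Nat.add_le_add card_biUnion_le card_biUnion_le)) _))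
  have h2 : 4 * ∑ g ∈ univ.erase g₀, ((Fintype.piFinset A).filter (fun β => β g ∈ B g β)).card ≤
      (Fintype.piFinset A).card := by
    apply Nat.le_of_mul_le_mul_right _ hn0
    rw [mul_assoc, sum_mul]
    refine (Nat.mul_le_mul_left 4 (sum_le_sum hbad1)).trans ?_
    rw [sum_const, smul_eq_mul, card_erase_of_mem (mem_univ _), card_univ, Fintype.card_fin]
    refine le_trans ?_ (Nat.mul_le_mul_left _ c1)
    rw [mul_left_comm (Fintype.piFinset A).card, ← mul_assoc]
    apply Nat.mul_le_mul_right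
    omega
  have h3 : 4 * ∑ x, (M x).card ≤ (Fintype.piFinset A).card := by
    apply Nat.le_of_mul_le_mul_right _ (Nat.mul_pos hk hn1)
    rw [mul_assoc, sum_mul]
    refine (Nat.mul_le_mul_left 4 (sum_le_sum (fun x _ => hbad2 x))).trans ?_
    rw [sum_const, smul_eq_mul, card_univ, hI']
    refine le_trans (le_of_eq ?_) (Nat.mul_le_mul_left _ c2)
    ring
  have h4 := Nat.mul_le_mul_right (n ^ (k - 1)) hA₀c
  rw [← hpi] at h4
  omega

end Pool.Agent.MP_755159_pr
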