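import Pool.Agent.MP_755159_pr.Place

/-! Overlap estimates for two placements. -/

set_option linter.unusedSectionVars false

namespace Pool.Agent.MP_755159_pr

open Finset

variable {V : Type} [Fintype V] [DecidableEq V] {R T k : ℕ}

/-- valid configurations -/
structure Val (pos : V → Fin 4) (s : Equiv.Perm V) (sp : Fin R → V) (b : Bits R T)
    (τ : Cut R T k → Fin 4) (t : Cut R T k → V) (p : End R T k → End R T k) : Prop where
  hsp : ∀ r, t (Sum.inl r) = sp r
  hpos : ∀ j, pos (t j) = τ j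
  sep : Sep s t
  tp : IsTP (tyE τ) (XX b) p
  chn : ∀ e, e ∉ XX b → tyE τ (ch b e) = tyE τ e + 2
  ac : Acyc (XX b) kap p

lemma card_End {K : ℕ} (hK : K = R + 2 * R * (T + 1) + k) : Fintype.card (End R T k) = 2 * K := by
  simp [hK]; ring

lemma half_TP {D : Type} [Fintype D] [DecidableEq D] {ty : D → Fin 4} {X : Finset D} {P : D → D}
    (h : IsTP ty X P) : ∃ S ⊆ X, (∀ x ∈ S, P x ∉ S) ∧ (∀ x ∈ X, x ∈ S ∨ P x ∈ S) ∧
      2 * S.card ≤ X.card ∧ S.card = cnt ty X 0 + cnt ty X 1 := by
  have h1 : ∀ x ∈ X.filter (fun d => ty d = 0 ∨ ty d = 1),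
      P x ∉ X.filter (fun d => ty d = 0 ∨ ty d = 1) := by
    intro x hx hx'
    rw [mem_filter] at hx hx'
    have q : ∀ q : Fin 4, q = 0 ∨ q = 1 → ¬ (q + 2 = 0 ∨ q + 2 = 1) := by decide
    exact q _ hx.2 ((h.2 x hx.1).2.2 ▸ hx'.2)
  refine ⟨X.filter (fun d => ty d = 0 ∨ ty d = 1), filter_subset _ _, h1, ?_, ?_, ?_⟩
  · intro x hx
    simp only [mem_filter, hx, (h.2 x hx).1, (h.2 x hx).2.2, true_and]
    generalize ty x = q
    revert q; decide
  · have a := card_sdiff_add_card_eq_card (filter_subset (fun d => ty d = 0 ∨ ty d = 1) X)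
    have c : (X.filter (fun d => ty d = 0 ∨ ty d = 1)).card ≤
        (X \ X.filter (fun d => ty d = 0 ∨ ty d = 1)).card := by
      apply card_le_card_of_injOn P
      · intro x hx
        exact mem_coe.mpr (mem_sdiff.mpr ⟨(h.2 x (mem_filter.mp hx).1).1, h1 x hx⟩)
      · intro x hx y hy e
        rw [← (h.2 x (mem_filter.mp hx).1).2.1, e, (h.2 y (mem_filter.mp hy).1).2.1]
    omega
  · rw [filter_or, card_union_of_disjoint]
    · rfl
    · rw [disjoint_filter]; intro x _ e; rw [e]; decide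

lemma loc_eq_iff (s : Equiv.Perm V) (t t' : Cut R T k → V) (e : End R T k) :
    loc s t e = loc s t' e ↔ t e.1 = t' e.1 := by
  unfold loc; split_ifs <;> simp

lemma Rl_Loc (pos : V → Fin 4) (s : Equiv.Perm V) (t : Cut R T k → V)
    (P : End R T k → End R T k) : Loc pos (univ.image (loc s t)) (Rl s t P) := by
  constructor
  · intro m _ h a ha
    obtain ⟨e, -, rfl⟩ := mem_image.mp ha
    rw [h e]
    exact mem_image_of_mem _ (mem_univ _)
  · intro m m' h h' e
    rw [h' _ (mem_image_of_mem _ (mem_univ _)), h e]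

section
variable {pos : V → Fin 4} {n : ℕ} (hn : ∀ q, cnt pos univ q = n) {s : Equiv.Perm V}
  (hs : ∀ v, pos (s v) = pos v + 1) {sp : Fin R → V} {K : ℕ} (hK : K = R + 2 * R * (T + 1) + k)
include hn hs hK

theorem first_moment {b : Bits R T} {τ : Cut R T k → Fin 4} {t : Cut R T k → V}
    {p : End R T k → End R T k} (h : Val pos s sp b τ t p) (hn0 : 0 < n) :
    (TP pos univ).card ≤ n ^ K * (Ext pos (Rl s t (PP b p))).card := by
  have hP := PP_isTP h.tp h.chn
  have hinj := loc_inj hs h.sep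
  obtain ⟨S, -, a, c, d, -⟩ := half_TP hP
  rw [card_univ, card_End hK] at d
  refine (Ext_down_iter hn (loc s t) (fun e => loc s t (PP b p e)) S ?_ ?_).trans
    (Nat.mul_le_mul (Nat.pow_le_pow_right hn0 (by omega)) (Ext_congr ?_))
  · intro x _
    rw [pos_loc hs h.hpos, pos_loc hs h.hpos, hP.pos_eq]
  · intro x hx y hy hxy
    refine ⟨fun e => hxy (hinj e), fun e => a y hy (hinj e ▸ hx), fun e => hxy (hP.inj (hinj e))⟩
  · intro m hm hS e
    rcases c e (mem_univ _) with h' | h'
    · exact hS e h'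
    · have := hS _ h'
      rw [hP.invol] at this
      rw [← this, hm.invol]

theorem removal {Q : (V → V) → Prop} {A : Finset V} (hQ : Loc pos A Q) (hA : A.card ≤ 2 * K)
    {t : Cut R T k → V} (hsep : Sep s t) (P : End R T k → End R T k) (D : Finset (End R T k))
    (h1 : ∀ x ∈ D, loc s t x ∉ A) (h2 : ∀ x ∈ D, P x ∉ D) :
    (Ext pos (fun m => Q m ∧ Rl s t P m)).card * (n - 10 * K) ^ D.card ≤
      (Ext pos (fun m => Q m ∧
        ∀ e, e ∉ D → P e ∉ D → m (loc s t e) = loc s t (P e))).card := by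
  have hinj := loc_inj hs hsep
  obtain ⟨S, hS⟩ : ∃ S : Finset (End R T k), ∀ e, e ∈ S ↔ e ∉ D ∧ P e ∉ D := by
    classical
    exact ⟨univ.filter (fun e => e ∉ D ∧ P e ∉ D), by simp⟩
  have := Ext_up_iter hn (hQ.add S (loc s t) (fun e => loc s t (P e))) (loc s t)
    (fun e => loc s t (P e)) (10 * K) D ?_ ?_ ?_
  · refine le_trans (Nat.mul_le_mul_right _ (Ext_congr ?_)) (this.trans (Ext_congr ?_))
    · intro m _ h
      exact ⟨⟨h.1, fun x _ => h.2 x⟩, fun x _ => h.2 x⟩
    · intro m _ h
      exact ⟨h.1, fun e a c => h.2 e (by simp [hS, a, c])⟩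
  · intro x hx
    simp only [mem_union, mem_image, not_or, not_exists, not_and, hS]
    exact ⟨h1 x hx, fun y hy e => hy.1 (hinj e ▸ hx), fun y hy e => hy.2 (hinj e ▸ hx)⟩
  · intro x hx y hy hxy
    exact ⟨fun e => hxy (hinj e), fun e => h2 y hy (hinj e ▸ hx)⟩
  · have a := card_union_le A (S.image (loc s t) ∪ S.image (fun e => loc s t (P e)))
    have b := card_union_le (S.image (loc s t)) (S.image (fun e => loc s t (P e)))
    have c := card_image_le (s := S) (f := loc s t)
    have d := card_image_le (s := S) (f := fun e => loc s t (P e))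
    have e := card_le_univ S
    have f := card_le_univ D
    rw [card_End hK] at e f
    omega

theorem untouched {Q : (V → V) → Prop} {A : Finset V} (hQ : Loc pos A Q) (hA : A.card ≤ 2 * K)
    {b : Bits R T} {τ : Cut R T k → Fin 4} {t : Cut R T k → V}
    {p : End R T k → End R T k} (h : Val pos s sp b τ t p) {E : ℕ}
    (hE : ∀ q, cnt (tyE τ) (XX b) q = E) (h1 : ∀ x ∈ XX b, loc s t x ∉ A) :
    (Ext pos (fun m => Q m ∧ Rl s t (PP b p) m)).card * (n - 10 * K) ^ (2 * E) ≤
      (Ext pos (fun m => Q m ∧ ∀ e, e ∉ XX b → m (loc s t e) = loc s t (ch b e))).card := by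
  obtain ⟨S, hS, a, -, -, d⟩ := half_TP h.tp
  rw [hE, hE, ← two_mul] at d
  rw [← d]
  refine (removal hn hs hK hQ hA h.sep (PP b p) S (fun x hx => h1 x (hS hx)) ?_).trans
    (Ext_congr ?_)
  · intro x hx
    rw [PP_of_mem p (hS hx)]
    exact a x hx
  · intro m _ hm
    refine ⟨hm.1, fun e he => ?_⟩
    have := hm.2 e (fun h => he (hS h))
    rw [PP_of_notMem h.tp he] at this
    exact this (fun h => ch_notMem he (hS h))

end

lemma chain_prefix {s : Equiv.Perm V} {t t' : Cut R T k → V}
    (h0 : ∀ r, t (Sum.inl r) = t' (Sum.inl r)) {b b' : Bits R T} {m : V → V} (i : Chn R)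
    (d : Fin (T + 1)) (hb : ∀ l < d, b i l = b' i l)
    (h1 : ∀ l ≤ d, m (loc s t (ch b (ye b i l))) = loc s t (ye b i l))
    (h2 : ∀ l ≤ d, m (loc s t' (ch b' (ye b' i l))) = loc s t' (ye b' i l)) :
    ∀ l ≤ d, loc s t (ye b i l) = loc s t' (ye b' i l) := by
  intro l
  induction l using Fin.induction with
  | zero =>
    intro h
    rw [← h1 _ h, ← h2 _ h, ch_ye_zero, ch_ye_zero, (loc_eq_iff s t t' _).mpr (h0 _)]
  | succ l ih =>
    intro h
    have hl : l.castSucc < d := lt_of_lt_of_le Fin.castSucc_lt_succ h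
    rw [← h1 _ h, ← h2 _ h, ch_ye_succ, ch_ye_succ, ← fl_ye, ← fl_ye, loc_fl, loc_fl, ih hl.le]
    simp only [ye, hb _ hl]

lemma chain_edge {s : Equiv.Perm V} {t : Cut R T k → V} {b : Bits R T} {m : V → V}
    {e : End R T k} (h : m (loc s t (ch b e)) = loc s t (ch b (ch b e))) :
    m (loc s t (ch b e)) = loc s t e := by rwa [ch_ch] at h

lemma unique_gamma {s : Equiv.Perm V} {sp : Fin R → V} {b : Bits R T} {m : V → V}
    {γ γ' : Chn R × Fin (T + 1) → V} {β β' : Fin k → V}
    (h : ∀ e, e ∉ XX b → m (loc s (tl sp γ β) e) = loc s (tl sp γ β) (ch b e))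
    (h' : ∀ e, e ∉ XX b → m (loc s (tl sp γ' β') e) = loc s (tl sp γ' β') (ch b e)) : γ = γ' := by
  funext ⟨i, l⟩
  have := chain_prefix (s := s) (t := tl sp γ β) (t' := tl sp γ' β') (fun _ => rfl) (b := b)
    (b' := b) (m := m) i l (fun _ _ => rfl)
    (fun l _ => chain_edge (h _ (ch_notMem (ye_notMem b i l))))
    (fun l _ => chain_edge (h' _ (ch_notMem (ye_notMem b i l)))) l le_rfl
  exact (loc_eq_iff _ _ _ _).mp this

theorem crude {pos : V → Fin 4} {s : Equiv.Perm V} {sp : Fin R → V} (Q : (V → V) → Prop)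
    {b : Bits R T} {τ : Cut R T k → Fin 4} {p : End R T k → End R T k} {ι : Type}
    (S : Finset ι) (t : ι → Cut R T k → V) (hinj : Set.InjOn t S)
    (h : ∀ i ∈ S, Val pos s sp b τ (t i) p) :
    ∑ i ∈ S, (Ext pos (fun m => Q m ∧ Rl s (t i) (PP b p) m)).card ≤ (Ext pos Q).card := by
  classical
  refine (sum_card_le_mul S _ (Ext pos Q) 1 ?_ ?_).trans (by simp)
  · intro i _ m hm
    rw [mem_Ext] at hm ⊢
    exact ⟨hm.1, hm.2.1⟩
  · intro m _
    rw [card_le_one]
    intro i hi i' hi'
    rw [mem_filter, mem_Ext] at hi hi'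
    apply hinj hi.1 hi'.1
    by_contra hcon
    obtain ⟨j, hj⟩ := Function.ne_iff.mp hcon
    obtain ⟨r, hr⟩ := full_acyc (h i hi.1).tp (h i hi.1).ac
      (univ.filter (fun e => t i e.1 ≠ t i' e.1)) ⟨(j, true), by simpa using hj⟩
      (by intro e he; simpa [fl] using he) (by
        intro e he
        simp only [mem_filter, mem_univ, true_and] at he ⊢
        intro e'
        apply he
        rw [← loc_eq_iff s] at e' ⊢
        apply hi.2.1.inj
        rw [hi.2.2.2 e, hi'.2.2.2 e, e'])
    simp only [mem_filter, mem_univ, true_and, se] at hr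
    exact hr (by rw [(h i hi.1).hsp, (h i' hi'.1).hsp])

/-- ends beyond the points of divergence -/
def inZ (b : Bits R T) (d : Chn R → Fin (T + 1)) : End R T k → Prop
  | (Sum.inl _, _) => False
  | (Sum.inr (Sum.inl (i, l)), c) => d i < l ∨ (l = d i ∧ c = !b i l)
  | (Sum.inr (Sum.inr _), _) => True

open Classical in
/-- ends beyond the points of divergence -/
noncomputable def ZZ (b : Bits R T) (d : Chn R → Fin (T + 1)) : Finset (End R T k) :=
  univ.filter (inZ b d)

lemma mem_ZZ {b : Bits R T} {d : Chn R → Fin (T + 1)} {e : End R T k} :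
    e ∈ ZZ b d ↔ inZ b d e := by simp [ZZ]

@[simp] lemma se_ZZ {b : Bits R T} {d : Chn R → Fin (T + 1)} (i : Chn R) :
    (se i : End R T k) ∉ ZZ b d := by simp [mem_ZZ, se, inZ]

@[simp] lemma ye_ZZ {b : Bits R T} {d : Chn R → Fin (T + 1)} (i : Chn R) (l : Fin (T + 1)) :
    (ye b i l : End R T k) ∈ ZZ b d ↔ d i < l := by simp [mem_ZZ, ye, inZ]

@[simp] lemma xo_ZZ {b : Bits R T} {d : Chn R → Fin (T + 1)} (i : Chn R) (l : Fin (T + 1)) :
    (xo b i l : End R T k) ∈ ZZ b d ↔ d i ≤ l := by
  simp only [mem_ZZ, xo, inZ, and_true]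
  rw [le_iff_lt_or_eq, eq_comm]

@[simp] lemma gn_ZZ {b : Bits R T} {d : Chn R → Fin (T + 1)} (g : Fin k) (c : Bool) :
    (gn g c : End R T k) ∈ ZZ b d := by simp [mem_ZZ, gn, inZ]

lemma XX_sub_ZZ (b : Bits R T) (d : Chn R → Fin (T + 1)) :
    (XX b : Finset (End R T k)) ⊆ ZZ b d := by
  intro e he
  rcases mem_XX_cases he with ⟨i, rfl⟩ | ⟨g, c, rfl⟩
  · simpa using Fin.le_last _
  · simp

lemma ch_ZZ {b : Bits R T} {d : Chn R → Fin (T + 1)} {e : End R T k} :
    e ∈ ZZ b d → ch b e ∈ ZZ b d := by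
  induction e using End.cases6 b <;> simp [Fin.le_castSucc_iff]

lemma PP_ZZ {b : Bits R T} {d : Chn R → Fin (T + 1)} {ty : End R T k → Fin 4}
    {p : End R T k → End R T k} (hp : IsTP ty (XX b) p) {e : End R T k} (he : e ∈ ZZ b d) :
    PP b p e ∈ ZZ b d := by
  by_cases h : e ∈ XX b
  · rw [PP_of_mem p h]
    exact XX_sub_ZZ b d (hp.2 e h).1
  · rw [PP_of_notMem hp h]
    exact ch_ZZ he

lemma fl_ZZ {b : Bits R T} {d : Chn R → Fin (T + 1)} {e : End R T k} :
    e ∈ ZZ b d → fl e ∉ ZZ b d → ∃ i, e = xo b i (d i) := by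
  induction e using End.cases4 b with
  | h1 i => simp
  | h2 i l => simp only [ye_ZZ, fl_ye, xo_ZZ]; intro a c; exact absurd a.le c
  | h3 i l =>
    simp only [xo_ZZ, fl_xo, ye_ZZ, not_lt]
    intro a c
    exact ⟨i, by rw [le_antisymm a c]⟩
  | h4 g c => simp

theorem touched_exists {pos : V → Fin 4} {s : Equiv.Perm V} (hs : ∀ v, pos (s v) = pos v + 1)
    {sp : Fin R → V} {b b' : Bits R T} {τ τ' : Cut R T k → Fin 4} {t t' : Cut R T k → V}
    {p p' : End R T k → End R T k} (h : Val pos s sp b τ t p) (h' : Val pos s sp b' τ' t' p')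
    {d : Chn R → Fin (T + 1)} (hd : ∀ i, b i (d i) ≠ b' i (d i))
    (hd' : ∀ i, ∀ l < d i, b i l = b' i l) {m : V → V} (hr : Rl s t (PP b p) m)
    (hr' : Rl s t' (PP b' p') m) (hx : ∃ x ∈ XX b', loc s t' x ∈ univ.image (loc s t)) :
    (∀ i, loc s t' (xo b' i (d i)) ∉ univ.image (loc s t)) ∧
    ∃ u, u ∈ ZZ b' d ∧ fl u ∈ ZZ b' d ∧ loc s t' u ∈ univ.image (loc s t) ∧
      loc s t' (fl u) ∉ univ.image (loc s t) := by
  have hz : ∀ i, loc s t' (xo b' i (d i)) ∉ univ.image (loc s t) := by
    intro i hi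
    obtain ⟨e, -, he⟩ := mem_image.mp hi
    have := chain_prefix (s := s) (t := t) (t' := t') (fun r => by rw [h.hsp, h'.hsp]) (b := b)
      (b' := b') (m := m) i (d i) (hd' i)
      (fun l _ => chain_edge (by
        rw [hr, PP_of_notMem h.tp (ch_notMem (ye_notMem b i l))]))
      (fun l _ => chain_edge (by
        rw [hr', PP_of_notMem h'.tp (ch_notMem (ye_notMem b' i l))])) (d i) le_rfl
    rw [← fl_ye, loc_fl, ← this] at he
    have hb : (!(ye b' i (d i) : End R T k).2) = (ye b i (d i) : End R T k).2 := by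
      simp only [ye]
      exact (Bool.eq_not_iff.mpr (hd i)).symm
    rw [hb] at he
    exact away_ne hs h.sep _ _ he.symm
  refine ⟨hz, ?_⟩
  by_contra hcon
  push Not at hcon
  obtain ⟨x, hx, hx'⟩ := hx
  obtain ⟨i, hi⟩ := full_acyc h'.tp h'.ac
    ((ZZ b' d).filter (fun e => loc s t' e ∈ univ.image (loc s t)))
    ⟨x, mem_filter.mpr ⟨XX_sub_ZZ b' d hx, hx'⟩⟩ (by
      intro e he
      rw [mem_filter] at he ⊢
      have : fl e ∈ ZZ b' d := by
        by_contra hc
        obtain ⟨i, rfl⟩ := fl_ZZ he.1 hc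
        exact hz i he.2
      exact ⟨this, hcon e he.1 this he.2⟩) (by
      intro e he
      rw [mem_filter] at he ⊢
      refine ⟨PP_ZZ h'.tp he.1, ?_⟩
      obtain ⟨e', -, he'⟩ := mem_image.mp he.2
      rw [← hr', ← he', hr]
      exact mem_image_of_mem _ (mem_univ _))
  exact se_ZZ i (mem_filter.mp hi).1

theorem touched_sum {pos : V → Fin 4} {n : ℕ} (hn : ∀ q, cnt pos univ q = n) {s : Equiv.Perm V}
    (hs : ∀ v, pos (s v) = pos v + 1) {sp : Fin R → V} {K : ℕ} (hK : K = R + 2 * R * (T + 1) + k)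
    (hnK : 10 * K < n)
    {Q : (V → V) → Prop} {A : Finset V} (hQ : Loc pos A Q) (hA : A.card ≤ 2 * K)
    {b : Bits R T} {τ : Cut R T k → Fin 4} {p : End R T k → End R T k}
    (d : Chn R → Fin (T + 1)) {u : End R T k} (hu : u ∈ ZZ b d) (hu' : fl u ∈ ZZ b d) {ι : Type}
    (S : Finset ι) (t : ι → Cut R T k → V) (hinj : Set.InjOn t S)
    (h : ∀ i ∈ S, Val pos s sp b τ (t i) p) (h1 : ∀ i ∈ S, ∀ x, loc s (t i) (xo b x (d x)) ∉ A)
    (h2 : ∀ i ∈ S, loc s (t i) u ∈ A) (h3 : ∀ i ∈ S, loc s (t i) (fl u) ∉ A) :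
    (∑ i ∈ S, (Ext pos (fun m => Q m ∧ Rl s (t i) (PP b p) m)).card) * (n - 10 * K) ^ (R + 1) ≤
      2 * K * (Ext pos Q).card := by
  classical
  rcases S.eq_empty_or_nonempty with rfl | ⟨i₀, hi₀⟩
  · simp
  have hp := (h i₀ hi₀).tp
  have hP := PP_isTP hp (h i₀ hi₀).chn
  obtain ⟨kz, hkz⟩ : ∃ kz : End R T k → End R T k,
    kz = fun e => if fl e ∈ ZZ b d ∧ e.1 ≠ u.1 then fl e else e := ⟨_, rfl⟩
  have hk1 : ∀ e, fl e ∈ ZZ b d → e.1 ≠ u.1 → kz e = fl e := by
    intro e a c; simp [hkz, a, c]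
  have hk2 : ∀ e, kz e = e ∨ kz e = fl e := by
    intro e; simp only [hkz]; split_ifs <;> simp
  obtain ⟨D, hDZ, hDk, huD, hDc, hD⟩ := exists_transversal (ZZ b d) (PP b p) kz
    (fun x hx => ⟨PP_ZZ hp hx, hP.invol x⟩) (fun x _ => (ne_of_ty (hP.pos_eq x)).symm)
    (by
      intro x hx
      by_cases hc : fl x ∈ ZZ b d ∧ x.1 ≠ u.1
      · rw [hk1 x hc.1 hc.2, hk1 (fl x) (by simpa using hx) hc.2]
        exact ⟨hc.1, fl_fl x⟩
      · have : kz x = x := by simp only [hkz, if_neg hc]
        rw [this, this]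
        exact ⟨hx, rfl⟩)
    (by
      intro U hUZ hne a c
      by_contra hcon
      push Not at hcon
      obtain ⟨i, hi⟩ := full_acyc hp (h i₀ hi₀).ac U hne
        (fun e he => ((hk2 e).resolve_left (hcon e he)) ▸ a e he) c
      exact se_ZZ i (hUZ hi)) u
  have hDR : R + 1 ≤ D.card := by
    have hsub : insert u (insert (fl u) (univ.image (fun x => xo b x (d x)))) ⊆
        (ZZ b d).filter (fun x => kz x = x) := by
      intro e he
      simp only [mem_insert, mem_image, mem_univ, true_and] at he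
      rw [mem_filter]
      rcases he with rfl | rfl | ⟨x, rfl⟩
      · exact ⟨hu, by simp [hkz]⟩
      · exact ⟨hu', by simp [hkz, fl]⟩
      · exact ⟨by simp, by simp [hkz]⟩
    have := card_le_card hsub
    rw [card_insert_of_notMem, card_insert_of_notMem, card_image_of_injective, card_univ,
      Fintype.card_prod, Fintype.card_fin, Fintype.card_bool] at this
    · omega
    · intro x y e
      simp only [xo, Prod.mk.injEq, Sum.inr.injEq, Sum.inl.injEq] at e
      exact e.1.1
    · intro he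
      obtain ⟨x, -, e⟩ := mem_image.mp he
      rw [← fl_fl u, ← e] at hu
      simp at hu
    · intro he
      rcases mem_insert.mp he with e | he
      · exact fl_ne u e.symm
      · obtain ⟨x, -, e⟩ := mem_image.mp he
        rw [← e] at hu'
        simp at hu'
  have hDP : ∀ x ∈ D, PP b p x ∉ D := by
    intro x hx hx'
    obtain ⟨y, hy, -, hy'⟩ := hD {x, PP b p x} (by
        intro y hy
        simp only [mem_insert, mem_singleton] at hy
        rcases hy with rfl | rfl
        · exact hDZ hx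
        · exact hDZ hx') ⟨x, by simp⟩ (by
        intro y hy
        simp only [mem_insert, mem_singleton] at hy ⊢
        rcases hy with rfl | rfl
        · exact Or.inl (hDk _ hx)
        · exact Or.inr (hDk _ hx')) (by
        intro y hy
        simp only [mem_insert, mem_singleton] at hy ⊢
        rcases hy with rfl | rfl
        · exact Or.inr rfl
        · exact Or.inl (hP.invol _))
    simp only [mem_insert, mem_singleton] at hy
    rcases hy with rfl | rfl
    · exact hy' hx
    · exact hy' hx'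
  have hDA : ∀ i ∈ S, ∀ x ∈ D, loc s (t i) x ∉ A := by
    intro i hi x hx
    by_cases c1 : fl x ∈ ZZ b d
    · by_cases c2 : x.1 = u.1
      · have : x = fl u := by
          have hne : x ≠ u := fun e => huD (e ▸ hx)
          refine Prod.ext c2 (Bool.eq_not_iff.mpr fun e => hne (Prod.ext c2 e))
        rw [this]; exact h3 i hi
      · exact absurd ((hk1 x c1 c2).symm.trans (hDk x hx)) (fl_ne x)
    · obtain ⟨y, rfl⟩ := fl_ZZ (hDZ hx) c1
      exact h1 i hi y
  rw [sum_mul]
  refine le_trans (sum_le_sum (fun i hi => le_trans (Nat.mul_le_mul_left _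
    (Nat.pow_le_pow_right (by omega) hDR))
    (removal hn hs hK hQ hA (h i hi).sep (PP b p) D (hDA i hi) hDP))) ?_
  refine sum_card_le_mul S _ (Ext pos Q) _ ?_ ?_
  · intro i _ m hm
    rw [mem_Ext] at hm ⊢
    exact ⟨hm.1, hm.2.1⟩
  · intro m _
    refine le_trans (card_le_card_of_injOn (fun i => loc s (t i) u) ?_ ?_) hA
    · intro i hi
      exact h2 i (mem_filter.mp hi).1
    · intro i hi i' hi' huu
      simp only [coe_filter, Set.mem_ofPred_eq, mem_Ext] at hi hi'
      apply hinj hi.1 hi'.1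
      by_contra hcon
      obtain ⟨j, hj⟩ := Function.ne_iff.mp hcon
      have hedge : ∀ i ∈ S, (∀ e, e ∉ D → PP b p e ∉ D →
          m (loc s (t i) e) = loc s (t i) (PP b p e)) → ∀ x, ∀ l ≤ d x,
          m (loc s (t i) (ch b (ye b x l))) = loc s (t i) (ye b x l) := by
        intro i _ hm x l hl
        have a : (ye b x l : End R T k) ∉ ZZ b d := by simpa using hl
        have c : PP b p (ch b (ye b x l)) = ye b x l := by
          rw [PP_of_notMem hp (ch_notMem (ye_notMem b x l)), ch_ch]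
        have := hm (ch b (ye b x l)) (fun h => a (by simpa [ch_ch] using ch_ZZ (hDZ h)))
          (fun h => a (c ▸ hDZ h))
        rwa [c] at this
      have hU : ∀ e : End R T k, t i e.1 ≠ t i' e.1 → e ∈ ZZ b d ∧ kz e = fl e := by
        have hpre : ∀ x l, t i (Sum.inr (Sum.inl (x, l))) ≠ t i' (Sum.inr (Sum.inl (x, l))) →
            d x < l := by
          intro x l hne
          by_contra hc
          exact hne ((loc_eq_iff _ _ _ _).mp (chain_prefix (s := s) (t := t i) (t' := t i')
            (fun r => by rw [(h i hi.1).hsp, (h i' hi'.1).hsp]) (b := b) (b' := b) (m := m) x (d x)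
            (fun _ _ => rfl) (hedge i hi.1 hi.2.2.2 x) (hedge i' hi'.1 hi'.2.2.2 x) l
            (not_lt.mp hc)))
        have hZ : ∀ e : End R T k, t i e.1 ≠ t i' e.1 → e ∈ ZZ b d := by
          intro e
          induction e using End.cases4 b with
          | h1 x => intro hne; exact absurd (by rw [se, (h i hi.1).hsp, (h i' hi'.1).hsp]) hne
          | h2 x l => intro hne; simpa using hpre x l hne
          | h3 x l => intro hne; simpa using (hpre x l hne).le
          | h4 g c => simp
        intro e he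
        refine ⟨hZ e he, hk1 e (hZ (fl e) he) ?_⟩
        intro e'
        rw [e'] at he
        exact he ((loc_eq_iff _ _ _ _).mp huu)
      obtain ⟨x, hx, hx1, hx2⟩ := hD (univ.filter (fun e => t i e.1 ≠ t i' e.1) ∪
          D.filter (fun x => t i (PP b p x).1 ≠ t i' (PP b p x).1)) (by
          intro e he
          simp only [mem_union, mem_filter, mem_univ, true_and] at he
          rcases he with he | he
          · exact (hU e he).1
          · exact hDZ he.1) ⟨(j, true), by simp [hj]⟩ (by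
          intro e he
          simp only [mem_union, mem_filter, mem_univ, true_and] at he ⊢
          rcases he with he | he
          · rw [(hU e he).2]; exact Or.inl he
          · rw [hDk e he.1]; exact Or.inr he) (by
          intro e he
          simp only [mem_union, mem_filter, mem_univ, true_and] at he ⊢
          rcases he with he | he
          · by_cases hc : PP b p e ∈ D
            · exact Or.inr ⟨hc, by rwa [hP.invol]⟩
            · left
              have heD : e ∉ D := fun h => fl_ne e ((hU e he).2.symm.trans (hDk e h))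
              intro e'
              apply he
              rw [← loc_eq_iff s] at e' ⊢
              apply hi.2.1.inj
              rw [hi.2.2.2 e heD hc, hi'.2.2.2 e heD hc, e']
          · exact Or.inl he.2)
      simp only [mem_union, mem_filter, mem_univ, true_and] at hx
      rcases hx with hx | hx
      · exact fl_ne x ((hU x hx).2.symm.trans hx1)
      · exact hx2 hx.1

end Pool.Agent.MP_755159_pr
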