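import Pool.Agent.MP_755159_pr.Pairing

/-! The end-to-end involution of a union of two involutions, transversals, and Hamiltonicity of a
connected 2-factor described by darts. -/

set_option linter.unusedSectionVars false

namespace Pool.Agent.MP_755159_pr

open Finset

variable {D : Type} [Fintype D] [DecidableEq D]

theorem exists_sigma (η : D → D) (N : ℕ) : ∀ (X : Finset D) (ν : D → D), X.card = N → Inv X ν →
    (∀ x ∈ X, ν x ≠ x) → Inv X η → ∃ σ : D → D,
      (∀ x ∈ X, η x = x → σ x ∈ X ∧ η (σ x) = σ x ∧ σ (σ x) = x ∧ σ x ≠ x) ∧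
      (∀ U ⊆ X, (∀ x ∈ U, ν x ∈ U) → (∀ x ∈ U, η x ∈ U) → ∀ x ∈ U, η x = x → σ x ∈ U) ∧
      (∀ x ∈ X, η x = x → ∃ U ⊆ X, (∀ x ∈ U, ν x ∈ U) ∧ (∀ x ∈ U, η x ∈ U) ∧ x ∈ U ∧
        ∀ y ∈ U, η y = y → y = x ∨ y = σ x) := by
  induction N using Nat.strong_induction_on with
  | _ N ih =>
    intro X ν hN hν hν' hη
    by_cases hall : ∀ x ∈ X, η x = x
    · refine ⟨ν, ?_, ?_, ?_⟩
      · intro x hx _
        exact ⟨(hν x hx).1, hall _ (hν x hx).1, (hν x hx).2, hν' x hx⟩
      · intro U _ h1 _ x hx _
        exact h1 x hx
      · intro x hx _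
        refine ⟨{x, ν x}, ?_, ?_, ?_, by simp, ?_⟩
        · intro y hy
          simp only [mem_insert, mem_singleton] at hy
          rcases hy with rfl | rfl
          · exact hx
          · exact (hν x hx).1
        · intro y hy
          simp only [mem_insert, mem_singleton] at hy ⊢
          rcases hy with rfl | rfl
          · exact Or.inr rfl
          · exact Or.inl (hν x hx).2
        · intro y hy
          simp only [mem_insert, mem_singleton] at hy ⊢
          rcases hy with rfl | rfl
          · exact Or.inl (hall _ hx)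
          · exact Or.inr (hall _ (hν x hx).1)
        · intro y hy _
          simpa using hy
    · push Not at hall
      obtain ⟨e, he, hee⟩ := hall
      obtain ⟨e', he'e⟩ : ∃ e', e' = η e := ⟨_, rfl⟩
      have he' : e' ∈ X := he'e ▸ (hη e he).1
      have hne : e ≠ e' := by rw [he'e]; exact hee.symm
      have hee' : η e' = e := by rw [he'e]; exact (hη e he).2
      have hcard := card_rem he he' hne
      have hη' : Inv (rem X e e') η := by
        intro x hx
        rw [mem_rem] at hx ⊢
        obtain ⟨a, b⟩ := hη x hx.1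
        refine ⟨⟨a, fun h => hx.2.2 ?_, fun h => hx.2.1 ?_⟩, b⟩
        · rw [← b, h, he'e]
        · rw [← b, h, hee']
      have hfix : ∀ x ∈ X, η x = x → x ∈ rem X e e' := by
        intro x hx h
        refine mem_rem.mpr ⟨hx, ?_, ?_⟩
        · rintro rfl; exact hee h
        · rintro rfl; exact hne (hee'.symm.trans h)
      have hsub : rem X e e' ⊆ X := fun x hx => (mem_rem.mp hx).1
      have hsub' : ∀ U ⊆ X, rem U e e' ⊆ rem X e e' := by
        intro U hUX x hx
        rw [mem_rem] at hx ⊢
        exact ⟨hUX hx.1, hx.2⟩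
      have hηU : ∀ U ⊆ X, (∀ x ∈ U, η x ∈ U) → ∀ x ∈ rem U e e', η x ∈ rem U e e' := by
        intro U hUX h x hx
        have := mem_rem.mp (hη' x (hsub' U hUX hx)).1
        exact mem_rem.mpr ⟨h x (mem_rem.mp hx).1, this.2⟩
      by_cases hcase : ν e = e'
      · have hνe' : ν e' = e := by rw [← hcase]; exact (hν e he).2
        have hν1 : Inv (rem X e e') ν := by
          intro x hx
          rw [mem_rem] at hx ⊢
          obtain ⟨a, b⟩ := hν x hx.1
          refine ⟨⟨a, fun h => hx.2.2 ?_, fun h => hx.2.1 ?_⟩, b⟩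
          · rw [← b, h, hcase]
          · rw [← b, h, hνe']
        obtain ⟨σ, h1, h2, h3⟩ := ih _ (by omega) (rem X e e') ν rfl hν1
          (fun x hx => hν' x (hsub hx)) hη'
        refine ⟨σ, ?_, ?_, ?_⟩
        · intro x hx h
          obtain ⟨a, b⟩ := h1 x (hfix x hx h) h
          exact ⟨hsub a, b⟩
        · intro U hUX a b x hx h
          have := h2 _ (hsub' U hUX) ?_ (hηU U hUX b) x
            (mem_rem.mpr ⟨hx, (mem_rem.mp (hfix x (hUX hx) h)).2⟩) h
          · exact (mem_rem.mp this).1
          · intro y hy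
            have := mem_rem.mp (hν1 y (hsub' U hUX hy)).1
            exact mem_rem.mpr ⟨a y (mem_rem.mp hy).1, this.2⟩
        · intro x hx h
          obtain ⟨U, a, b⟩ := h3 x (hfix x hx h) h
          exact ⟨U, a.trans hsub, b⟩
      · obtain ⟨σ, h1, h2, h3⟩ := ih _ (by omega) (rem X e e') (ctr ν e e') rfl
          (hν.ctr he he' hne hcase) (ctr_fpf hν hν' he he' hne) hη'
        refine ⟨σ, ?_, ?_, ?_⟩
        · intro x hx h
          obtain ⟨a, b⟩ := h1 x (hfix x hx h) h
          exact ⟨hsub a, b⟩
        · intro U hUX a b x hx h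
          have hiff : e ∈ U ↔ e' ∈ U := ⟨fun h => he'e ▸ b e h, fun h => hee' ▸ b e' h⟩
          have := h2 _ (hsub' U hUX) (ctr_closed hν he he' hcase hUX a hiff) (hηU U hUX b) x
            (mem_rem.mpr ⟨hx, (mem_rem.mp (hfix x (hUX hx) h)).2⟩) h
          exact (mem_rem.mp this).1
        · intro x hx h
          obtain ⟨U, a, b, c, d, f⟩ := h3 x (hfix x hx h) h
          obtain ⟨b1, b2⟩ := hν e he
          obtain ⟨c1, c2⟩ := hν e' he'
          have n1 := hν' e he
          have n2 := hν' e' he'
          by_cases hU : ν e ∈ U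
          · have hU' : ν e' ∈ U := by
              have := b _ hU
              rwa [ctr_left b2 n2] at this
            refine ⟨insert e (insert e' U), ?_, ?_, ?_, by simp [d], ?_⟩
            · intro y hy
              simp only [mem_insert] at hy
              rcases hy with rfl | rfl | hy
              · exact he
              · exact he'
              · exact hsub (a hy)
            · intro y hy
              simp only [mem_insert] at hy ⊢
              rcases hy with rfl | rfl | hy
              · exact Or.inr (Or.inr hU)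
              · exact Or.inr (Or.inr hU')
              · by_cases q1 : ν y = e
                · exact Or.inl q1
                · by_cases q2 : ν y = e'
                  · exact Or.inr (Or.inl q2)
                  · right; right
                    have := b y hy
                    rwa [ctr_of_ne q1 q2] at this
            · intro y hy
              simp only [mem_insert] at hy ⊢
              rcases hy with rfl | rfl | hy
              · exact Or.inr (Or.inl he'e.symm)
              · exact Or.inl hee'
              · exact Or.inr (Or.inr (c y hy))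
            · intro y hy hy'
              simp only [mem_insert] at hy
              rcases hy with rfl | rfl | hy
              · exact absurd hy' hee
              · exact absurd (hee'.symm.trans hy') hne
              · exact f y hy hy'
          · refine ⟨U, a.trans hsub, ?_, c, d, f⟩
            intro y hy
            have hy2 := (hν y (hsub (a hy))).2
            have q1 : ν y ≠ e := by
              intro q
              apply hU
              rw [← q, hy2]; exact hy
            have q2 : ν y ≠ e' := by
              intro q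
              apply hU
              have := b y hy
              rwa [ctr_right hne q n1] at this
            have := b y hy
            rwa [ctr_of_ne q1 q2] at this

theorem exists_transversal (Z : Finset D) (P k : D → D) (hP : Inv Z P) (hP' : ∀ x ∈ Z, P x ≠ x)
    (hk : Inv Z k) (hac : Acyc Z k P) (u : D) : ∃ T ⊆ Z, (∀ x ∈ T, k x = x) ∧ u ∉ T ∧
      (Z.filter (fun x => k x = x)).card ≤ 2 * T.card ∧
      ∀ U ⊆ Z, U.Nonempty → (∀ x ∈ U, k x ∈ U) → (∀ x ∈ U, P x ∈ U) →
        ∃ x ∈ U, k x = x ∧ x ∉ T := by
  obtain ⟨σ, h1, h2, -⟩ := exists_sigma k _ Z P rfl hP hP' hk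
  obtain ⟨f, hf⟩ : ∃ f : D → ℕ, Function.Injective f :=
    ⟨fun d => (Fintype.equivFin D d : ℕ),
      fun a b h => (Fintype.equivFin D).injective (Fin.ext h)⟩
  have key : ∀ r : ℕ → ℕ → Prop, [DecidableRel r] → (∀ a b, a ≠ b → r a b ∨ r b a) →
      (∀ a b, r a b → ¬ r b a) → ¬ r (f u) (f (σ u)) → ∃ T ⊆ Z, (∀ x ∈ T, k x = x) ∧ u ∉ T ∧
      (Z.filter (fun x => k x = x)).card ≤ 2 * T.card ∧
      ∀ U ⊆ Z, U.Nonempty → (∀ x ∈ U, k x ∈ U) → (∀ x ∈ U, P x ∈ U) →
        ∃ x ∈ U, k x = x ∧ x ∉ T := by
    intro r _ htot hasym hu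
    refine ⟨Z.filter (fun x => k x = x ∧ r (f x) (f (σ x))), filter_subset _ _, ?_, ?_, ?_, ?_⟩
    · intro x hx; exact (mem_filter.mp hx).2.1
    · intro h; exact hu (mem_filter.mp h).2.2
    · have : Z.filter (fun x => k x = x) ⊆ Z.filter (fun x => k x = x ∧ r (f x) (f (σ x))) ∪
          (Z.filter (fun x => k x = x ∧ r (f x) (f (σ x)))).image σ := by
        intro x hx
        rw [mem_filter] at hx
        obtain ⟨a, b, c, d⟩ := h1 x hx.1 hx.2
        rw [mem_union]
        rcases htot (f x) (f (σ x)) (fun h => d (hf h).symm) with h | h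
        · exact Or.inl (mem_filter.mpr ⟨hx.1, hx.2, h⟩)
        · exact Or.inr (mem_image.mpr ⟨σ x, mem_filter.mpr ⟨a, b, by rwa [c]⟩, c⟩)
      have a := (card_le_card this).trans (card_union_le _ _)
      have b := card_image_le (s := Z.filter (fun x => k x = x ∧ r (f x) (f (σ x)))) (f := σ)
      omega
    · intro U hUZ hne a b
      obtain ⟨x, hx, hkx⟩ := hac U hUZ hne a b
      by_cases hr : r (f x) (f (σ x))
      · obtain ⟨c, d, e, -⟩ := h1 x (hUZ hx) hkx
        refine ⟨σ x, h2 U hUZ b a x hx hkx, d, fun h => ?_⟩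
        have := (mem_filter.mp h).2.2
        rw [e] at this
        exact hasym _ _ hr this
      · exact ⟨x, hx, hkx, fun h => hr (mem_filter.mp h).2.2⟩
  by_cases hu : f u < f (σ u)
  · exact key (fun a b => b < a) (fun a b h => by omega) (fun a b h => by omega) (by omega)
  · exact key (fun a b => a < b) (fun a b h => by omega) (fun a b h => by omega) hu

theorem ham_of_darts {V : Type} [Fintype V] [DecidableEq V] [Nonempty V] (G : SimpleGraph V)
    (η : V × Bool → V × Bool) (hη : ∀ d, η (η d) = d) (hadj : ∀ d, G.Adj d.1 (η d).1)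
    (hne : ∀ v, (η (v, true)).1 ≠ (η (v, false)).1)
    (hconn : ∀ U : Finset (V × Bool), U.Nonempty → (∀ d ∈ U, (d.1, !d.2) ∈ U) →
      (∀ d ∈ U, η d ∈ U) → ∀ d, d ∈ U) : G.IsHamiltonian := by
  classical
  let H : SimpleGraph V :=
    { Adj := fun u v => ∃ c, (η (u, c)).1 = v
      symm := ⟨by
        rintro u v ⟨c, rfl⟩
        exact ⟨(η (u, c)).2, by simp [hη]⟩⟩
      loopless := ⟨by
        rintro u ⟨c, h⟩
        exact (hadj (u, c)).ne h.symm⟩ }
  have hle : H ≤ G := by
    rintro u v ⟨c, rfl⟩
    exact hadj (u, c)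
  have hcyc : H.IsCycles := by
    intro v _
    rw [Set.ncard_eq_two]
    refine ⟨_, _, hne v, ?_⟩
    ext w
    simp only [SimpleGraph.mem_neighborSet, H, Bool.exists_bool, Set.mem_insert_iff,
      Set.mem_singleton_iff]
    tauto
  apply SimpleGraph.IsHamiltonian.mono hle
  intro _
  obtain ⟨v⟩ := ‹Nonempty V›
  obtain ⟨p, hp, hv⟩ := hcyc.exists_cycle_toSubgraph_verts_eq_connectedComponentSupp
    (c := H.connectedComponentMk v) (v := v) (by simp) ⟨_, ⟨true, rfl⟩⟩
  have hall : ∀ w, H.Reachable v w := by
    intro w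
    have := hconn (univ.filter (fun d => H.Reachable v d.1)) ⟨(v, true), by simp⟩
      (by intro d hd; simpa using hd) ?_ (w, true)
    · simpa using this
    · intro d hd
      simp only [mem_filter, mem_univ, true_and] at hd ⊢
      exact hd.trans (SimpleGraph.Adj.reachable ⟨d.2, rfl⟩)
  refine ⟨v, p, hp, hp.isPath_tail.isHamiltonian_of_mem ?_⟩
  intro w
  have hw : w ∈ p.support := by
    rw [← SimpleGraph.Walk.mem_verts_toSubgraph, hv]
    simp only [SimpleGraph.ConnectedComponent.mem_supp_iff, SimpleGraph.ConnectedComponent.eq]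
    exact (hall w).symm
  rw [SimpleGraph.Walk.support_tail_of_not_nil _ hp.not_nil]
  rw [← SimpleGraph.Walk.cons_tail_support, List.mem_cons] at hw
  rcases hw with rfl | hw
  · exact SimpleGraph.Walk.end_mem_tail_support hp.not_nil
  · exact hw

end Pool.Agent.MP_755159_pr
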